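import Mathlib
import Pool.Graph.R_seed8.R34.FH.Lower2

/-!
The lower bound for the minor-forcing average degree of EVERY regular graph `H₀`:
`c t √(1 + log⁺ (d / log t))`.
-/

set_option autoImplicit false
set_option linter.unusedSectionVars false

namespace Pool.Agent.KS6_25.MF

open SimpleGraph Finset Classical
open Pool.Agent.TH507.Host Pool.Agent.R34.Ident Pool.Agent.R34.FH

/-- `1 + log⁺ (D / log t)` -/
noncomputable def gain (D t : ℕ) : ℝ := 1 + max 0 (Real.log (D / Real.log t))

lemma one_le_gain (D t : ℕ) : 1 ≤ gain D t := by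
  unfold gain
  have := le_max_left 0 (Real.log (D / Real.log t))
  linarith

/-- the trivial bound: `t - 2` -/
theorem lower_trivial {W : Type} [Fintype W] {H : SimpleGraph W} (h : 2 ≤ Fintype.card W) {c : ℝ}
    (hc : Forces H c) : (Fintype.card W : ℝ) - 2 ≤ c := by
  by_contra hcon
  push Not at hcon
  set N := Fintype.card W - 1 with hN
  have hN0 : 0 < N := by omega
  have : Nonempty (Fin N) := ⟨⟨0, hN0⟩⟩
  obtain ⟨B, hB1, hB2, -⟩ := hc (Fin N) ⊤ (by
    rw [avgDeg_eq]
    have h1 : pr (⊤ : SimpleGraph (Fin N)) = N * (N - 1) := by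
      rw [pr_eq]
      have : ∀ v : Fin N, (nb (⊤ : SimpleGraph (Fin N)) v).card = N - 1 := by
        intro v
        have h2 : nb (⊤ : SimpleGraph (Fin N)) v = univ.erase v := by
          ext y
          rw [mem_nb, mem_erase, top_adj]
          exact ⟨fun h => ⟨h.symm, mem_univ _⟩, fun h => h.1.symm⟩
        rw [h2, card_erase_of_mem (mem_univ _), card_univ, Fintype.card_fin]
      rw [sum_congr rfl (fun v _ => this v), sum_const, card_univ, Fintype.card_fin, smul_eq_mul]
    rw [h1, Fintype.card_fin]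
    have hNR : (0 : ℝ) < N := by exact_mod_cast hN0
    rw [le_div_iff₀ hNR]
    push_cast [Nat.cast_sub (show 1 ≤ N by omega)]
    have h3 : (Fintype.card W : ℝ) = N + 1 := by
      rw [hN, Nat.cast_sub (by omega)]
      push_cast
      ring
    rw [h3] at hcon
    nlinarith)
  have h1 : ∀ x, ∃ v, v ∈ B x := fun x => by
    obtain ⟨⟨v, hv⟩⟩ := (hB1 x).nonempty
    exact ⟨v, hv⟩
  choose g hg using h1
  have hinj : Function.Injective g := by
    intro x y hxy
    by_contra hne
    exact Set.disjoint_left.1 (hB2 x y hne) (hg x) (hxy ▸ hg y)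
  have h2 := Fintype.card_le_of_injective g hinj
  rw [Fintype.card_fin] at h2
  omega

/-- **the lower bound `t √(log (d / log t))`** for every regular graph -/
theorem lower_all_aux {d t : ℕ} (ht : 1024 ≤ t) (hz : Real.exp 1 ≤ d / Real.log t)
    (H₀ : SimpleGraph (Fin t)) (hreg : Regular H₀ d) {c : ℝ} (hc : Forces H₀ c) :
    1 / 64 * (t * √(Real.log (d / Real.log t))) ≤ c := by
  have htR : (1024 : ℝ) ≤ t := by exact_mod_cast ht
  have hlogt : 0 < Real.log t := Real.log_pos (by linarith)
  have hlog2 := Real.log_two_gt_d9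
  have hlog2' := Real.log_two_lt_d9
  have hlogt6 : 6 ≤ Real.log t := by
    have h1 : Real.log 1024 ≤ Real.log t := Real.log_le_log (by norm_num) htR
    have h2 : Real.log 1024 = 10 * Real.log 2 := by
      rw [show (1024 : ℝ) = 2 ^ 10 by norm_num, Real.log_pow]
      norm_num
    linarith
  set z := d / Real.log t with hzdef
  have hexp : 2 < Real.exp 1 := by
    have := Real.exp_one_gt_d9
    linarith
  have hz1 : 1 ≤ z := by linarith
  have hdz : (d : ℝ) = z * Real.log t := by
    rw [hzdef]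
    field_simp
  have hlogz : 1 ≤ Real.log z := by
    rw [Real.le_log_iff_exp_le (by linarith)]
    exact hz
  set a := √(Real.log z) with ha
  have ha2 : a ^ 2 = Real.log z := Real.sq_sqrt (by linarith)
  have ha1 : 1 ≤ a := by
    apply Real.le_sqrt_of_sq_le
    linarith
  set X := (t : ℝ) * a with hX
  have hX0 : 1024 ≤ X := by
    have : (1024 : ℝ) * 1 ≤ t * a := mul_le_mul htR ha1 (by norm_num) (by positivity)
    linarith
  set n := ⌊1 / 16 * X⌋₊ with hn
  have hn1 : (n : ℝ) ≤ 1 / 16 * X := Nat.floor_le (by positivity)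
  have hn2 : 1 / 16 * X < n + 1 := Nat.lt_floor_add_one _
  have hn0 : 0 < n := by
    have : (1 : ℝ) ≤ n := by linarith
    exact_mod_cast this
  have ht0 : 0 < t ^ 2 := by positivity
  set q := 64 * n ^ 2 / t ^ 2 with hq
  set M := 3 * (t * d) / 8 with hM
  have hq1 : 64 * n ^ 2 < (q + 1) * t ^ 2 := by
    have := Nat.lt_mul_div_succ (64 * n ^ 2) ht0
    calc 64 * n ^ 2 < t ^ 2 * (q + 1) := this
      _ = _ := by ring
  have hM1 : 8 * M ≤ 3 * (t * d) := Nat.mul_div_le _ _
  have hqR : (q : ℝ) ≤ 1 / 4 * Real.log z := by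
    have h1 : q * t ^ 2 ≤ 64 * n ^ 2 := Nat.div_mul_le_self _ _
    have h2 : (q : ℝ) * (t : ℝ) ^ 2 ≤ 64 * (n : ℝ) ^ 2 := by exact_mod_cast h1
    have h3 : (n : ℝ) ^ 2 ≤ (1 / 16 * X) ^ 2 := pow_le_pow_left₀ (by positivity) hn1 2
    have h4 : (q : ℝ) * (t : ℝ) ^ 2 ≤ (1 / 4 * Real.log z) * (t : ℝ) ^ 2 := by
      calc (q : ℝ) * (t : ℝ) ^ 2 ≤ 64 * (n : ℝ) ^ 2 := h2
        _ ≤ 64 * (1 / 16 * X) ^ 2 := by linarith
        _ = (1 / 4 * a ^ 2) * (t : ℝ) ^ 2 := by rw [hX]; ring
        _ = _ := by rw [ha2]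
    exact le_of_mul_le_mul_right h4 (by positivity)
  set r := Real.exp (1 / 4 * Real.log z) with hr
  obtain ⟨hr1, hr4, hrlog⟩ := r_facts hz1 hr
  have hhalf := half_pow hz1 hr hqR
  have hr0 : 0 < r := by linarith
  have hlogt2 : Real.log ((t + 1 : ℕ) : ℝ) ≤ 2 * Real.log t := by
    have h3 : ((t + 1 : ℕ) : ℝ) ≤ t ^ 2 := by
      push_cast
      nlinarith
    calc Real.log ((t + 1 : ℕ) : ℝ) ≤ Real.log ((t : ℝ) ^ 2) :=
          Real.log_le_log (by positivity) h3
      _ = _ := by rw [Real.log_pow]; norm_num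
  have hd1 : (1 : ℝ) ≤ d := by
    rw [hdz]
    nlinarith
  have hnum : (n : ℝ) * Real.log ((t + 1 : ℕ) : ℝ) + 1 < M * (1 / 2) ^ q := by
    have hMR : (t : ℝ) * d / 4 ≤ M := by
      have h1 : 3 * (t * d) < 8 * (M + 1) := by
        have := Nat.lt_mul_div_succ (3 * (t * d)) (show 0 < 8 by norm_num)
        rw [hM]
        exact this
      have h2 : (3 : ℝ) * (t * d) < 8 * (M + 1) := by exact_mod_cast h1
      have h3 : (1024 : ℝ) * 1 ≤ t * d := mul_le_mul htR hd1 (by norm_num) (by positivity)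
      linarith
    have h1 : (t : ℝ) * d / 4 * (1 / r) ≤ M * (1 / 2) ^ q := by
      apply mul_le_mul hMR hhalf (by positivity) (by positivity)
    have h2 : (t : ℝ) * d / 4 * (1 / r) = t * Real.log t * r ^ 3 / 4 := by
      rw [hdz, ← hr4]
      field_simp
    have h3 : (n : ℝ) * Real.log ((t + 1 : ℕ) : ℝ) ≤ (1 / 16 * (t * r)) * (2 * Real.log t) := by
      apply mul_le_mul _ hlogt2 (Real.log_nonneg (by push_cast; linarith)) (by positivity)
      refine hn1.trans ?_
      have : X ≤ t * r := mul_le_mul_of_nonneg_left hrlog (by positivity)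
      linarith
    have h4 : (1 / 16 * (t * r)) * (2 * Real.log t) = (t * Real.log t) * r / 8 := by ring
    have h5 : (1024 : ℝ) * 6 ≤ t * Real.log t := mul_le_mul htR hlogt6 (by norm_num) (by positivity)
    have h6 : r ≤ r ^ 3 := by
      have : 1 ≤ r ^ 2 := one_le_pow₀ hr1
      nlinarith
    have h7 : (t * Real.log t) * r / 8 ≤ (t * Real.log t) * r ^ 3 / 8 := by
      have : (t * Real.log t) * r ≤ (t * Real.log t) * r ^ 3 :=
        mul_le_mul_of_nonneg_left h6 (by positivity)
      linarith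
    have h8 : (1024 : ℝ) * 6 * 1 ≤ (t * Real.log t) * r ^ 3 :=
      mul_le_mul h5 (one_le_pow₀ hr1) (by norm_num) (by positivity)
    linarith
  have hfin := lower_of hn0 (random H₀ (fun B hB => comb_reg hn0 H₀ hreg hq1 hM1 B hB)
    (num_cond hnum)) hc
  linarith

/-- **the lower bound `t √(gain d t)`** for every regular graph -/
theorem lower_all {d t : ℕ} (ht : 1024 ≤ t) (H₀ : SimpleGraph (Fin t)) (hreg : Regular H₀ d)
    {c : ℝ} (hc : Forces H₀ c) : 1 / 128 * (t * √(gain d t)) ≤ c := by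
  have htR : (1024 : ℝ) ≤ t := by exact_mod_cast ht
  have htriv := lower_trivial (H := H₀) (by rw [Fintype.card_fin]; omega) hc
  rw [Fintype.card_fin] at htriv
  by_cases hz : Real.exp 1 ≤ d / Real.log t
  · have h1 := lower_all_aux ht hz H₀ hreg hc
    have h2 : 1 ≤ Real.log (d / Real.log t) := by
      rw [Real.le_log_iff_exp_le (lt_of_lt_of_le (Real.exp_pos 1) hz)]
      exact hz
    have h3 : gain d t ≤ 2 ^ 2 * Real.log (d / Real.log t) := by
      unfold gain
      rw [max_eq_right (by linarith)]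
      linarith
    have h4 : √(gain d t) ≤ 2 * √(Real.log (d / Real.log t)) := by
      calc √(gain d t) ≤ √(2 ^ 2 * Real.log (d / Real.log t)) := Real.sqrt_le_sqrt h3
        _ = 2 * √(Real.log (d / Real.log t)) := by
          rw [Real.sqrt_mul (by norm_num), Real.sqrt_sq (by norm_num)]
    have h5 : (t : ℝ) * √(gain d t) ≤ t * (2 * √(Real.log (d / Real.log t))) :=
      mul_le_mul_of_nonneg_left h4 (by positivity)
    linarith
  · push Not at hz
    have h1 : gain d t ≤ 2 ^ 2 := by
      unfold gain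
      have h2 : max 0 (Real.log (d / Real.log t)) ≤ 1 := by
        apply max_le (by norm_num)
        rcases le_or_gt (d / Real.log t) 0 with h3 | h3
        · have h4 : (d : ℝ) / Real.log t = 0 := le_antisymm h3 (by
            have := Real.log_nonneg (show (1 : ℝ) ≤ t by linarith)
            positivity)
          rw [h4]
          simp
        · rw [Real.log_le_iff_le_exp h3]
          exact hz.le
      linarith
    have h2 : √(gain d t) ≤ 2 := by
      calc √(gain d t) ≤ √(2 ^ 2) := Real.sqrt_le_sqrt h1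
        _ = 2 := Real.sqrt_sq (by norm_num)
    have h3 : (t : ℝ) * √(gain d t) ≤ t * 2 := mul_le_mul_of_nonneg_left h2 (by positivity)
    linarith

end Pool.Agent.KS6_25.MF
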