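import Mathlib

/-!
Random injections avoiding prescribed values.
-/

set_option autoImplicit false
set_option linter.unusedSectionVars false

namespace Pool.Agent.KS6_25.MF

open Finset Classical

/-- one random injection -/
lemma single {R : Type} [Fintype R] {N : ℕ} (hN : 0 < N) (hR : 2 * Fintype.card R ≤ N)
    (β : R → Finset (Fin N)) :
    ((univ.filter (fun i : R ↪ Fin N => ∀ u, i u ∉ β u)).card : ℝ) ≤
      Real.exp (2 * (Fintype.card R : ℝ) ^ 2 / N - (∑ u, ((β u).card : ℝ)) / N) *
        Fintype.card (R ↪ Fin N) := by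
  have hNR : (0 : ℝ) < N := by exact_mod_cast hN
  set ρ := Fintype.card R with hρ
  have hρR : 2 * (ρ : ℝ) ≤ N := by exact_mod_cast hR
  -- the numerator
  have h1 : (univ.filter (fun i : R ↪ Fin N => ∀ u, i u ∉ β u)).card ≤
      (Fintype.piFinset (fun u => univ \ β u)).card := by
    refine card_le_card_of_injOn (fun i u => i u) ?_ ?_
    · intro i hi
      rw [mem_coe, Fintype.mem_piFinset]
      intro u
      rw [mem_sdiff]
      exact ⟨mem_univ _, (mem_filter.1 hi).2 u⟩
    · intro i _ j _ hij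
      ext u
      have := congrFun hij u
      exact congrArg Fin.val this
  rw [Fintype.card_piFinset] at h1
  have h2 : ((∏ u, (univ \ β u).card : ℕ) : ℝ) ≤
      (N : ℝ) ^ ρ * Real.exp (-((∑ u, ((β u).card : ℝ)) / N)) := by
    push_cast
    have h3 : ∀ u : R, ((univ \ β u).card : ℝ) ≤ N * Real.exp (-((β u).card / N)) := by
      intro u
      have h4 : (univ \ β u).card + (β u).card = N := by
        rw [card_sdiff_add_card_eq_card (subset_univ _), card_univ, Fintype.card_fin]
      have h5 : ((univ \ β u).card : ℝ) + (β u).card = N := by exact_mod_cast h4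
      have h6 := Real.add_one_le_exp (-(((β u).card : ℝ) / N))
      calc ((univ \ β u).card : ℝ) = N * (-(((β u).card : ℝ) / N) + 1) := by
            field_simp
            linarith
        _ ≤ _ := mul_le_mul_of_nonneg_left h6 hNR.le
    calc ∏ u, ((univ \ β u).card : ℝ) ≤ ∏ u, (N * Real.exp (-((β u).card / N))) :=
          prod_le_prod (fun u _ => by positivity) (fun u _ => h3 u)
      _ = (N : ℝ) ^ ρ * Real.exp (∑ u, (-(((β u).card : ℝ) / N))) := by
          rw [prod_mul_distrib, prod_const, card_univ, Real.exp_sum]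
      _ = _ := by
          rw [sum_neg_distrib, sum_div]
  -- the denominator
  have h3 : (N : ℝ) ^ ρ * Real.exp (-(2 * (ρ : ℝ) ^ 2 / N)) ≤ Fintype.card (R ↪ Fin N) := by
    rw [Fintype.card_embedding_eq, Fintype.card_fin]
    have h4 : (N + 1 - ρ) ^ ρ ≤ N.descFactorial ρ := Nat.pow_sub_le_descFactorial N ρ
    have h5 : ((N : ℝ) - ρ) ^ ρ ≤ N.descFactorial ρ := by
      have h6 : (N - ρ) ^ ρ ≤ N.descFactorial ρ :=
        (Nat.pow_le_pow_left (by omega) ρ).trans h4
      have h7 : (((N - ρ : ℕ) : ℝ)) ^ ρ ≤ N.descFactorial ρ := by exact_mod_cast h6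
      rwa [Nat.cast_sub (by omega)] at h7
    refine le_trans ?_ h5
    have h6 : Real.exp (-(2 * (ρ : ℝ) / N)) * N ≤ (N : ℝ) - ρ := by
      set x : ℝ := ρ / N with hx
      have hx0 : 0 ≤ x := by positivity
      have hx1 : x ≤ 1 / 2 := by
        rw [hx, div_le_iff₀ hNR]
        linarith
      have h7 : Real.exp (-(2 * x)) ≤ 1 - x := by
        have h8 : Real.exp (-(2 * x)) * (1 + 2 * x) ≤ 1 := by
          have h9 : 1 + 2 * x ≤ Real.exp (2 * x) := by
            have := Real.add_one_le_exp (2 * x)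
            linarith
          calc Real.exp (-(2 * x)) * (1 + 2 * x) ≤ Real.exp (-(2 * x)) * Real.exp (2 * x) := by
                gcongr
            _ = 1 := by rw [← Real.exp_add]; simp
        have h9 : 1 ≤ (1 - x) * (1 + 2 * x) := by nlinarith
        have h10 : (0 : ℝ) < 1 + 2 * x := by positivity
        exact le_of_mul_le_mul_right (h8.trans h9) h10
      have h8 : (ρ : ℝ) = x * N := by
        rw [hx]
        field_simp
      have h9 : 2 * (ρ : ℝ) / N = 2 * x := by
        rw [hx]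
        ring
      rw [h9]
      calc Real.exp (-(2 * x)) * N ≤ (1 - x) * N := mul_le_mul_of_nonneg_right h7 hNR.le
        _ = N - ρ := by rw [h8]; ring
    calc (N : ℝ) ^ ρ * Real.exp (-(2 * (ρ : ℝ) ^ 2 / N))
        = (Real.exp (-(2 * (ρ : ℝ) / N)) * N) ^ ρ := by
          rw [mul_pow, ← Real.exp_nat_mul, mul_comm]
          congr 2
          ring
      _ ≤ ((N : ℝ) - ρ) ^ ρ := pow_le_pow_left₀ (by positivity) h6 ρ
  have h4 : ((univ.filter (fun i : R ↪ Fin N => ∀ u, i u ∉ β u)).card : ℝ) ≤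
      ((∏ u, (univ \ β u).card : ℕ) : ℝ) := by exact_mod_cast h1
  calc ((univ.filter (fun i : R ↪ Fin N => ∀ u, i u ∉ β u)).card : ℝ)
      ≤ (N : ℝ) ^ ρ * Real.exp (-((∑ u, ((β u).card : ℝ)) / N)) := h4.trans h2
    _ = Real.exp (2 * (ρ : ℝ) ^ 2 / N - (∑ u, ((β u).card : ℝ)) / N) *
        ((N : ℝ) ^ ρ * Real.exp (-(2 * (ρ : ℝ) ^ 2 / N))) := by
        rw [mul_left_comm, ← Real.exp_add]
        congr 2
        ring
    _ ≤ _ := mul_le_mul_of_nonneg_left h3 (Real.exp_pos _).le

/-- many independent random injections -/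
lemma product {ι : Type} [Fintype ι] [DecidableEq ι] (R : ι → Type) [∀ p, Fintype (R p)] {N : ℕ}
    (hN : 0 < N) (hR : ∀ p, 2 * Fintype.card (R p) ≤ N) (β : ∀ p, R p → Finset (Fin N)) :
    ((univ.filter (fun φ : (∀ p, (R p ↪ Fin N)) => ∀ p u, φ p u ∉ β p u)).card : ℝ) ≤
      Real.exp (∑ p, (2 * (Fintype.card (R p) : ℝ) ^ 2 / N - (∑ u, ((β p u).card : ℝ)) / N)) *
        Fintype.card (∀ p, (R p ↪ Fin N)) := by
  have h1 : univ.filter (fun φ : (∀ p, (R p ↪ Fin N)) => ∀ p u, φ p u ∉ β p u) =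
      Fintype.piFinset (fun p => univ.filter (fun i : R p ↪ Fin N => ∀ u, i u ∉ β p u)) := by
    ext φ
    simp [Fintype.mem_piFinset]
  rw [h1, Fintype.card_piFinset, Fintype.card_pi]
  push_cast
  rw [Real.exp_sum, ← prod_mul_distrib]
  exact prod_le_prod (fun p _ => by positivity) (fun p _ => single hN (hR p) (β p))

end Pool.Agent.KS6_25.MF
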