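import Mathlib
import Pool.Graph.R_seed8.R34.FH.Lower2

/-!
A graph `F` on `m` vertices such that between any `r` and any `r` disjoint sets of at most `k`
vertices some pair is not joined; the density of the unjoined pairs in spread families.
-/

set_option autoImplicit false
set_option linter.unusedSectionVars false

namespace Pool.Agent.KS6_25.MF

open SimpleGraph Finset Classical
open Pool.Agent.TH507.Host Pool.Agent.R34.Ident Pool.Agent.R34.FH Pool.Agent.W126.Split

/-- some pair is not joined -/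
def Sparse {m : ℕ} (F : SimpleGraph (Fin m)) (r k : ℕ) : Prop :=
  ∀ A B : Fin r → Fin k → Fin m, (∀ i j a b, i ≠ j → A i a ≠ A j b) →
    (∀ i j a b, i ≠ j → B i a ≠ B j b) → (∀ i j a b, A i a ≠ B j b) →
    ∃ i j, ∀ a b, ¬ F.Adj (A i a) (B j b)

/-- the seed graph -/
theorem seed {r k m : ℕ} (hnum : ((m : ℝ) ^ (k * r) * (m : ℝ) ^ (k * r)) *
      (1 - (1 / 2) ^ (k * k)) ^ (r * r) < 1 / 2) :
    ∃ F : SimpleGraph (Fin m), m * (m - 1) ≤ 2 * pr F ∧ Sparse F r k := by
  set M := Fintype.card (Sym2 (Fin m)) with hM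
  let Fm := (Fin r → Fin k → Fin m) × (Fin r → Fin k → Fin m)
  set Valid : Finset Fm := univ.filter (fun p => (∀ i j a b, i ≠ j → p.1 i a ≠ p.1 j b) ∧
    (∀ i j a b, i ≠ j → p.2 i a ≠ p.2 j b) ∧ (∀ i j a b, p.1 i a ≠ p.2 j b)) with hValid
  set T : Fm → Fin r × Fin r → Finset (Sym2 (Fin m)) := fun p ij =>
    univ.image (fun ab : Fin k × Fin k => s(p.1 ij.1 ab.1, p.2 ij.2 ab.2)) with hT
  set Bad : Fm → Finset (Sym2 (Fin m) → Bool) := fun p =>
    univ.filter (fun f => ∀ ij ∈ (univ : Finset (Fin r × Fin r)), ∃ e ∈ T p ij, f e = true)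
    with hBad
  have hBadc : ∀ p ∈ Valid, ((Bad p).card : ℝ) ≤ (1 - (1 / 2) ^ (k * k)) ^ (r * r) * 2 ^ M := by
    intro p hp
    obtain ⟨h1, h2, h3⟩ := (mem_filter.1 hp).2
    have h4 := block_count' (T p) (k * k) (univ : Finset (Fin r × Fin r)) (by
      rintro ⟨i, j⟩ - ⟨i', j'⟩ - hne
      rw [Finset.disjoint_left]
      rintro e he he'
      obtain ⟨⟨a, b⟩, -, rfl⟩ := mem_image.1 he
      obtain ⟨⟨a', b'⟩, -, heq⟩ := mem_image.1 he'
      simp only at heq
      rw [Sym2.eq_iff] at heq
      rcases heq with ⟨e1, e2⟩ | ⟨e1, e2⟩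
      · apply hne
        have hi : i = i' := by
          by_contra hi
          exact h1 i' i a' a (Ne.symm hi) e1
        have hj : j = j' := by
          by_contra hj
          exact h2 j' j b' b (Ne.symm hj) e2
        rw [hi, hj]
      · exact h3 i' j a' b e1) (by
      rintro ⟨i, j⟩ -
      refine card_image_le.trans ?_
      rw [card_univ, Fintype.card_prod, Fintype.card_fin]) (Bad p)
      (fun f hf => (mem_filter.1 hf).2)
    rw [card_univ, Fintype.card_prod, Fintype.card_fin] at h4
    exact h4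
  set Dn := (univ : Finset (Sym2 (Fin m) → Bool)).filter
      (fun f => m * (m - 1) ≤ 2 * pr (Pool.Agent.R34.FH.gr f))
    with hDn
  have hD : (2 : ℝ) ^ M ≤ 2 * Dn.card := by exact_mod_cast half_dense m
  set All := Valid.biUnion Bad with hAll
  have hq1 : (0 : ℝ) ≤ 1 - (1 / 2) ^ (k * k) := by
    have : ((1 : ℝ) / 2) ^ (k * k) ≤ 1 := pow_le_one₀ (by norm_num) (by norm_num)
    linarith
  have hAllc : (All.card : ℝ) < Dn.card := by
    have h1 : (All.card : ℝ) ≤ ∑ p ∈ Valid, ((Bad p).card : ℝ) := by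
      exact_mod_cast card_biUnion_le
    have h2 : ∑ p ∈ Valid, ((Bad p).card : ℝ) ≤
        ((m : ℝ) ^ (k * r) * (m : ℝ) ^ (k * r)) *
          ((1 - (1 / 2) ^ (k * k)) ^ (r * r) * 2 ^ M) := by
      refine (sum_le_sum hBadc).trans ?_
      rw [sum_const, nsmul_eq_mul]
      apply mul_le_mul_of_nonneg_right _ (by positivity)
      have h3 : Valid.card ≤ Fintype.card Fm := card_le_univ _
      have h4 : Fintype.card Fm = (m ^ (k * r)) * (m ^ (k * r)) := by
        simp only [Fm, Fintype.card_prod, Fintype.card_fun, Fintype.card_fin]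
        rw [← pow_mul]
      rw [h4] at h3
      exact_mod_cast h3
    have h3 : (0 : ℝ) < 2 ^ M := by positivity
    nlinarith
  obtain ⟨f, hf, hfn⟩ : ∃ f ∈ Dn, f ∉ All := by
    by_contra hcon
    push Not at hcon
    have h1 : (Dn.card : ℝ) ≤ All.card := by
      exact_mod_cast card_le_card (show Dn ⊆ All from hcon)
    linarith
  refine ⟨Pool.Agent.R34.FH.gr f, (mem_filter.1 hf).2, ?_⟩
  intro A B h1 h2 h3
  have h4 : f ∉ Bad (A, B) := fun h => hfn (mem_biUnion.2 ⟨(A, B),
    mem_filter.2 ⟨mem_univ _, h1, h2, h3⟩, h⟩)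
  rw [hBad, mem_filter, not_and] at h4
  have h5 := h4 (mem_univ _)
  push Not at h5
  obtain ⟨⟨i, j⟩, -, h6⟩ := h5
  refine ⟨i, j, fun a b hab => ?_⟩
  exact h6 s(A i a, B j b) (mem_image.2 ⟨(a, b), mem_univ _, rfl⟩) hab.2

/-- greedy choice -/
lemma greedy {α : Type} (P N : Finset α) (C : α → α → Prop) (L : ℕ)
    (hC : ∀ x, (P.filter (C x)).card ≤ L) (r : ℕ) (h : N.card + r * L < P.card) :
    ∃ g : ℕ → α, (∀ i < r, g i ∈ P ∧ g i ∉ N) ∧ ∀ i < r, ∀ j < i, ¬ C (g j) (g i) := by
  induction r with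
  | zero =>
    have : P.Nonempty := by
      rw [← card_pos]
      omega
    obtain ⟨x, -⟩ := this
    exact ⟨fun _ => x, fun i hi => absurd hi (by omega), fun i hi => absurd hi (by omega)⟩
  | succ r ih =>
    have hrL : (r + 1) * L = r * L + L := by ring
    obtain ⟨g, h1, h2⟩ := ih (by omega)
    set S := N ∪ (range r).biUnion (fun j => P.filter (C (g j))) with hS
    have hSc : S.card ≤ N.card + r * L := by
      have h3 : ((range r).biUnion (fun j => P.filter (C (g j)))).card ≤ r * L := by
        calc _ ≤ ∑ j ∈ range r, (P.filter (C (g j))).card := card_biUnion_le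
          _ ≤ ∑ _j ∈ range r, L := sum_le_sum (fun j _ => hC _)
          _ = r * L := by rw [sum_const, card_range, smul_eq_mul]
      exact (card_union_le _ _).trans (by omega)
    obtain ⟨x, hx, hxS⟩ : ∃ x ∈ P, x ∉ S := by
      by_contra hcon
      push Not at hcon
      have := card_le_card (show P ⊆ S from hcon)
      omega
    rw [hS, mem_union, not_or] at hxS
    refine ⟨Function.update g r x, ?_, ?_⟩
    · intro i hi
      by_cases hir : i = r
      · subst hir
        rw [Function.update_self]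
        exact ⟨hx, hxS.1⟩
      · rw [Function.update_of_ne hir]
        exact h1 i (by omega)
    · intro i hi j hj
      by_cases hir : i = r
      · subst hir
        rw [Function.update_self, Function.update_of_ne (by omega)]
        intro hc
        exact hxS.2 (mem_biUnion.2 ⟨j, mem_range.2 hj, mem_filter.2 ⟨hx, hc⟩⟩)
      · rw [Function.update_of_ne hir, Function.update_of_ne (by omega)]
        exact h2 i (by omega) j hj

/-- the codes of `x` and `y` meet -/
def Meet {α : Type} {k m : ℕ} (c : α → Fin k → Fin m) (x y : α) : Prop :=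
  ∃ b a, c y b = c x a

/-- the density of the unjoined pairs -/
theorem bad_pairs {α : Type} {r k m Lam : ℕ} (hr : 0 < r) {F : SimpleGraph (Fin m)}
    (hF : Sparse F r k) (P Q : Finset α) (c : α → Fin k → Fin m)
    (hP : ∀ i, (P.filter (fun x => ∃ a, c x a = i)).card ≤ Lam)
    (hQ : ∀ i, (Q.filter (fun x => ∃ a, c x a = i)).card ≤ Lam)
    (h1 : 2 * (r * (k * Lam)) ≤ P.card) (h2 : 8 * (r * (k * Lam)) ≤ Q.card)
    (hQ0 : 0 < Q.card) :
    P.card * Q.card ≤ 8 * r *
      ((P ×ˢ Q).filter (fun p => ∀ a b, ¬ F.Adj (c p.1 a) (c p.2 b))).card := by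
  by_contra hcon
  push Not at hcon
  have hcon' : ∀ (S : Finset α), (∀ i, (S.filter (fun x => ∃ a, c x a = i)).card ≤ Lam) →
      ∀ x, (S.filter (Meet c x)).card ≤ k * Lam := by
    intro S hS x
    have h3 : S.filter (Meet c x) ⊆ (univ : Finset (Fin k)).biUnion
        (fun a => S.filter (fun y => ∃ b, c y b = c x a)) := by
      intro y hy
      obtain ⟨hy1, b, a, hab⟩ := mem_filter.1 hy
      exact mem_biUnion.2 ⟨a, mem_univ _, mem_filter.2 ⟨hy1, b, hab⟩⟩
    calc (S.filter (Meet c x)).card ≤ ∑ a : Fin k, (S.filter (fun y => ∃ b, c y b = c x a)).card :=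
          (card_le_card h3).trans card_biUnion_le
      _ ≤ ∑ _a : Fin k, Lam := sum_le_sum (fun a _ => hS _)
      _ = k * Lam := by rw [sum_const, card_univ, Fintype.card_fin, smul_eq_mul]
  set bad : α → Finset α := fun x => Q.filter (fun y => ∀ a b, ¬ F.Adj (c x a) (c y b)) with hbad
  have hsum : ((P ×ˢ Q).filter (fun p => ∀ a b, ¬ F.Adj (c p.1 a) (c p.2 b))).card =
      ∑ x ∈ P, (bad x).card := by
    rw [card_filter, sum_product]
    apply sum_congr rfl
    intro x _
    rw [hbad, card_filter]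
  rw [hsum] at hcon
  set High := P.filter (fun x => Q.card < 4 * r * (bad x).card) with hHigh
  have h3 : High.card * Q.card ≤ 4 * r * ∑ x ∈ P, (bad x).card := by
    calc High.card * Q.card = ∑ _x ∈ High, Q.card := by rw [sum_const, smul_eq_mul]
      _ ≤ ∑ x ∈ High, 4 * r * (bad x).card := sum_le_sum (fun x hx => (mem_filter.1 hx).2.le)
      _ ≤ ∑ x ∈ P, 4 * r * (bad x).card := sum_le_sum_of_subset (filter_subset _ _)
      _ = _ := by rw [mul_sum]
  have h4 : 2 * High.card < P.card := by
    have h5 : (2 * High.card) * Q.card < P.card * Q.card := by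
      calc (2 * High.card) * Q.card = 2 * (High.card * Q.card) := by ring
        _ ≤ 2 * (4 * r * ∑ x ∈ P, (bad x).card) := Nat.mul_le_mul_left _ h3
        _ = 8 * r * ∑ x ∈ P, (bad x).card := by ring
        _ < P.card * Q.card := hcon
    exact lt_of_mul_lt_mul_right h5 (Nat.zero_le _)
  -- the first side
  obtain ⟨x, hx1, hx2⟩ := greedy (P \ High) ∅ (Meet c) (k * Lam) (fun z => by
    refine le_trans (card_le_card ?_) (hcon' P hP z)
    exact filter_subset_filter _ sdiff_subset) r (by
    have h5 : (P \ High).card + High.card = P.card := card_sdiff_add_card_eq_card (filter_subset _ _)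
    rw [card_empty]
    omega)
  -- the second side
  set N := (range r).biUnion (fun i => Q.filter (Meet c (x i))) ∪ (range r).biUnion (fun i => bad (x i))
    with hN
  have hNc : 4 * N.card ≤ 4 * (r * (k * Lam)) + Q.card := by
    have h5 : ((range r).biUnion (fun i => Q.filter (Meet c (x i)))).card ≤ r * (k * Lam) := by
      calc _ ≤ ∑ i ∈ range r, (Q.filter (Meet c (x i))).card := card_biUnion_le
        _ ≤ ∑ _i ∈ range r, k * Lam := sum_le_sum (fun i _ => hcon' Q hQ _)
        _ = _ := by rw [sum_const, card_range, smul_eq_mul]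
    have h6 : 4 * r * ((range r).biUnion (fun i => bad (x i))).card ≤ r * Q.card := by
      calc 4 * r * ((range r).biUnion (fun i => bad (x i))).card
          ≤ 4 * r * ∑ i ∈ range r, (bad (x i)).card := Nat.mul_le_mul_left _ card_biUnion_le
        _ = ∑ i ∈ range r, 4 * r * (bad (x i)).card := by rw [mul_sum]
        _ ≤ ∑ _i ∈ range r, Q.card := by
            apply sum_le_sum
            intro i hi
            have h7 := (hx1 i (mem_range.1 hi)).1
            rw [mem_sdiff, hHigh, mem_filter, not_and] at h7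
            have h8 := h7.2 h7.1
            omega
        _ = r * Q.card := by rw [sum_const, card_range, smul_eq_mul]
    have h7 : 4 * ((range r).biUnion (fun i => bad (x i))).card ≤ Q.card := by
      have h8 : r * (4 * ((range r).biUnion (fun i => bad (x i))).card) ≤ r * Q.card := by
        calc _ = 4 * r * ((range r).biUnion (fun i => bad (x i))).card := by ring
          _ ≤ _ := h6
      exact Nat.le_of_mul_le_mul_left h8 hr
    have h8 := card_union_le ((range r).biUnion (fun i => Q.filter (Meet c (x i))))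
      ((range r).biUnion (fun i => bad (x i)))
    rw [hN]
    omega
  obtain ⟨y, hy1, hy2⟩ := greedy Q N (Meet c) (k * Lam) (hcon' Q hQ) r (by omega)
  obtain ⟨i, j, hij⟩ := hF (fun i => c (x i)) (fun i => c (y i)) (by
    intro i j a b hne heq
    rcases lt_or_gt_of_ne hne with hlt | hlt
    · exact hx2 j j.2 i hlt ⟨b, a, heq.symm⟩
    · exact hx2 i i.2 j hlt ⟨a, b, heq⟩) (by
    intro i j a b hne heq
    rcases lt_or_gt_of_ne hne with hlt | hlt
    · exact hy2 j j.2 i hlt ⟨b, a, heq.symm⟩
    · exact hy2 i i.2 j hlt ⟨a, b, heq⟩) (by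
    intro i j a b heq
    have h5 := (hy1 j j.2).2
    rw [hN, mem_union, not_or] at h5
    exact h5.1 (mem_biUnion.2 ⟨i, mem_range.2 i.2, mem_filter.2 ⟨(hy1 j j.2).1, b, a, heq.symm⟩⟩))
  have h5 := (hy1 j j.2).2
  rw [hN, mem_union, not_or] at h5
  exact h5.2 (mem_biUnion.2 ⟨i, mem_range.2 i.2, mem_filter.2 ⟨(hy1 j j.2).1, hij⟩⟩)

end Pool.Agent.KS6_25.MF
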