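import Mathlib
import Pool.Agent.KS6_25.MF.Seed
import Pool.Agent.KS6_25.MF.Family

/-!
The choice of a random regular bipartite graph which meets the unjoined pairs of every code.
-/

set_option autoImplicit false
set_option linter.unusedSectionVars false

namespace Pool.Agent.KS6_25.MF

open SimpleGraph Finset Classical
open Pool.Agent.TH507.Host Pool.Agent.R34.Ident Pool.Agent.R34.FH Pool.Agent.W126.Split

/-- the vertices -/
abbrev Vx (d N : ℕ) : Type := (Fin d × Fin N) ⊕ (Fin d × Fin N)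

/-- the rows with random images -/
abbrev Rw (d N q : ℕ) (p : Fin d × Fin d) : Type := {u : Fin N // u.val % q = p.2.val % q}

/-- the family of random injections -/
abbrev Fam (d N q : ℕ) : Type := ∀ p : Fin d × Fin d, (Rw d N q p ↪ Fin N)

/-- an unjoined pair -/
def Unj {m k : ℕ} {α : Type} (F : SimpleGraph (Fin m)) (c : α → Option (Fin k → Fin m))
    (x y : α) : Prop :=
  ∃ f g, c x = some f ∧ c y = some g ∧ ∀ a b, ¬ F.Adj (f a) (g b)

/-- a spread code with few undefined values -/
def ValidCode {m k : ℕ} {α : Type} [Fintype α] (Lam M0 : ℕ) (c : α → Option (Fin k → Fin m)) :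
    Prop :=
  (∀ i : Fin m, ((univ : Finset α).filter (fun x => ∃ f, c x = some f ∧ ∃ a, f a = i)).card ≤ Lam) ∧
    ((univ : Finset α).filter (fun x => c x = none)).card ≤ M0

lemma card_Rw (d N q : ℕ) (p : Fin d × Fin d) :
    Fintype.card (Rw d N q p) ≤ N / q + 1 := by
  have h := Fintype.card_le_of_injective (fun u : Rw d N q p =>
    (⟨u.1.val / q, Nat.lt_succ_of_le (Nat.div_le_div_right u.1.2.le)⟩ : Fin (N / q + 1))) (by
    intro u v huv
    have h1 : u.1.val / q = v.1.val / q := congrArg Fin.val huv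
    have h2 : u.1.val % q = v.1.val % q := u.2.trans v.2.symm
    have h3 := Nat.div_add_mod u.1.val q
    have h4 := Nat.div_add_mod v.1.val q
    rw [h1, h2] at h3
    exact Subtype.ext (Fin.ext (h3.symm.trans h4)))
  rwa [Fintype.card_fin] at h

lemma aux_lt {i N q j : ℕ} (hj : j < q) (hi : i < N / q) : i * q + j < N := by
  have h1 : (i + 1) * q ≤ N / q * q := Nat.mul_le_mul_right _ hi
  have h2 := Nat.div_mul_le_self N q
  have h3 : (i + 1) * q = i * q + q := by ring
  omega

lemma aux_mod {i q j : ℕ} (hj : j < q) : (i * q + j) % q = j := by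
  rw [Nat.mul_comm, Nat.mul_add_mod, Nat.mod_eq_of_lt hj]

lemma aux_inj {i i' q j : ℕ} (hq : 0 < q) (h : i * q + j = i' * q + j) : i = i' :=
  Nat.eq_of_mul_eq_mul_right hq (Nat.add_right_cancel h)

/-- the classes -/
noncomputable def XJ (d N q j : ℕ) : Finset (Vx d N) :=
  univ.filter (fun x => ∃ z : Fin d × Fin N, x = Sum.inl z ∧ z.2.val % q = j)

noncomputable def YJ (d N q j : ℕ) : Finset (Vx d N) :=
  univ.filter (fun x => ∃ z : Fin d × Fin N, x = Sum.inr z ∧ z.1.val % q = j)

lemma card_XJ {d N q j : ℕ} (hj : j < q) : d * (N / q) ≤ (XJ d N q j).card := by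
  have h : (univ : Finset (Fin d × Fin (N / q))).card ≤ (XJ d N q j).card := by
    refine card_le_card_of_injOn
      (fun z => Sum.inl (z.1, ⟨z.2.val * q + j, aux_lt hj z.2.2⟩)) ?_ ?_
    · intro z _
      rw [XJ, mem_coe, mem_filter]
      exact ⟨mem_univ _, _, rfl, aux_mod hj⟩
    · rintro ⟨a, i⟩ _ ⟨a', i'⟩ _ h
      have h1 := Prod.mk.inj (Sum.inl.inj h)
      have h2 := congrArg Fin.val h1.2
      rw [Prod.mk.injEq]
      exact ⟨h1.1, Fin.ext (aux_inj (by omega) h2)⟩
  rwa [card_univ, Fintype.card_prod, Fintype.card_fin, Fintype.card_fin] at h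

lemma card_YJ {d N q j : ℕ} (hj : j < q) : (d / q) * N ≤ (YJ d N q j).card := by
  have h : (univ : Finset (Fin (d / q) × Fin N)).card ≤ (YJ d N q j).card := by
    refine card_le_card_of_injOn
      (fun z => Sum.inr (⟨z.1.val * q + j, aux_lt hj z.1.2⟩, z.2)) ?_ ?_
    · intro z _
      rw [YJ, mem_coe, mem_filter]
      exact ⟨mem_univ _, _, rfl, aux_mod hj⟩
    · rintro ⟨a, i⟩ _ ⟨a', i'⟩ _ h
      have h1 := Prod.mk.inj (Sum.inr.inj h)
      have h2 := congrArg Fin.val h1.1
      rw [Prod.mk.injEq]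
      exact ⟨Fin.ext (aux_inj (by omega) h2), h1.2⟩
  rwa [card_univ, Fintype.card_prod, Fintype.card_fin, Fintype.card_fin] at h

/-- few classes contain many elements of a small set -/
lemma few_classes {α : Type} [DecidableEq α] (S : Finset α) (q : ℕ) (A : ℕ → Finset α)
    (hd : ∀ i < q, ∀ j < q, i ≠ j → Disjoint (A i) (A j)) (Z : ℕ) :
    ((range q).filter (fun j => Z < 2 * ((A j) ∩ S).card)).card * Z ≤
      2 * (((range q).biUnion A) ∩ S).card := by
  set B := (range q).filter (fun j => Z < 2 * ((A j) ∩ S).card) with hB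
  calc B.card * Z = ∑ _j ∈ B, Z := by rw [sum_const, smul_eq_mul]
    _ ≤ ∑ j ∈ B, 2 * ((A j) ∩ S).card := sum_le_sum (fun j hj => (mem_filter.1 hj).2.le)
    _ ≤ ∑ j ∈ range q, 2 * ((A j) ∩ S).card := sum_le_sum_of_subset (filter_subset _ _)
    _ = 2 * ∑ j ∈ range q, ((A j) ∩ S).card := by rw [mul_sum]
    _ = 2 * (((range q).biUnion A) ∩ S).card := by
        congr 1
        rw [biUnion_inter, card_biUnion]
        intro i hi j hj hij
        exact disjoint_of_subset_left inter_subset_left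
          (disjoint_of_subset_right inter_subset_left
            (hd i (mem_range.1 hi) j (mem_range.1 hj) hij))

/-- the unjoined pairs of a valid code -/
theorem many_unjoined {d N q k r Lam M0 Z : ℕ} {F : SimpleGraph (Fin d)} (hF : Sparse F r k)
    (hr : 0 < r) (hd : 0 < d) (hZ1 : Z ≤ d * (N / q)) (hZ2 : Z ≤ (d / q) * N)
    (hZ3 : 16 * (r * (k * Lam)) ≤ Z) (hZ0 : 0 < Z) (hM : 4 * M0 ≤ q * Z)
    (c : Vx d N → Option (Fin k → Fin d)) (hc : ValidCode Lam M0 c) :
    q * Z ^ 2 ≤ 64 * r * ∑ p : Fin d × Fin d, ∑ u : Rw d N q p,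
      ((univ : Finset (Fin N)).filter
        (fun v => Unj F c (Sum.inl (p.1, u.1)) (Sum.inr (p.2, v)))).card := by
  set S := (univ : Finset (Vx d N)).filter (fun x => c x = none) with hS
  have hXd : ∀ i < q, ∀ j < q, i ≠ j → Disjoint (XJ d N q i) (XJ d N q j) := by
    intro i _ j _ hij
    rw [Finset.disjoint_left]
    intro x hx hx'
    obtain ⟨z, rfl, h1⟩ := (mem_filter.1 hx).2
    obtain ⟨z', h2, h3⟩ := (mem_filter.1 hx').2
    rw [← Sum.inl.inj h2] at h3
    omega
  have hYd : ∀ i < q, ∀ j < q, i ≠ j → Disjoint (YJ d N q i) (YJ d N q j) := by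
    intro i _ j _ hij
    rw [Finset.disjoint_left]
    intro x hx hx'
    obtain ⟨z, rfl, h1⟩ := (mem_filter.1 hx).2
    obtain ⟨z', h2, h3⟩ := (mem_filter.1 hx').2
    rw [← Sum.inr.inj h2] at h3
    omega
  set BX := (range q).filter (fun j => Z < 2 * ((XJ d N q j) ∩ S).card) with hBX
  set BY := (range q).filter (fun j => Z < 2 * ((YJ d N q j) ∩ S).card) with hBY
  have h1 := few_classes S q (XJ d N q) hXd Z
  have h2 := few_classes S q (YJ d N q) hYd Z
  rw [← hBX] at h1
  rw [← hBY] at h2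
  have h3 : (((range q).biUnion (XJ d N q)) ∩ S).card + (((range q).biUnion (YJ d N q)) ∩ S).card ≤
      M0 := by
    rw [← card_union_of_disjoint]
    · exact (card_le_card (union_subset inter_subset_right inter_subset_right)).trans hc.2
    · rw [Finset.disjoint_left]
      intro x hx hx'
      obtain ⟨j, -, hj⟩ := mem_biUnion.1 (mem_inter.1 hx).1
      obtain ⟨j', -, hj'⟩ := mem_biUnion.1 (mem_inter.1 hx').1
      obtain ⟨z, rfl, -⟩ := (mem_filter.1 hj).2
      obtain ⟨z', h4, -⟩ := (mem_filter.1 hj').2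
      exact Sum.inl_ne_inr h4
  set G := (range q) \ (BX ∪ BY) with hG
  have hGc : q ≤ 2 * G.card := by
    have h4 : (BX.card + BY.card) * Z ≤ 2 * M0 := by
      rw [Nat.add_mul]
      omega
    have h5 : (2 * (BX.card + BY.card)) * Z ≤ q * Z := by
      calc (2 * (BX.card + BY.card)) * Z = 2 * ((BX.card + BY.card) * Z) := by ring
        _ ≤ 2 * (2 * M0) := Nat.mul_le_mul_left _ h4
        _ = 4 * M0 := by ring
        _ ≤ q * Z := hM
    have h6 : 2 * (BX.card + BY.card) ≤ q := Nat.le_of_mul_le_mul_right h5 hZ0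
    have h7 : (range q).card ≤ G.card + (BX ∪ BY).card := card_le_card_sdiff_add_card
    have h8 := card_union_le BX BY
    rw [card_range] at h7
    omega
  -- the total code
  set c' : Vx d N → Fin k → Fin d := fun x => (c x).getD (fun _ => ⟨0, hd⟩) with hc'
  have hsome : ∀ x, x ∉ S → c x = some (c' x) := by
    intro x hx
    rw [hS, mem_filter, not_and] at hx
    have h4 := hx (mem_univ _)
    obtain ⟨f, hf⟩ := Option.ne_none_iff_exists'.1 h4
    rw [hc']
    simp only [hf, Option.getD_some]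
  have hspread : ∀ (T : Finset (Vx d N)), ∀ i, ((T \ S).filter (fun x => ∃ a, c' x a = i)).card ≤
      Lam := by
    intro T i
    refine le_trans (card_le_card ?_) (hc.1 i)
    intro x hx
    obtain ⟨hx1, a, ha⟩ := mem_filter.1 hx
    exact mem_filter.2 ⟨mem_univ _, c' x, hsome x (mem_sdiff.1 hx1).2, a, ha⟩
  set E : ℕ → Finset (Vx d N × Vx d N) := fun j =>
    ((XJ d N q j \ S) ×ˢ (YJ d N q j \ S)).filter (fun p => ∀ a b, ¬ F.Adj (c' p.1 a) (c' p.2 b))
    with hE
  have hEc : ∀ j ∈ G, Z ^ 2 ≤ 32 * r * (E j).card := by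
    intro j hj
    rw [hG, mem_sdiff, mem_union, not_or] at hj
    have hjq := mem_range.1 hj.1
    have h4 : 2 * (XJ d N q j ∩ S).card ≤ Z := by
      by_contra hcon
      exact hj.2.1 (mem_filter.2 ⟨hj.1, not_le.1 hcon⟩)
    have h5 : 2 * (YJ d N q j ∩ S).card ≤ Z := by
      by_contra hcon
      exact hj.2.2 (mem_filter.2 ⟨hj.1, not_le.1 hcon⟩)
    have h6 := card_XJ (d := d) (N := N) hjq
    have h7 := card_YJ (d := d) (N := N) hjq
    have h8 : (XJ d N q j \ S).card + (XJ d N q j ∩ S).card = (XJ d N q j).card :=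
      card_sdiff_add_card_inter _ _
    have h9 : (YJ d N q j \ S).card + (YJ d N q j ∩ S).card = (YJ d N q j).card :=
      card_sdiff_add_card_inter _ _
    have h10 : Z ≤ 2 * (XJ d N q j \ S).card := by omega
    have h11 : Z ≤ 2 * (YJ d N q j \ S).card := by omega
    have h12 := bad_pairs hr hF (XJ d N q j \ S) (YJ d N q j \ S) c' (hspread _) (hspread _)
      (by omega) (by omega) (by omega)
    calc Z ^ 2 = Z * Z := sq Z
      _ ≤ (2 * (XJ d N q j \ S).card) * (2 * (YJ d N q j \ S).card) := Nat.mul_le_mul h10 h11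
      _ = 4 * ((XJ d N q j \ S).card * (YJ d N q j \ S).card) := by ring
      _ ≤ 4 * (8 * r * (E j).card) := Nat.mul_le_mul_left _ h12
      _ = 32 * r * (E j).card := by ring
  -- all unjoined pairs
  set W : Finset ((Fin d × Fin N) × (Fin d × Fin N)) := univ.filter (fun z =>
    z.1.2.val % q = z.2.1.val % q ∧ Unj F c (Sum.inl z.1) (Sum.inr z.2)) with hW
  have hEW : ∑ j ∈ range q, (E j).card ≤ W.card := by
    rw [← card_biUnion]
    · refine le_trans (card_le_card_of_injOn (t := W.image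
        (fun z => ((Sum.inl z.1, Sum.inr z.2) : Vx d N × Vx d N))) id ?_ (fun _ _ _ _ h => h))
        card_image_le
      rintro ⟨x, y⟩ hxy
      obtain ⟨j, -, hj⟩ := mem_biUnion.1 (mem_coe.1 hxy)
      obtain ⟨h4, h5⟩ := mem_filter.1 hj
      rw [mem_product, mem_sdiff, mem_sdiff] at h4
      obtain ⟨⟨hx, hxS⟩, hy, hyS⟩ := h4
      obtain ⟨z, hz, h6⟩ := (mem_filter.1 hx).2
      obtain ⟨z', hz', h7⟩ := (mem_filter.1 hy).2
      simp only at hz hz' hxS hyS h5
      subst hz; subst hz'
      rw [mem_coe, mem_image]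
      refine ⟨(z, z'), mem_filter.2 ⟨mem_univ _, h6.trans h7.symm, ?_⟩, rfl⟩
      exact ⟨_, _, hsome _ hxS, hsome _ hyS, h5⟩
    · intro i hi j hj hij
      rw [Function.onFun, Finset.disjoint_left]
      rintro ⟨x, y⟩ h4 h5
      have h6 := (mem_sdiff.1 (mem_product.1 (mem_filter.1 h4).1).1).1
      have h7 := (mem_sdiff.1 (mem_product.1 (mem_filter.1 h5).1).1).1
      exact Finset.disjoint_left.1 (hXd i (mem_range.1 hi) j (mem_range.1 hj) hij) h6 h7
  have hWs : W.card = ∑ p : Fin d × Fin d, ∑ u : Rw d N q p,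
      ((univ : Finset (Fin N)).filter
        (fun v => Unj F c (Sum.inl (p.1, u.1)) (Sum.inr (p.2, v)))).card := by
    have h4 : ∀ p : Fin d × Fin d, ∑ u : Rw d N q p, ((univ : Finset (Fin N)).filter
        (fun v => Unj F c (Sum.inl (p.1, u.1)) (Sum.inr (p.2, v)))).card =
        ∑ u : Fin N, if u.val % q = p.2.val % q then ((univ : Finset (Fin N)).filter
        (fun v => Unj F c (Sum.inl (p.1, u)) (Sum.inr (p.2, v)))).card else 0 := by
      intro p
      rw [← sum_filter]
      exact (Finset.sum_subtype (univ.filter (fun u : Fin N => u.val % q = p.2.val % q))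
        (fun u => by simp) (fun u => ((univ : Finset (Fin N)).filter
        (fun v => Unj F c (Sum.inl (p.1, u)) (Sum.inr (p.2, v)))).card)).symm
    rw [sum_congr rfl (fun p _ => h4 p), hW, card_filter, Fintype.sum_prod_type,
      Fintype.sum_prod_type, Fintype.sum_prod_type]
    apply sum_congr rfl
    intro a _
    simp only [Fintype.sum_prod_type]
    rw [sum_comm]
    apply sum_congr rfl
    intro b _
    apply sum_congr rfl
    intro u _
    by_cases h : u.val % q = b.val % q
    · simp only [h, true_and, if_true]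
      rw [card_filter]
    · simp [h]
  calc q * Z ^ 2 ≤ (2 * G.card) * Z ^ 2 := Nat.mul_le_mul_right _ hGc
    _ = 2 * ∑ _j ∈ G, Z ^ 2 := by rw [sum_const, smul_eq_mul]; ring
    _ ≤ 2 * ∑ j ∈ G, 32 * r * (E j).card := Nat.mul_le_mul_left _ (sum_le_sum hEc)
    _ ≤ 2 * ∑ j ∈ range q, 32 * r * (E j).card :=
        Nat.mul_le_mul_left _ (sum_le_sum_of_subset sdiff_subset)
    _ = 64 * r * ∑ j ∈ range q, (E j).card := by rw [← mul_sum]; ring
    _ ≤ 64 * r * W.card := Nat.mul_le_mul_left _ hEW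
    _ = _ := by rw [hWs]

/-- **the choice of the injections** -/
theorem choose_phi {d N q k r Lam M0 Z : ℕ} {F : SimpleGraph (Fin d)} (hF : Sparse F r k)
    (hr : 0 < r) (hd : 0 < d) (hN : 0 < N) (hZ1 : Z ≤ d * (N / q)) (hZ2 : Z ≤ (d / q) * N)
    (hZ3 : 16 * (r * (k * Lam)) ≤ Z) (hZ0 : 0 < Z) (hM : 4 * M0 ≤ q * Z)
    (hρ : 2 * (N / q + 1) ≤ N)
    (hnum : (((d ^ k + 1) ^ (d * N + d * N) : ℕ) : ℝ) *
      Real.exp ((d * d : ℕ) * (2 * ((N / q + 1 : ℕ) : ℝ) ^ 2 / N) -
        ((q * Z ^ 2 : ℕ) : ℝ) / (64 * r) / N) < 1) :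
    ∃ φ : Fam d N q, ∀ c : Vx d N → Option (Fin k → Fin d), ValidCode Lam M0 c →
      ∃ (p : Fin d × Fin d) (u : Rw d N q p), Unj F c (Sum.inl (p.1, u.1)) (Sum.inr (p.2, φ p u)) := by
  by_contra hcon
  push Not at hcon
  set θ := Real.exp ((d * d : ℕ) * (2 * ((N / q + 1 : ℕ) : ℝ) ^ 2 / N) -
        ((q * Z ^ 2 : ℕ) : ℝ) / (64 * r) / N) with hθ
  have hNR : (0 : ℝ) < N := by exact_mod_cast hN
  have hrR : (0 : ℝ) < r := by exact_mod_cast hr
  set Av : (Vx d N → Option (Fin k → Fin d)) → Finset (Fam d N q) := fun c =>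
    univ.filter (fun φ => ∀ p u, φ p u ∉ (univ : Finset (Fin N)).filter
        (fun v => Unj F c (Sum.inl (p.1, u.1)) (Sum.inr (p.2, v)))) with hAv
  have hAvc : ∀ c, ValidCode Lam M0 c → ((Av c).card : ℝ) ≤ θ * Fintype.card (Fam d N q) := by
    intro c hc
    refine (product (fun p => Rw d N q p) hN (fun p => ?_) (fun p u =>
      (univ : Finset (Fin N)).filter
        (fun v => Unj F c (Sum.inl (p.1, u.1)) (Sum.inr (p.2, v))))).trans ?_
    · have := card_Rw d N q p
      omega
    · apply mul_le_mul_of_nonneg_right _ (by positivity)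
      apply Real.exp_le_exp.2
      rw [sum_sub_distrib]
      apply sub_le_sub
      · calc ∑ p : Fin d × Fin d, 2 * (Fintype.card (Rw d N q p) : ℝ) ^ 2 / N
            ≤ ∑ _p : Fin d × Fin d, 2 * ((N / q + 1 : ℕ) : ℝ) ^ 2 / N := by
              apply sum_le_sum
              intro p _
              have h1 : (Fintype.card (Rw d N q p) : ℝ) ≤ ((N / q + 1 : ℕ) : ℝ) := by
                exact_mod_cast card_Rw d N q p
              gcongr
          _ = _ := by
              rw [sum_const, card_univ, Fintype.card_prod, Fintype.card_fin, nsmul_eq_mul]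
      · rw [← sum_div]
        apply div_le_div_of_nonneg_right _ hNR.le
        rw [div_le_iff₀ (by positivity)]
        have h1 := many_unjoined hF hr hd hZ1 hZ2 hZ3 hZ0 hM c hc
        have h2 : ((q * Z ^ 2 : ℕ) : ℝ) ≤ ((64 * r * ∑ p : Fin d × Fin d, ∑ u : Rw d N q p,
          ((univ : Finset (Fin N)).filter
            (fun v => Unj F c (Sum.inl (p.1, u.1)) (Sum.inr (p.2, v)))).card : ℕ) : ℝ) := by
          exact_mod_cast h1
        refine h2.trans (le_of_eq ?_)
        push_cast
        ring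
  -- the union
  have hcover : (univ : Finset (Fam d N q)) ⊆
      ((univ : Finset (Vx d N → Option (Fin k → Fin d))).filter (ValidCode Lam M0)).biUnion Av := by
    intro φ _
    obtain ⟨c, hc, hc2⟩ := hcon φ
    refine mem_biUnion.2 ⟨c, mem_filter.2 ⟨mem_univ _, hc⟩, ?_⟩
    rw [hAv, mem_filter]
    refine ⟨mem_univ _, fun p u h => ?_⟩
    exact hc2 p u (mem_filter.1 h).2
  have hpos : 0 < Fintype.card (Fam d N q) := by
    have : Nonempty (Fam d N q) := by
      refine ⟨fun p => ⟨fun u => u.1, Subtype.val_injective⟩⟩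
    exact Fintype.card_pos
  have hposR : (0 : ℝ) < Fintype.card (Fam d N q) := by exact_mod_cast hpos
  have h1 : (Fintype.card (Fam d N q) : ℝ) ≤
      (((d ^ k + 1) ^ (d * N + d * N) : ℕ) : ℝ) * (θ * Fintype.card (Fam d N q)) := by
    have h2 := (card_le_card hcover).trans card_biUnion_le
    rw [card_univ] at h2
    have h3 : (Fintype.card (Fam d N q) : ℝ) ≤ ∑ c ∈ (univ : Finset (Vx d N →
        Option (Fin k → Fin d))).filter (ValidCode Lam M0), ((Av c).card : ℝ) := by
      exact_mod_cast h2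
    refine h3.trans ((sum_le_sum (fun c hc => hAvc c (mem_filter.1 hc).2)).trans ?_)
    rw [sum_const, nsmul_eq_mul]
    apply mul_le_mul_of_nonneg_right _ (by positivity)
    have h4 : ((univ : Finset (Vx d N → Option (Fin k → Fin d))).filter (ValidCode Lam M0)).card ≤
        (d ^ k + 1) ^ (d * N + d * N) := by
      refine (card_le_univ _).trans (le_of_eq ?_)
      simp [Fintype.card_sum]
    exact_mod_cast h4
  have h2 : (((d ^ k + 1) ^ (d * N + d * N) : ℕ) : ℝ) * (θ * Fintype.card (Fam d N q)) <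
      1 * Fintype.card (Fam d N q) := by
    rw [← mul_assoc]
    exact mul_lt_mul_of_pos_right hnum hposR
  linarith

end Pool.Agent.KS6_25.MF
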