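import Mathlib
import Pool.Graph.R_seed8.R34.FH.Lower2
import Pool.Agent.KS6_25.MF.Phi

/-!
A regular bipartite graph which is not a minor of the blow-up of the seed graph.
-/

set_option autoImplicit false
set_option linter.unusedSectionVars false

namespace Pool.Agent.KS6_25.MF

open SimpleGraph Finset Classical
open Pool.Agent.TH507.Host Pool.Agent.R34.Ident Pool.Agent.R34.FH Pool.Agent.W126.Split

/-- the bipartite graph of a family of permutations -/
def bipGraph {d N : ℕ} (σ : Fin d × Fin d → Equiv.Perm (Fin N)) : SimpleGraph (Vx d N) where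
  Adj x y := match x, y with
    | Sum.inl z, Sum.inr z' => σ (z.1, z'.1) z.2 = z'.2
    | Sum.inr z', Sum.inl z => σ (z.1, z'.1) z.2 = z'.2
    | Sum.inl _, Sum.inl _ => False
    | Sum.inr _, Sum.inr _ => False
  symm := ⟨by
    rintro (a | a) (b | b) h
    · exact h
    · exact h
    · exact h
    · exact h⟩
  loopless := ⟨by
    rintro (a | a) h
    · exact h
    · exact h⟩

lemma ncard_bip {d N : ℕ} (σ : Fin d × Fin d → Equiv.Perm (Fin N)) (x : Vx d N) :
    ((bipGraph σ).neighborSet x).ncard = d := by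
  rcases x with z | z
  · have h1 : (bipGraph σ).neighborSet (Sum.inl z) =
        Set.range (fun b : Fin d => (Sum.inr (b, σ (z.1, b) z.2) : Vx d N)) := by
      ext y
      rw [mem_neighborSet, Set.mem_range]
      rcases y with y | y
      · constructor
        · intro h; exact h.elim
        · rintro ⟨b, hb⟩
          exact (Sum.inr_ne_inl hb).elim
      · constructor
        · intro h
          refine ⟨y.1, ?_⟩
          have h2 : σ (z.1, y.1) z.2 = y.2 := h
          rw [h2]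
        · rintro ⟨b, hb⟩
          have h2 := Sum.inr.inj hb
          show σ (z.1, y.1) z.2 = y.2
          rw [← h2]
    rw [h1, ← Set.image_univ, Set.ncard_image_of_injective, Set.ncard_univ, Nat.card_fin]
    intro b b' hbb
    exact (Prod.mk.inj (Sum.inr.inj hbb)).1
  · have h1 : (bipGraph σ).neighborSet (Sum.inr z) =
        Set.range (fun a : Fin d => (Sum.inl (a, (σ (a, z.1)).symm z.2) : Vx d N)) := by
      ext y
      rw [mem_neighborSet, Set.mem_range]
      rcases y with y | y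
      · constructor
        · intro h
          refine ⟨y.1, ?_⟩
          have h2 : σ (y.1, z.1) y.2 = z.2 := h
          rw [← h2, Equiv.symm_apply_apply]
        · rintro ⟨b, hb⟩
          have h2 := Sum.inl.inj hb
          show σ (y.1, z.1) y.2 = z.2
          rw [← h2, Equiv.apply_symm_apply]
      · constructor
        · intro h; exact h.elim
        · rintro ⟨b, hb⟩
          exact (Sum.inl_ne_inr hb).elim
    rw [h1, ← Set.image_univ, Set.ncard_image_of_injective, Set.ncard_univ, Nat.card_fin]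
    intro b b' hbb
    exact (Prod.mk.inj (Sum.inl.inj hbb)).1

/-- the permutations which extend the injections -/
lemma exists_perm {d N q : ℕ} (φ : Fam d N q) :
    ∃ σ : Fin d × Fin d → Equiv.Perm (Fin N), ∀ p (u : Rw d N q p), σ p u.1 = φ p u := by
  have h : ∀ p : Fin d × Fin d, ∃ s : Equiv.Perm (Fin N), ∀ u : Rw d N q p, s u.1 = φ p u := by
    intro p
    let e : {u : Fin N // u.val % q = p.2.val % q} ≃ {x // x ∈ Set.range (φ p)} :=
      Equiv.ofInjective (φ p) (φ p).injective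
    refine ⟨e.extendSubtype, fun u => ?_⟩
    rw [Equiv.extendSubtype_apply_of_mem e u.1 u.2]
    rfl
  choose σ hσ using h
  exact ⟨σ, hσ⟩

/-- a code of a small nonempty set -/
lemma exists_code {α : Type} [DecidableEq α] {k : ℕ} (S : Finset α) (hS : S.Nonempty)
    (hk : S.card ≤ k) : ∃ f : Fin k → α, (∀ a, f a ∈ S) ∧ ∀ x ∈ S, ∃ a, f a = x := by
  obtain ⟨x₀, hx₀⟩ := hS
  have e := S.equivFin
  refine ⟨fun a => if h : a.val < S.card then (S.equivFin.symm ⟨a.val, h⟩).1 else x₀, ?_, ?_⟩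
  · intro a
    simp only
    split_ifs with h
    · exact (S.equivFin.symm ⟨a.val, h⟩).2
    · exact hx₀
  · intro x hx
    refine ⟨⟨(S.equivFin ⟨x, hx⟩).val, lt_of_lt_of_le (S.equivFin ⟨x, hx⟩).2 hk⟩, ?_⟩
    simp only [Fin.is_lt, dite_true, Fin.eta, Equiv.symm_apply_apply]

/-- the code of a minor model in a blow-up is valid -/
lemma valid_of_model {α : Type} [Fintype α] {m k Lam : ℕ} (hL : 0 < Lam)
    (B : α → Finset (Fin m × Fin Lam)) (hne : ∀ x, (B x).Nonempty)
    (hd : ∀ x y, x ≠ y → Disjoint (B x) (B y)) :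
    ∃ c : α → Option (Fin k → Fin m), ValidCode Lam (m * Lam / (k + 1)) c ∧
      ∀ x f, c x = some f → ∀ z ∈ B x, ∃ a, f a = z.1 := by
  have h : ∀ x, ∃ o : Option (Fin k → Fin m), (∀ f, o = some f → (∀ a, ∃ z ∈ B x, z.1 = f a) ∧
      ∀ z ∈ B x, ∃ a, f a = z.1) ∧ (o = none → k + 1 ≤ (B x).card) := by
    intro x
    by_cases hx : (B x).card ≤ k
    · obtain ⟨f, h1, h2⟩ := exists_code ((B x).image Prod.fst) ((hne x).image _)
        (card_image_le.trans hx)
      refine ⟨some f, ?_, fun h => by simp at h⟩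
      intro g hg
      rw [Option.some.injEq] at hg
      subst hg
      refine ⟨fun a => ?_, fun z hz => h2 _ (mem_image_of_mem _ hz)⟩
      obtain ⟨z, hz, hz2⟩ := mem_image.1 (h1 a)
      exact ⟨z, hz, hz2⟩
    · exact ⟨none, fun f h => by simp at h, fun _ => by omega⟩
  choose c hc1 hc2 using h
  refine ⟨c, ⟨?_, ?_⟩, fun x f hf => (hc1 x f hf).2⟩
  · intro i
    have h1 : ∀ x ∈ (univ : Finset α).filter (fun x => ∃ f, c x = some f ∧ ∃ a, f a = i),
        ∃ l : Fin Lam, (i, l) ∈ B x := by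
      intro x hx
      obtain ⟨f, hf, a, ha⟩ := (mem_filter.1 hx).2
      obtain ⟨z, hz, hz2⟩ := (hc1 x f hf).1 a
      refine ⟨z.2, ?_⟩
      have : z = (i, z.2) := Prod.ext (hz2.trans ha) rfl
      rwa [← this]
    have hnl : Nonempty (Fin Lam) := ⟨⟨0, hL⟩⟩
    choose! l hl using h1
    have h2 : ((univ : Finset α).filter (fun x => ∃ f, c x = some f ∧ ∃ a, f a = i)).card ≤
        (univ : Finset (Fin Lam)).card := by
      refine card_le_card_of_injOn l (fun _ _ => mem_coe.2 (mem_univ _)) ?_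
      intro x hx y hy hxy
      by_contra hne'
      have h3 := hl x (mem_coe.1 hx)
      have h4 := hl y (mem_coe.1 hy)
      rw [hxy] at h3
      exact Finset.disjoint_left.1 (hd x y hne') h3 h4
    rwa [card_univ, Fintype.card_fin] at h2
  · rw [Nat.le_div_iff_mul_le (Nat.succ_pos k)]
    calc ((univ : Finset α).filter (fun x => c x = none)).card * (k + 1)
        = ∑ _x ∈ (univ : Finset α).filter (fun x => c x = none), (k + 1) := by
          rw [sum_const, smul_eq_mul]
      _ ≤ ∑ x ∈ (univ : Finset α).filter (fun x => c x = none), (B x).card :=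
          sum_le_sum (fun x hx => hc2 x (mem_filter.1 hx).2)
      _ ≤ ∑ x, (B x).card := sum_le_sum_of_subset (filter_subset _ _)
      _ = ((univ : Finset α).biUnion B).card := by
          rw [card_biUnion (fun x _ y _ hxy => hd x y hxy)]
      _ ≤ m * Lam := by
          refine (card_le_univ _).trans (le_of_eq ?_)
          rw [Fintype.card_prod, Fintype.card_fin, Fintype.card_fin]

/-- **the graph is not a minor** -/
theorem not_minor {d N q k r Lam Z : ℕ} {F : SimpleGraph (Fin d)} (hF : Sparse F r k)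
    (hr : 0 < r) (hd : 0 < d) (hN : 0 < N) (hL : 0 < Lam) (hZ1 : Z ≤ d * (N / q)) (hZ2 : Z ≤ (d / q) * N)
    (hZ3 : 16 * (r * (k * Lam)) ≤ Z) (hZ0 : 0 < Z) (hM : 4 * (d * Lam / (k + 1)) ≤ q * Z)
    (hρ : 2 * (N / q + 1) ≤ N)
    (hnum : (((d ^ k + 1) ^ (d * N + d * N) : ℕ) : ℝ) *
      Real.exp ((d * d : ℕ) * (2 * ((N / q + 1 : ℕ) : ℝ) ^ 2 / N) -
        ((q * Z ^ 2 : ℕ) : ℝ) / (64 * r) / N) < 1) :
    ∃ H : SimpleGraph (Vx d N), (∀ x, (H.neighborSet x).ncard = d) ∧
      ¬ IsMinor H (F.comap (Prod.fst : Fin d × Fin Lam → Fin d)) := by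
  obtain ⟨φ, hφ⟩ := choose_phi hF hr hd hN hZ1 hZ2 hZ3 hZ0 hM hρ hnum
  obtain ⟨σ, hσ⟩ := exists_perm φ
  refine ⟨bipGraph σ, ncard_bip σ, ?_⟩
  intro hminor
  obtain ⟨B, hne, -, hdisj, hadj⟩ := Pool.Agent.R34.model_of hminor
  obtain ⟨c, hc, hc2⟩ := valid_of_model (k := k) hL B hne hdisj
  obtain ⟨p, u, f, g, hf, hg, hfg⟩ := hφ c hc
  have h1 : (bipGraph σ).Adj (Sum.inl (p.1, u.1)) (Sum.inr (p.2, φ p u)) := by
    show σ (p.1, p.2) u.1 = φ p u
    exact hσ p u
  obtain ⟨z, hz, z', hz', hzz⟩ := hadj _ _ h1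
  obtain ⟨a, ha⟩ := hc2 _ f hf z hz
  obtain ⟨b, hb⟩ := hc2 _ g hg z' hz'
  have h2 := hfg a b
  rw [ha, hb] at h2
  exact h2 hzz

lemma pr_blow {d Lam : ℕ} (F : SimpleGraph (Fin d)) :
    pr (F.comap (Prod.fst : Fin d × Fin Lam → Fin d)) = pr F * Lam ^ 2 := by
  rw [pr_eq, Fintype.sum_prod_type, pr_eq, sum_mul]
  apply sum_congr rfl
  intro v _
  have h1 : ∀ l : Fin Lam, (nb (F.comap (Prod.fst : Fin d × Fin Lam → Fin d)) (v, l)).card =
      (nb F v).card * Lam := by
    intro l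
    have h2 : nb (F.comap (Prod.fst : Fin d × Fin Lam → Fin d)) (v, l) =
        (nb F v) ×ˢ (univ : Finset (Fin Lam)) := by
      ext y
      rw [mem_nb, mem_product, mem_nb, comap_adj]
      exact ⟨fun h => ⟨h, mem_univ _⟩, fun h => h.1⟩
    rw [h2, card_product, card_univ, Fintype.card_fin]
  rw [sum_congr rfl (fun l _ => h1 l), sum_const, card_univ, Fintype.card_fin, smul_eq_mul]
  ring

/-- from `Vx d N` to `Fin (2 * d * N)` -/
lemma transfer {d N : ℕ} (H : SimpleGraph (Vx d N)) (hH1 : ∀ x, (H.neighborSet x).ncard = d) :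
    ∃ e : Vx d N ≃ Fin (2 * d * N), Regular (H.comap e.symm) d ∧
      IsMinor H (H.comap e.symm) := by
  have hcard : Fintype.card (Vx d N) = 2 * d * N := by
    simp [Fintype.card_sum]
    ring
  let e : Vx d N ≃ Fin (2 * d * N) := Fintype.equivFinOfCardEq hcard
  refine ⟨e, ?_, ?_⟩
  · intro x
    refine Eq.trans ?_ (hH1 (e.symm x))
    have h1 : (H.comap e.symm).neighborSet x = e '' (H.neighborSet (e.symm x)) := by
      ext y
      rw [mem_neighborSet, comap_adj, Set.mem_image]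
      constructor
      · intro h
        exact ⟨e.symm y, h, Equiv.apply_symm_apply e y⟩
      · rintro ⟨z, hz, rfl⟩
        rw [Equiv.symm_apply_apply]
        exact hz
    rw [h1, Set.ncard_image_of_injective _ e.injective]
  · apply minor_sub e e.injective
    intro u v huv
    rw [comap_adj, Equiv.symm_apply_apply, Equiv.symm_apply_apply]
    exact huv

/-- **a regular graph with a large threshold** -/
theorem rand_reg {d N q k r Lam Z : ℕ} (hr : 0 < r) (hd : 0 < d) (hN : 0 < N) (hL : 0 < Lam)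
    (hZ1 : Z ≤ d * (N / q)) (hZ2 : Z ≤ (d / q) * N)
    (hZ3 : 16 * (r * (k * Lam)) ≤ Z) (hZ0 : 0 < Z) (hM : 4 * (d * Lam / (k + 1)) ≤ q * Z)
    (hρ : 2 * (N / q + 1) ≤ N)
    (hseed : ((d : ℝ) ^ (k * r) * (d : ℝ) ^ (k * r)) * (1 - (1 / 2) ^ (k * k)) ^ (r * r) < 1 / 2)
    (hnum : (((d ^ k + 1) ^ (d * N + d * N) : ℕ) : ℝ) *
      Real.exp ((d * d : ℕ) * (2 * ((N / q + 1 : ℕ) : ℝ) ^ 2 / N) -
        ((q * Z ^ 2 : ℕ) : ℝ) / (64 * r) / N) < 1) :
    ∃ H₀ : SimpleGraph (Fin (2 * d * N)), Regular H₀ d ∧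
      ∀ c : ℝ, Forces H₀ c → ((d : ℝ) - 1) * Lam / 2 ≤ c := by
  obtain ⟨F, hFd, hF⟩ := seed hseed
  obtain ⟨H, hH1, hH2⟩ := not_minor hF hr hd hN hL hZ1 hZ2 hZ3 hZ0 hM hρ hnum
  obtain ⟨e, he1, he2⟩ := transfer H hH1
  refine ⟨H.comap e.symm, he1, ?_⟩
  intro c hc
  by_contra hcon
  push Not at hcon
  apply hH2
  have hne : Nonempty (Fin d × Fin Lam) := ⟨(⟨0, hd⟩, ⟨0, hL⟩)⟩
  refine minor_trans he2 (hc (Fin d × Fin Lam)
    (F.comap (Prod.fst : Fin d × Fin Lam → Fin d)) ?_)
  refine hcon.le.trans ?_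
  rw [avgDeg_eq, pr_blow, Fintype.card_prod, Fintype.card_fin, Fintype.card_fin]
  have hdR : (0 : ℝ) < d := by exact_mod_cast hd
  have hLR : (0 : ℝ) < Lam := by exact_mod_cast hL
  push_cast
  rw [le_div_iff₀ (by positivity)]
  have h3 : ((d * (d - 1) : ℕ) : ℝ) ≤ ((2 * pr F : ℕ) : ℝ) := by exact_mod_cast hFd
  rw [Nat.cast_mul, Nat.cast_sub (by omega)] at h3
  push_cast at h3
  have h4 : (d : ℝ) * (d - 1) * (Lam : ℝ) ^ 2 ≤ 2 * pr F * (Lam : ℝ) ^ 2 :=
    mul_le_mul_of_nonneg_right h3 (by positivity)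
  nlinarith

end Pool.Agent.KS6_25.MF
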