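import Mathlib
import Pool.Agent.KS6_25.MF.RandReg
import Pool.Agent.KS6_25.MF.LowerAll

/-!
The choice of the parameters, and regular graphs with threshold of order `t √(log d)`.
-/

set_option autoImplicit false
set_option linter.unusedSectionVars false

namespace Pool.Agent.KS6_25.MF

open SimpleGraph Finset Classical
open Pool.Agent.TH507.Host Pool.Agent.R34.Ident Pool.Agent.R34.FH Pool.Agent.W126.Split

/-- the 64-th root of `d` -/
lemma root_facts {d : ℕ} (hd : 0 < d) (hL : (2 : ℝ) ^ 22 ≤ Real.log d) :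
    ∃ y : ℝ, y = Real.exp (Real.log d / 64) ∧ y ^ 64 = d ∧ (Real.log d) ^ 2 ≤ y ∧
      (2 : ℝ) ^ 40 ≤ y := by
  have hdR : (0 : ℝ) < d := by exact_mod_cast hd
  refine ⟨_, rfl, ?_, ?_, ?_⟩
  · rw [← Real.exp_nat_mul]
    push_cast
    rw [show (64 : ℝ) * (Real.log d / 64) = Real.log d by ring, Real.exp_log hdR]
  all_goals
    set L := Real.log d with hLdef
    have hz : (2 : ℝ) ^ 16 ≤ L / 64 := by
      rw [le_div_iff₀ (by norm_num)]
      norm_num at hL ⊢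
      linarith
    have h1 := Real.pow_div_factorial_le_exp (L / 64) (by linarith) 3
    have h2 : L ^ 2 ≤ (L / 64) ^ 3 / (Nat.factorial 3 : ℕ) := by
      rw [show (Nat.factorial 3 : ℕ) = 6 by rfl]
      push_cast
      rw [le_div_iff₀ (by norm_num)]
      have h3 : (2 : ℝ) ^ 16 * (L / 64) ^ 2 ≤ (L / 64) * (L / 64) ^ 2 :=
        mul_le_mul_of_nonneg_right hz (by positivity)
      have h4 : 0 ≤ L ^ 2 := sq_nonneg L
      have h5 : (L / 64) ^ 3 = (L / 64) * (L / 64) ^ 2 := by ring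
      have h6 : (2 : ℝ) ^ 16 * (L / 64) ^ 2 = 16 * L ^ 2 := by ring
      linarith
  · exact h2.trans h1
  · have h5 : ((2 : ℝ) ^ 22) ^ 2 ≤ L ^ 2 := pow_le_pow_left₀ (by norm_num) hL 2
    have h6 : (2 : ℝ) ^ 40 ≤ ((2 : ℝ) ^ 22) ^ 2 := by norm_num
    linarith [h2.trans h1]

/-- the seed condition -/
lemma seed_cond {d k r : ℕ} (hd : 0 < d)
    (h : (2 * k * r : ℝ) * Real.log d + 1 < (r : ℝ) ^ 2 * (1 / 2) ^ (k * k)) :
    ((d : ℝ) ^ (k * r) * (d : ℝ) ^ (k * r)) * (1 - (1 / 2) ^ (k * k)) ^ (r * r) < 1 / 2 := by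
  have h1 := num_cond (h := d - 1) (n := 2 * (k * r)) (q := k * k) (M := r * r) (by
    rw [Nat.sub_add_cancel hd]
    push_cast
    calc (2 : ℝ) * (k * r) * Real.log d + 1 = (2 * k * r : ℝ) * Real.log d + 1 := by ring
      _ < (r : ℝ) ^ 2 * (1 / 2) ^ (k * k) := h
      _ = _ := by ring)
  rw [Nat.sub_add_cancel hd] at h1
  calc _ = (d : ℝ) ^ (2 * (k * r)) * (1 - (1 / 2) ^ (k * k)) ^ (r * r) := by
        rw [← pow_add]
        congr 2
        ring
    _ < 1 / 2 := h1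

/-- the union bound condition -/
lemma union_cond {d N q k r Z : ℕ} (hd : 2 ≤ d) (hN : 0 < N) (hr : 0 < r) (hq : q = 2 ^ 14 * r)
    (hqN : q ≤ N) (hZ : d * N ≤ 4 * q * Z)
    (h : (2 : ℝ) ^ 26 * (r : ℝ) ^ 2 * (k + 1) * Real.log d < d) :
    (((d ^ k + 1) ^ (d * N + d * N) : ℕ) : ℝ) *
      Real.exp ((d * d : ℕ) * (2 * ((N / q + 1 : ℕ) : ℝ) ^ 2 / N) -
        ((q * Z ^ 2 : ℕ) : ℝ) / (64 * r) / N) < 1 := by
  have hdR : (0 : ℝ) < d := by
    have : 0 < d := by omega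
    exact_mod_cast this
  have hNR : (0 : ℝ) < N := by exact_mod_cast hN
  have hrR : (0 : ℝ) < r := by exact_mod_cast hr
  have hqR : (q : ℝ) = 2 ^ 14 * r := by rw [hq]; push_cast; ring
  have hqR0 : (0 : ℝ) < q := by rw [hqR]; positivity
  set L := Real.log d with hL
  have h1 : (((d ^ k + 1) ^ (d * N + d * N) : ℕ) : ℝ) ≤
      Real.exp ((2 * (d * N) : ℝ) * ((k + 1) * L)) := by
    have e1 : d ^ k + 1 ≤ d ^ (k + 1) := by
      have e2 : 1 ≤ d ^ k := Nat.one_le_pow _ _ (by omega)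
      calc d ^ k + 1 ≤ d ^ k * 2 := by omega
        _ ≤ d ^ k * d := Nat.mul_le_mul_left _ hd
        _ = d ^ (k + 1) := by ring
    have e3 : ((d ^ k + 1) ^ (d * N + d * N) : ℕ) ≤ (d ^ (k + 1)) ^ (d * N + d * N) :=
      Nat.pow_le_pow_left e1 _
    have e4 : (((d ^ k + 1) ^ (d * N + d * N) : ℕ) : ℝ) ≤
        (((d ^ (k + 1)) ^ (d * N + d * N) : ℕ) : ℝ) := by exact_mod_cast e3
    refine e4.trans (le_of_eq ?_)
    push_cast
    rw [← pow_mul]
    rw [show (2 * (d * N) : ℝ) * ((k + 1) * L) = (((k + 1) * (d * N + d * N) : ℕ) : ℝ) * L by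
      push_cast; ring, Real.exp_nat_mul, hL, Real.exp_log hdR]
  have h2 : ((N / q + 1 : ℕ) : ℝ) ≤ 2 * N / q := by
    push_cast
    have e1 : ((N / q : ℕ) : ℝ) ≤ N / q := Nat.cast_div_le
    have e2 : (1 : ℝ) ≤ N / q := by
      rw [le_div_iff₀ hqR0]
      have : (q : ℝ) ≤ N := by exact_mod_cast hqN
      linarith
    calc ((N / q : ℕ) : ℝ) + 1 ≤ N / q + N / q := add_le_add e1 e2
      _ = _ := by ring
  have h3 : ((d * d : ℕ) : ℝ) * (2 * ((N / q + 1 : ℕ) : ℝ) ^ 2 / N) ≤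
      (d : ℝ) ^ 2 * N / (2 ^ 25 * (r : ℝ) ^ 2) := by
    have e1 : ((N / q + 1 : ℕ) : ℝ) ^ 2 ≤ (2 * N / q) ^ 2 := pow_le_pow_left₀ (by positivity) h2 2
    calc ((d * d : ℕ) : ℝ) * (2 * ((N / q + 1 : ℕ) : ℝ) ^ 2 / N)
        ≤ ((d * d : ℕ) : ℝ) * (2 * (2 * N / q) ^ 2 / N) := by gcongr
      _ = (d : ℝ) ^ 2 * N / (2 ^ 25 * (r : ℝ) ^ 2) := by
          rw [hqR]
          push_cast
          field_simp
  have h4 : (d : ℝ) ^ 2 * N / (2 ^ 24 * (r : ℝ) ^ 2) ≤ ((q * Z ^ 2 : ℕ) : ℝ) / (64 * r) / N := by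
    have e1 : (d : ℝ) * N ≤ 4 * q * Z := by exact_mod_cast hZ
    have e2 : ((d : ℝ) * N) ^ 2 ≤ (4 * q * Z) ^ 2 := pow_le_pow_left₀ (by positivity) e1 2
    rw [div_div, div_le_div_iff₀ (by positivity) (by positivity)]
    push_cast
    have e3 : ((d : ℝ) * N) ^ 2 * (64 * r) ≤ (4 * q * Z) ^ 2 * (64 * r) :=
      mul_le_mul_of_nonneg_right e2 (by positivity)
    have e4 : (q : ℝ) ^ 2 = q * (2 ^ 14 * r) := by
      rw [sq]
      congr 1
    calc (d : ℝ) ^ 2 * N * ((64 : ℝ) * r * N) = ((d : ℝ) * N) ^ 2 * (64 * r) := by ring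
      _ ≤ ((4 : ℝ) * q * Z) ^ 2 * (64 * r) := e3
      _ = ((q : ℝ) ^ 2) * (16 * Z ^ 2 * (64 * r)) := by ring
      _ = _ := by rw [e4]; ring
  have h5 : (2 * (d * N) : ℝ) * ((k + 1) * L) < (d : ℝ) ^ 2 * N / (2 ^ 25 * (r : ℝ) ^ 2) := by
    rw [lt_div_iff₀ (by positivity)]
    calc (2 * (d * N) : ℝ) * ((k + 1) * L) * (2 ^ 25 * (r : ℝ) ^ 2)
        = ((2 : ℝ) ^ 26 * (r : ℝ) ^ 2 * (k + 1) * L) * ((d : ℝ) * N) := by ring
      _ < (d : ℝ) * ((d : ℝ) * N) := by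
          apply mul_lt_mul_of_pos_right h
          positivity
      _ = _ := by ring
  have h6 : (d : ℝ) ^ 2 * N / (2 ^ 24 * (r : ℝ) ^ 2) = 2 * ((d : ℝ) ^ 2 * N / (2 ^ 25 * (r : ℝ) ^ 2)) := by
    field_simp
  calc _ ≤ Real.exp ((2 * (d * N) : ℝ) * ((k + 1) * L)) *
        Real.exp ((d : ℝ) ^ 2 * N / (2 ^ 25 * (r : ℝ) ^ 2) - (d : ℝ) ^ 2 * N / (2 ^ 24 * (r : ℝ) ^ 2)) := by
        apply mul_le_mul h1 _ (by positivity) (by positivity)
        exact Real.exp_le_exp.2 (sub_le_sub h3 h4)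
    _ = Real.exp ((2 * (d * N) : ℝ) * ((k + 1) * L) + ((d : ℝ) ^ 2 * N / (2 ^ 25 * (r : ℝ) ^ 2) -
          (d : ℝ) ^ 2 * N / (2 ^ 24 * (r : ℝ) ^ 2))) := by rw [← Real.exp_add]
    _ < 1 := by
        rw [Real.exp_lt_one_iff]
        rw [h6]
        linarith

/-- **regular graphs with threshold of order `t √(log d)`, for large `d` and `N`** -/
theorem rand_large {d N : ℕ} (hd : 2 ≤ d) (hL : (2 : ℝ) ^ 22 ≤ Real.log d)
    (hN : (d : ℝ) ≤ 48 * N) :
    ∃ H₀ : SimpleGraph (Fin (2 * d * N)), Regular H₀ d ∧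
      ∀ c : ℝ, Forces H₀ c → 1 / 4096 * (((2 * d * N : ℕ) : ℝ) * √(Real.log d)) ≤ c := by
  obtain ⟨y, hy, hyd, hLy, hy40⟩ := root_facts (by omega) hL
  set L := Real.log d with hLdef
  have hdR : (2 : ℝ) ≤ d := by exact_mod_cast hd
  have hL1 : (1 : ℝ) ≤ L := le_trans (by norm_num) hL
  have hy1 : (1 : ℝ) ≤ y := le_trans (by norm_num) hy40
  have hy0 : (0 : ℝ) < y := by linarith
  set a := √L with ha
  have ha2 : a ^ 2 = L := Real.sq_sqrt (by linarith)
  have ha11 : (2 : ℝ) ^ 11 ≤ a := by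
    apply Real.le_sqrt_of_sq_le
    norm_num at hL ⊢
    linarith
  have ha1 : (1 : ℝ) ≤ a := le_trans (by norm_num) ha11
  have haL : a ≤ L := by nlinarith
  set k := ⌊a / 8⌋₊ with hk
  have hk1 : (k : ℝ) ≤ a / 8 := Nat.floor_le (by positivity)
  have hk2 : a / 8 < k + 1 := Nat.lt_floor_add_one _
  have hk16 : a / 16 ≤ k := by
    norm_num at ha11
    linarith
  have hk30 : 30 ≤ k := by
    have : (30 : ℝ) ≤ k := by
      norm_num at ha11
      linarith
    exact_mod_cast this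
  have hkL : (k : ℝ) + 1 ≤ L := by
    norm_num at ha11
    linarith
  have hkk : (k : ℝ) ^ 2 ≤ L / 64 := by
    have := pow_le_pow_left₀ (by positivity) hk1 2
    calc (k : ℝ) ^ 2 ≤ (a / 8) ^ 2 := this
      _ = a ^ 2 / 64 := by ring
      _ = _ := by rw [ha2]
  have hLy1 : L ≤ y := by nlinarith
  have hL2 : L * L ≤ y := by rw [← sq]; exact hLy
  set r := ⌈y ^ 2⌉₊ with hr
  have hr1 : y ^ 2 ≤ r := Nat.le_ceil _
  have hr2 : (r : ℝ) < y ^ 2 + 1 := Nat.ceil_lt_add_one (by positivity)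
  have hy2 : 1 ≤ y ^ 2 := one_le_pow₀ hy1
  have hr3 : (r : ℝ) ≤ 2 * y ^ 2 := by linarith
  have hr0 : 0 < r := by
    have : (0 : ℝ) < r := by linarith
    exact_mod_cast this
  have hrR : (1 : ℝ) ≤ r := by linarith
  have hrr : (r : ℝ) ^ 2 ≤ 4 * y ^ 4 := by
    have := pow_le_pow_left₀ (by positivity) hr3 2
    calc (r : ℝ) ^ 2 ≤ (2 * y ^ 2) ^ 2 := this
      _ = _ := by ring
  set q := 2 ^ 14 * r with hq
  have hqR : (q : ℝ) = 2 ^ 14 * r := by rw [hq]; push_cast; ring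
  -- powers of `y`
  have hy64 : ∀ j : ℕ, j ≤ 63 → (2 : ℝ) ^ 40 * y ^ j ≤ d := by
    intro j hj
    rw [← hyd]
    calc (2 : ℝ) ^ 40 * y ^ j ≤ y * y ^ j := by
          apply mul_le_mul_of_nonneg_right hy40 (by positivity)
      _ = y ^ (j + 1) := by ring
      _ ≤ y ^ 64 := pow_le_pow_right₀ hy1 (by omega)
  have hy2d := hy64 2 (by norm_num)
  have hy5d := hy64 5 (by norm_num)
  -- the seed
  have hseed : ((2 : ℝ) * k * r : ℝ) * L + 1 < (r : ℝ) ^ 2 * (1 / 2) ^ (k * k) := by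
    have e1 : 1 / y ≤ (1 / 2 : ℝ) ^ (k * k) := by
      have e2 : ((1 : ℝ) / 2) ^ (k * k) = Real.exp (-(((k * k : ℕ) : ℝ) * Real.log 2)) := by
        rw [one_div, inv_pow, Real.exp_neg, Real.exp_nat_mul, Real.exp_log (by norm_num)]
      rw [e2, hy, one_div, ← Real.exp_neg]
      apply Real.exp_le_exp.2
      have e3 : Real.log 2 ≤ 1 := by
        have := Real.log_two_lt_d9
        linarith
      have e4 : ((k * k : ℕ) : ℝ) * Real.log 2 ≤ ((k * k : ℕ) : ℝ) * 1 :=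
        mul_le_mul_of_nonneg_left e3 (by positivity)
      push_cast at e4 ⊢
      nlinarith
    have e5 : (r : ℝ) * y ≤ (r : ℝ) ^ 2 * (1 / 2) ^ (k * k) := by
      calc (r : ℝ) * y = r * y ^ 2 * (1 / y) := by field_simp
        _ ≤ r * r * (1 / 2) ^ (k * k) := by gcongr
        _ = _ := by ring
    refine lt_of_lt_of_le ?_ e5
    have e6 : 2 * (k : ℝ) * L + 1 < y := by
      have e7 : 2 * (k : ℝ) * L ≤ 2 * (L / 8) * L := by
        have : (k : ℝ) ≤ L / 8 := by linarith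
        gcongr
      have e8 : (1 : ℝ) ≤ L * L := by nlinarith
      nlinarith
    calc (2 : ℝ) * k * r * L + 1 ≤ 2 * k * r * L + r := by linarith
      _ = r * (2 * k * L + 1) := by ring
      _ < r * y := mul_lt_mul_of_pos_left e6 (by linarith)
  -- the sizes
  have hq2 : (q : ℝ) ≤ 2 ^ 15 * y ^ 2 := by
    rw [hqR]
    linarith
  have hqd : q ≤ d := by
    have : (q : ℝ) ≤ d := by
      have : (2 : ℝ) ^ 15 * y ^ 2 ≤ 2 ^ 40 * y ^ 2 := by
        apply mul_le_mul_of_nonneg_right (by norm_num) (by positivity)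
      linarith
    exact_mod_cast this
  have hqN : q ≤ N := by
    have : (q : ℝ) ≤ N := by
      have : (48 : ℝ) * (2 ^ 15 * y ^ 2) ≤ 2 ^ 40 * y ^ 2 := by
        rw [← mul_assoc]
        apply mul_le_mul_of_nonneg_right (by norm_num) (by positivity)
      linarith
    exact_mod_cast this
  have hq14 : 2 ^ 14 ≤ q := by
    rw [hq]
    exact Nat.le_mul_of_pos_right _ hr0
  have hq0 : 0 < q := by omega
  have hN0 : 0 < N := by omega
  set Z := d * N / (2 * q) with hZ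
  set Lam := k * N / 16 with hLam
  have hdN : 2 * q ≤ d * N := by
    calc 2 * q ≤ 2 * N := Nat.mul_le_mul_left _ hqN
      _ ≤ d * N := Nat.mul_le_mul_right _ hd
  have hZ0 : 0 < Z := Nat.div_pos hdN (by omega)
  have hZl : d * N ≤ 4 * q * Z := by
    have h1 : d * N < 2 * q * (Z + 1) := Nat.lt_mul_div_succ _ (by omega)
    have h2 : 2 * q * (Z + 1) ≤ 2 * q * (2 * Z) := Nat.mul_le_mul_left _ (by omega)
    have h3 : 2 * q * (2 * Z) = 4 * q * Z := by ring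
    omega
  have half : ∀ n : ℕ, q ≤ n → n ≤ 2 * q * (n / q) := by
    intro n hn
    have h1 : n < q * (n / q + 1) := Nat.lt_mul_div_succ _ hq0
    have h2 : 1 ≤ n / q := Nat.div_pos hn hq0
    have h3 : q * (n / q + 1) ≤ q * (2 * (n / q)) := Nat.mul_le_mul_left _ (by omega)
    have h4 : q * (2 * (n / q)) = 2 * q * (n / q) := by ring
    omega
  have hZ1 : Z ≤ d * (N / q) := by
    apply Nat.div_le_of_le_mul
    calc d * N ≤ d * (2 * q * (N / q)) := Nat.mul_le_mul_left _ (half N hqN)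
      _ = 2 * q * (d * (N / q)) := by ring
  have hZ2 : Z ≤ (d / q) * N := by
    apply Nat.div_le_of_le_mul
    calc d * N ≤ (2 * q * (d / q)) * N := Nat.mul_le_mul_right _ (half d hqd)
      _ = 2 * q * (d / q * N) := by ring
  have hd1 : 4 * q * (r * k ^ 2) ≤ d := by
    have : (4 : ℝ) * q * (r * k ^ 2) ≤ d := by
      rw [hqR]
      calc (4 : ℝ) * (2 ^ 14 * r) * (r * k ^ 2) = 2 ^ 16 * (r : ℝ) ^ 2 * (k : ℝ) ^ 2 := by ring
        _ ≤ 2 ^ 16 * (4 * y ^ 4) * y := by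
            have : (k : ℝ) ^ 2 ≤ y := by linarith
            gcongr
        _ = 2 ^ 18 * y ^ 5 := by ring
        _ ≤ 2 ^ 40 * y ^ 5 := by
            apply mul_le_mul_of_nonneg_right (by norm_num) (by positivity)
        _ ≤ d := hy5d
    exact_mod_cast this
  have hLam16 : 16 * Lam ≤ k * N := Nat.mul_div_le _ _
  have hZ3 : 16 * (r * (k * Lam)) ≤ Z := by
    have h1 : (4 * q) * (16 * (r * (k * Lam))) ≤ (4 * q) * Z := by
      calc (4 * q) * (16 * (r * (k * Lam))) = (4 * q * (r * k)) * (16 * Lam) := by ring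
        _ ≤ (4 * q * (r * k)) * (k * N) := Nat.mul_le_mul_left _ hLam16
        _ = (4 * q * (r * k ^ 2)) * N := by ring
        _ ≤ d * N := Nat.mul_le_mul_right _ hd1
        _ ≤ 4 * q * Z := hZl
    exact Nat.le_of_mul_le_mul_left h1 (by omega)
  have hM : 4 * (d * Lam / (k + 1)) ≤ q * Z := by
    set A := d * Lam / (k + 1) with hA
    have h1 : A * (k + 1) ≤ d * Lam := Nat.div_mul_le_self _ _
    have h2 : (16 * A) * (k + 1) ≤ (d * N) * (k + 1) := by
      calc (16 * A) * (k + 1) = 16 * (A * (k + 1)) := by ring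
        _ ≤ 16 * (d * Lam) := Nat.mul_le_mul_left _ h1
        _ = d * (16 * Lam) := by ring
        _ ≤ d * (k * N) := Nat.mul_le_mul_left _ hLam16
        _ = (d * N) * k := by ring
        _ ≤ (d * N) * (k + 1) := Nat.mul_le_mul_left _ (by omega)
    have h3 : 16 * A ≤ d * N := Nat.le_of_mul_le_mul_right h2 (by omega)
    have h4 : 4 * q * Z = 4 * (q * Z) := by ring
    omega
  have hρ : 2 * (N / q + 1) ≤ N := by
    have h1 : N / q * q ≤ N := Nat.div_mul_le_self _ _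
    have h2 : N / q * 16 ≤ N / q * q := Nat.mul_le_mul_left _ (by omega)
    omega
  have hLam0 : 0 < Lam := by
    apply Nat.div_pos _ (by norm_num)
    calc 16 ≤ k * 1 := by omega
      _ ≤ k * N := Nat.mul_le_mul_left _ hN0
  have hun : (2 : ℝ) ^ 26 * (r : ℝ) ^ 2 * (k + 1) * L < d := by
    calc (2 : ℝ) ^ 26 * (r : ℝ) ^ 2 * (k + 1) * L ≤ 2 ^ 26 * (4 * y ^ 4) * L * L := by gcongr
      _ = 2 ^ 28 * y ^ 4 * (L * L) := by ring
      _ ≤ 2 ^ 28 * y ^ 4 * y := by gcongr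
      _ = 2 ^ 28 * y ^ 5 := by ring
      _ < 2 ^ 40 * y ^ 5 := by
          apply mul_lt_mul_of_pos_right (by norm_num) (by positivity)
      _ ≤ d := hy5d
  obtain ⟨H₀, h1, h2⟩ := rand_reg hr0 (by omega) hN0 hLam0 hZ1 hZ2 hZ3 hZ0 hM hρ
    (seed_cond (by omega) hseed) (union_cond hd hN0 hr0 hq hqN hZl hun)
  refine ⟨H₀, h1, fun c hc => (le_trans ?_ (h2 c hc))⟩
  have hNR : (1 : ℝ) ≤ N := by exact_mod_cast hN0
  have hLamR : (k : ℝ) * N / 32 ≤ Lam := by
    have h3 : k * N < 16 * (Lam + 1) := Nat.lt_mul_div_succ _ (by norm_num)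
    have h4 : (k : ℝ) * N < 16 * (Lam + 1) := by exact_mod_cast h3
    have h5 : (1 : ℝ) ≤ Lam := by exact_mod_cast hLam0
    linarith
  push_cast
  calc 1 / 4096 * (2 * (d : ℝ) * N * a) = (d / 2) * (a / 16 * N / 32) / 2 := by ring
    _ ≤ (d / 2) * (k * N / 32) / 2 := by gcongr
    _ ≤ ((d : ℝ) - 1) * Lam / 2 := by
        have h6 : (d : ℝ) / 2 ≤ (d : ℝ) - 1 := by linarith
        have h7 : ((d : ℝ) / 2) * (k * N / 32) ≤ ((d : ℝ) - 1) * Lam :=
          mul_le_mul h6 hLamR (by positivity) (by linarith)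
        linarith

/-- **for all `d` and `N` there is a `d`-regular graph on `2 d N` vertices with threshold of order
`t √(log d)`** -/
theorem exists_large {d N : ℕ} (hd : 2 ≤ d) (hN : 1024 ≤ 2 * d * N) :
    ∃ H₀ : SimpleGraph (Fin (2 * d * N)), Regular H₀ d ∧
      ∀ c : ℝ, Forces H₀ c → 1 / 4096 * (((2 * d * N : ℕ) : ℝ) * √(Real.log d)) ≤ c := by
  have hdR : (2 : ℝ) ≤ d := by exact_mod_cast hd
  have hlogd : 0 < Real.log d := Real.log_pos (by linarith)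
  have hany : ∃ H₀ : SimpleGraph (Fin (2 * d * N)), Regular H₀ d := by
    obtain ⟨e, he, -⟩ := transfer (bipGraph (fun _ : Fin d × Fin d => (1 : Equiv.Perm (Fin N))))
      (ncard_bip _)
    exact ⟨_, he⟩
  have htR : (1024 : ℝ) ≤ ((2 * d * N : ℕ) : ℝ) := by exact_mod_cast hN
  by_cases hL : (2 : ℝ) ^ 22 ≤ Real.log d
  · by_cases hlog : (Real.log ((2 * d * N : ℕ) : ℝ)) ^ 2 ≤ d
    · obtain ⟨H₀, hreg⟩ := hany
      refine ⟨H₀, hreg, fun c hc => ?_⟩
      have h1 := lower_reg hd hN hlog H₀ hreg hc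
      have h2 : 0 ≤ ((2 * d * N : ℕ) : ℝ) * √(Real.log d) := by positivity
      linarith
    · push Not at hlog
      apply rand_large hd hL
      set T := ((2 * d * N : ℕ) : ℝ) with hT
      have h1 : √(d : ℝ) < Real.log T := by
        rw [Real.sqrt_lt' (Real.log_pos (by linarith))]
        exact hlog
      have h2 : Real.exp (√(d : ℝ)) < T := by
        rw [← Real.lt_log_iff_exp_lt (by linarith)]
        exact h1
      have h3 := Real.pow_div_factorial_le_exp (√(d : ℝ)) (Real.sqrt_nonneg _) 4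
      have h4 : (√(d : ℝ)) ^ 4 = (d : ℝ) ^ 2 := by
        rw [show (4 : ℕ) = 2 * 2 by norm_num, pow_mul, Real.sq_sqrt (by positivity)]
      rw [h4, show (Nat.factorial 4 : ℕ) = 24 by rfl] at h3
      push_cast at h3
      have h5 : (d : ℝ) ^ 2 / 24 < 2 * d * N := by
        have h6 : T = 2 * (d : ℝ) * N := by rw [hT]; push_cast; ring
        linarith
      have h7 : (d : ℝ) * d < d * (48 * N) := by
        rw [div_lt_iff₀ (by norm_num)] at h5
        nlinarith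
      exact (lt_of_mul_lt_mul_left h7 (by positivity)).le
  · push Not at hL
    obtain ⟨H₀, hreg⟩ := hany
    refine ⟨H₀, hreg, fun c hc => ?_⟩
    have h1 := lower_trivial (H := H₀) (by rw [Fintype.card_fin]; omega) hc
    rw [Fintype.card_fin] at h1
    have h2 : √(Real.log d) ≤ 2048 := by
      rw [Real.sqrt_le_left (by norm_num)]
      norm_num at hL ⊢
      linarith
    have h3 : ((2 * d * N : ℕ) : ℝ) * √(Real.log d) ≤ ((2 * d * N : ℕ) : ℝ) * 2048 := by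
      gcongr
    linarith

end Pool.Agent.KS6_25.MF
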