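import Mathlib
import Pool.Graph.R_seed8.R34.FH.Lower2

/-!
Existence of regular graphs.
-/

set_option autoImplicit false
set_option linter.unusedSectionVars false

namespace Pool.Agent.KS6_25.MF

open SimpleGraph Finset Classical
open Pool.Agent.TH507.Host Pool.Agent.R34.FH

/-- transport of regularity -/
lemma regular_comap {W : Type} {t d : ℕ} (H : SimpleGraph W)
    (hH : ∀ x, (H.neighborSet x).ncard = d) (e : W ≃ Fin t) : Regular (H.comap e.symm) d := by
  intro x
  refine Eq.trans ?_ (hH (e.symm x))
  have h1 : (H.comap e.symm).neighborSet x = e '' (H.neighborSet (e.symm x)) := by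
    ext y
    rw [mem_neighborSet, comap_adj, Set.mem_image]
    constructor
    · intro h
      exact ⟨e.symm y, h, Equiv.apply_symm_apply e y⟩
    · rintro ⟨z, hz, rfl⟩
      rw [Equiv.symm_apply_apply]
      exact hz
  rw [h1, Set.ncard_image_of_injective _ e.injective]

/-- a circulant graph of even degree -/
lemma circ {n h : ℕ} (hn : 2 * h < n) :
    ∃ H : SimpleGraph (ZMod n), ∀ x, (H.neighborSet x).ncard = 2 * h := by
  have hn0 : 0 < n := by omega
  have : NeZero n := ⟨by omega⟩
  set T : Finset (ZMod n) := (Finset.range h).image (fun j => ((j + 1 : ℕ) : ZMod n)) ∪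
    (Finset.range h).image (fun j => -((j + 1 : ℕ) : ZMod n)) with hT
  have hneg : ∀ x, x ∈ T → -x ∈ T := by
    intro x hx
    rw [hT, mem_union, mem_image, mem_image] at hx ⊢
    rcases hx with ⟨j, hj, rfl⟩ | ⟨j, hj, rfl⟩
    · exact Or.inr ⟨j, hj, rfl⟩
    · exact Or.inl ⟨j, hj, (neg_neg _).symm⟩
  have hzero : (0 : ZMod n) ∉ T := by
    intro h0
    rw [hT, mem_union, mem_image, mem_image] at h0
    rcases h0 with ⟨j, hj, h1⟩ | ⟨j, hj, h1⟩
    · rw [mem_range] at hj
      rw [ZMod.natCast_eq_zero_iff] at h1
      exact absurd (Nat.le_of_dvd (by omega) h1) (by omega)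
    · rw [mem_range] at hj
      rw [neg_eq_zero, ZMod.natCast_eq_zero_iff] at h1
      exact absurd (Nat.le_of_dvd (by omega) h1) (by omega)
  have hcard : T.card = 2 * h := by
    rw [hT, card_union_of_disjoint, card_image_of_injOn, card_image_of_injOn, card_range]
    · ring
    · intro i hi j hj hij
      have hi' := mem_range.1 (mem_coe.1 hi)
      have hj' := mem_range.1 (mem_coe.1 hj)
      have h1 := neg_injective hij
      rw [ZMod.natCast_eq_natCast_iff', Nat.mod_eq_of_lt (by omega),
        Nat.mod_eq_of_lt (by omega)] at h1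
      omega
    · intro i hi j hj hij
      have hi' := mem_range.1 (mem_coe.1 hi)
      have hj' := mem_range.1 (mem_coe.1 hj)
      simp only at hij
      rw [ZMod.natCast_eq_natCast_iff', Nat.mod_eq_of_lt (by omega),
        Nat.mod_eq_of_lt (by omega)] at hij
      omega
    · rw [Finset.disjoint_left]
      intro x hx hx'
      obtain ⟨i, hi, rfl⟩ := mem_image.1 hx
      obtain ⟨j, hj, h1⟩ := mem_image.1 hx'
      rw [mem_range] at hi hj
      have h2 : (((i + 1) + (j + 1) : ℕ) : ZMod n) = 0 := by
        push_cast at h1 ⊢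
        rw [← h1]
        ring
      rw [ZMod.natCast_eq_zero_iff] at h2
      exact absurd (Nat.le_of_dvd (by omega) h2) (by omega)
  let H : SimpleGraph (ZMod n) :=
    { Adj := fun x y => y - x ∈ T
      symm := ⟨fun x y hxy => by
        have := hneg _ hxy
        rwa [neg_sub] at this⟩
      loopless := ⟨fun x hx => by
        rw [sub_self] at hx
        exact hzero hx⟩ }
  refine ⟨H, fun x => ?_⟩
  have h1 : H.neighborSet x = (fun z => z + x) '' (T : Set (ZMod n)) := by
    ext y
    rw [mem_neighborSet, Set.mem_image]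
    constructor
    · intro hy
      exact ⟨y - x, mem_coe.2 hy, sub_add_cancel y x⟩
    · rintro ⟨z, hz, rfl⟩
      show z + x - x ∈ T
      rw [add_sub_cancel_right]
      exact mem_coe.1 hz
  rw [h1, Set.ncard_image_of_injective _ (add_left_injective x), Set.ncard_coe_finset, hcard]

/-- a bipartite circulant graph -/
lemma bipc {m d : ℕ} (hm : d ≤ m) (hm0 : 0 < m) :
    ∃ H : SimpleGraph (ZMod m ⊕ ZMod m), ∀ x, (H.neighborSet x).ncard = d := by
  have : NeZero m := ⟨by omega⟩
  set T : Finset (ZMod m) := (Finset.range d).image (fun j : ℕ => (j : ZMod m)) with hT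
  have hcard : T.card = d := by
    rw [hT, card_image_of_injOn, card_range]
    intro i hi j hj hij
    have hi' := mem_range.1 (mem_coe.1 hi)
    have hj' := mem_range.1 (mem_coe.1 hj)
    simp only at hij
    rw [ZMod.natCast_eq_natCast_iff', Nat.mod_eq_of_lt (by omega),
      Nat.mod_eq_of_lt (by omega)] at hij
    exact hij
  let H : SimpleGraph (ZMod m ⊕ ZMod m) :=
    { Adj := fun x y => match x, y with
        | Sum.inl a, Sum.inr b => b - a ∈ T
        | Sum.inr b, Sum.inl a => b - a ∈ T
        | Sum.inl _, Sum.inl _ => False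
        | Sum.inr _, Sum.inr _ => False
      symm := ⟨by
        rintro (a | a) (b | b) h
        · exact h
        · exact h
        · exact h
        · exact h⟩
      loopless := ⟨by
        rintro (a | a) h
        · exact h
        · exact h⟩ }
  refine ⟨H, ?_⟩
  rintro (x | x)
  · have h1 : H.neighborSet (Sum.inl x) = (fun z => Sum.inr (z + x)) '' (T : Set (ZMod m)) := by
      ext y
      rw [mem_neighborSet, Set.mem_image]
      constructor
      · intro hy
        rcases y with y | y
        · exact hy.elim
        · exact ⟨y - x, mem_coe.2 hy, by simp⟩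
      · rintro ⟨z, hz, rfl⟩
        show z + x - x ∈ T
        rw [add_sub_cancel_right]
        exact mem_coe.1 hz
    rw [h1, Set.ncard_image_of_injective _ (fun a b hab => add_right_cancel (Sum.inr.inj hab)),
      Set.ncard_coe_finset, hcard]
  · have h1 : H.neighborSet (Sum.inr x) = (fun z => Sum.inl (x - z)) '' (T : Set (ZMod m)) := by
      ext y
      rw [mem_neighborSet, Set.mem_image]
      constructor
      · intro hy
        rcases y with y | y
        · exact ⟨x - y, mem_coe.2 hy, by simp⟩
        · exact hy.elim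
      · rintro ⟨z, hz, rfl⟩
        show x - (x - z) ∈ T
        rw [sub_sub_cancel]
        exact mem_coe.1 hz
    rw [h1, Set.ncard_image_of_injective _ (fun a b hab => sub_right_injective (Sum.inl.inj hab)),
      Set.ncard_coe_finset, hcard]

/-- **regular graphs exist** -/
theorem exists_regular {n d : ℕ} (hn : 0 < n) (h : 2 * d ≤ n) (he : Even (d * n)) :
    ∃ H : SimpleGraph (Fin n), Regular H d := by
  rcases Nat.even_or_odd n with h1 | h1
  · obtain ⟨m, hm⟩ := h1
    have hm0 : 0 < m := by omega
    have : NeZero m := ⟨by omega⟩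
    obtain ⟨H, hH⟩ := bipc (m := m) (d := d) (by omega) hm0
    have hc : Fintype.card (ZMod m ⊕ ZMod m) = n := by
      rw [Fintype.card_sum, ZMod.card, hm]
    exact ⟨_, regular_comap H hH (Fintype.equivFinOfCardEq hc)⟩
  · have h2 : Even d := by
      rcases Nat.even_mul.1 he with h3 | h3
      · exact h3
      · exact absurd h3 (Nat.not_even_iff_odd.2 h1)
    obtain ⟨k, hk⟩ := h2
    obtain ⟨j, hj⟩ := h1
    have : NeZero n := ⟨by omega⟩
    obtain ⟨H, hH⟩ := circ (n := n) (h := k) (by omega)
    have hc : Fintype.card (ZMod n) = n := ZMod.card n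
    have hd : 2 * k = d := by omega
    rw [← hd]
    exact ⟨_, regular_comap H hH (Fintype.equivFinOfCardEq hc)⟩

/-- the disjoint union with a regular graph -/
lemma regular_sum {A B : Type} {d : ℕ} (G : SimpleGraph A) (H : SimpleGraph B)
    (hG : ∀ x, (G.neighborSet x).ncard = d) (hH : ∀ x, (H.neighborSet x).ncard = d) :
    ∀ x, ((G ⊕g H).neighborSet x).ncard = d := by
  rintro (x | x)
  · have h1 : (G ⊕g H).neighborSet (Sum.inl x) = Sum.inl '' (G.neighborSet x) := by
      ext y
      rw [mem_neighborSet, Set.mem_image]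
      rcases y with y | y
      · simp
      · simp
    rw [h1, Set.ncard_image_of_injective _ Sum.inl_injective, hG]
  · have h1 : (G ⊕g H).neighborSet (Sum.inr x) = Sum.inr '' (H.neighborSet x) := by
      ext y
      rw [mem_neighborSet, Set.mem_image]
      rcases y with y | y
      · simp
      · simp
    rw [h1, Set.ncard_image_of_injective _ Sum.inr_injective, hH]

end Pool.Agent.KS6_25.MF
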