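import Mathlib
import Pool.Graph.R_seed8.R34.FH.Upper

/-!
Embedding many small complete graphs (as minors, with branch sets of `O(w)` vertices) into a dense
host, all of them joined to given sets.
-/

set_option autoImplicit false
set_option linter.unusedSectionVars false

namespace Pool.Agent.KS6_25.MF

open SimpleGraph Finset Classical
open Pool.Agent.TH507.Host Pool.Agent.R34.Ident Pool.Agent.R34.FH Pool.Agent.W126.Split

variable {V : Type} [Fintype V] {D : SimpleGraph V} {A : Finset V} {K m : ℕ}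

/-- connecting a core -/
lemma connect (hA : Host D A K m) {U : Finset V} (hU : U.card ≤ m) {w : ℕ} (hw : 0 < w)
    (f : Fin w → V) (hf : ∀ i, f i ∈ A \ U) :
    ∃ S : Finset V, S.Nonempty ∧ S ⊆ A ∧ Disjoint S U ∧ S.card ≤ 6 * w ∧ Conn D S ∧
      ∀ i, f i ∈ S := by
  have hlink : ∀ i : Fin w, Link D A U (f ⟨0, hw⟩) (f i) := by
    intro i
    have h1 := mem_sdiff.1 (hf ⟨0, hw⟩)
    have h2 := mem_sdiff.1 (hf i)
    exact hA.link U hU _ h1.1 _ h2.1 h1.2 h2.2
  choose Q hQA hQU hQ0 hQi hQc hQconn using hlink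
  refine ⟨univ.biUnion Q, ⟨f ⟨0, hw⟩, mem_biUnion.2 ⟨⟨0, hw⟩, mem_univ _, hQ0 _⟩⟩, ?_, ?_, ?_, ?_,
    ?_⟩
  · intro z hz
    obtain ⟨i, -, hz⟩ := mem_biUnion.1 hz
    exact hQA i hz
  · rw [disjoint_biUnion_left]
    exact fun i _ => hQU i
  · calc (univ.biUnion Q).card ≤ ∑ i : Fin w, (Q i).card := card_biUnion_le
      _ ≤ ∑ _i : Fin w, 6 := sum_le_sum (fun i _ => hQc i)
      _ = 6 * w := by rw [sum_const, card_univ, Fintype.card_fin, smul_eq_mul, mul_comm]
  · exact conn_biUnion univ Q (f ⟨0, hw⟩) (fun i _ => hQ0 i) (fun i _ => hQconn i)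
  · intro i
    exact mem_biUnion.2 ⟨i, mem_univ _, hQi i⟩

/-- sizes in a host -/
lemma host_sizes (hA : Host D A K m) (hK : 1 ≤ K) (hm : 50 * m ≤ K) {U : Finset V}
    (hU : U.card ≤ m) : 0 < A.card ∧ 0 < (A \ U).card ∧ 24 * A.card ≤ 25 * (A \ U).card ∧
      A.card ≤ (A \ U).card + m ∧ 12 * K ≤ 25 * (A \ U).card := by
  have hsz := hA.size
  have hAc : 0 < A.card := by omega
  have hRc : A.card ≤ (A \ U).card + m := by
    have : A.card ≤ (A \ U).card + U.card := card_le_card_sdiff_add_card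
    omega
  refine ⟨hAc, by omega, by omega, hRc, by omega⟩

/-- the exceptional sets are small -/
lemma non_small (hA : Host D A K m) (hK : 1 ≤ K) (hm : 50 * m ≤ K) {U : Finset V}
    (hU : U.card ≤ m) {u : ℕ} (hu : 3 ≤ u) {T : Finset V}
    (hT : ((non D A T).card : ℝ) ≤ 2 * (3 / 5) ^ u * A.card) :
    ((non D A T).card : ℝ) ≤ (4 / 5) ^ u * (A \ U).card := by
  obtain ⟨h1, h2, h3, -, -⟩ := host_sizes hA hK hm hU
  have hRR : (24 : ℝ) * A.card ≤ 25 * (A \ U).card := by exact_mod_cast h3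
  have h3 : (3 / 4 : ℝ) ^ u ≤ (3 / 4) ^ 3 :=
    pow_le_pow_of_le_one (by norm_num) (by norm_num) hu
  have h4 : (3 / 5 : ℝ) ^ u = (3 / 4) ^ u * (4 / 5) ^ u := by
    rw [← mul_pow]
    norm_num
  have h5 : (0 : ℝ) < (4 / 5) ^ u := by positivity
  calc ((non D A T).card : ℝ) ≤ 2 * (3 / 5) ^ u * A.card := hT
    _ = (4 / 5) ^ u * ((3 / 4) ^ u * (2 * A.card)) := by rw [h4]; ring
    _ ≤ (4 / 5) ^ u * ((3 / 4) ^ 3 * (2 * A.card)) := by gcongr
    _ ≤ (4 / 5) ^ u * (A \ U).card := by
        apply mul_le_mul_of_nonneg_left _ h5.le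
        linarith

/-- the number of cores contained in some of the sets `B j` -/
lemma bad_cores {w : ℕ} {R : Finset V} (hR : 0 < R.card) {ι : Type} (J : Finset ι)
    (B : ι → Finset V) {ε : ℝ} (hB : ∑ j ∈ J, (((B j).card : ℝ) / (R.card : ℝ)) ^ w ≤ ε) :
    (((Fintype.piFinset (fun _ : Fin w => R)).filter (fun f => ∃ j ∈ J, ∀ i, f i ∈ B j)).card : ℝ) ≤
      ε * (Fintype.piFinset (fun _ : Fin w => R)).card := by
  set Ω := Fintype.piFinset (fun _ : Fin w => R) with hΩ
  have hRposR : (0 : ℝ) < R.card := by exact_mod_cast hR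
  have hΩc : (Ω.card : ℝ) = (R.card : ℝ) ^ w := by
    rw [hΩ, Fintype.card_piFinset]
    simp
  have hΩpos : (0 : ℝ) < Ω.card := by rw [hΩc]; positivity
  have h0 : Ω.filter (fun f => ∃ j ∈ J, ∀ i, f i ∈ B j) ⊆
      J.biUnion (fun j => Ω.filter (fun f => ∀ i, f i ∈ B j)) := by
    intro f hf
    obtain ⟨hf1, j, hj, hf2⟩ := mem_filter.1 hf
    exact mem_biUnion.2 ⟨j, hj, mem_filter.2 ⟨hf1, hf2⟩⟩
  have h3 : ((Ω.filter (fun f => ∃ j ∈ J, ∀ i, f i ∈ B j)).card : ℝ) ≤
      ∑ j ∈ J, ((Ω.filter (fun f => ∀ i, f i ∈ B j)).card : ℝ) := by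
    have h1 := (card_le_card h0).trans card_biUnion_le
    exact_mod_cast h1
  have h4 : ∀ j ∈ J, ((Ω.filter (fun f => ∀ i, f i ∈ B j)).card : ℝ) ≤
      (((B j).card : ℝ) / (R.card : ℝ)) ^ w * Ω.card := by
    intro j _
    have h5 : Ω.filter (fun f => ∀ i, f i ∈ B j) ⊆ Fintype.piFinset (fun _ : Fin w => B j) := by
      intro f hf
      rw [Fintype.mem_piFinset]
      exact (mem_filter.1 hf).2
    have h6 := card_le_card h5
    rw [Fintype.card_piFinset] at h6
    simp only [prod_const, card_univ, Fintype.card_fin] at h6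
    rw [hΩc, ← mul_pow, div_mul_cancel₀ _ hRposR.ne']
    exact_mod_cast h6
  calc _ ≤ ∑ j ∈ J, ((Ω.filter (fun f => ∀ i, f i ∈ B j)).card : ℝ) := h3
    _ ≤ ∑ j ∈ J, (((B j).card : ℝ) / (R.card : ℝ)) ^ w * Ω.card := sum_le_sum h4
    _ = (∑ j ∈ J, (((B j).card : ℝ) / (R.card : ℝ)) ^ w) * Ω.card := by rw [sum_mul]
    _ ≤ _ := mul_le_mul_of_nonneg_right hB hΩpos.le

/-- there are many good cores -/
lemma many_cores (hA : Host D A K m) (hK : 1 ≤ K) (hm : 50 * m ≤ K) {U : Finset V}
    (hU : U.card ≤ m) {w : ℕ} {ι : Type} (J : Finset ι) (B : ι → Finset V)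
    (hB : ∑ j ∈ J, (((B j).card : ℝ) / ((A \ U).card : ℝ)) ^ w ≤ 1 / 8) :
    3 / 8 * ((A \ U).card : ℝ) ^ w ≤
      (((Fintype.piFinset (fun _ : Fin w => A \ U)).filter
        (fun f => ((non D A (univ.image f)).card : ℝ) ≤ 2 * (3 / 5) ^ w * A.card ∧
          ∀ j ∈ J, ∃ i, f i ∉ B j)).card : ℝ) := by
  obtain ⟨hAc, hRpos, hRR, hRc, -⟩ := host_sizes hA hK hm hU
  have hsz := hA.size
  set R := A \ U with hR
  have hRposR : (0 : ℝ) < R.card := by exact_mod_cast hRpos
  have hAposR : (0 : ℝ) < A.card := by exact_mod_cast hAc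
  set Ω := Fintype.piFinset (fun _ : Fin w => R) with hΩ
  have hΩc : (Ω.card : ℝ) = (R.card : ℝ) ^ w := by
    rw [hΩ, Fintype.card_piFinset]
    simp
  have hΩpos : (0 : ℝ) < Ω.card := by rw [hΩc]; positivity
  have hmiss : ∀ y ∈ A, ((Ω.filter (fun f => ∀ i, ¬ D.Adj y (f i))).card : ℝ) ≤
      (3 / 5) ^ w * Ω.card := by
    intro y hy
    have h1 : Ω.filter (fun f => ∀ i, ¬ D.Adj y (f i)) =
        Fintype.piFinset (fun _ : Fin w => R \ nb D y) := by
      ext f
      simp only [hΩ, mem_filter, Fintype.mem_piFinset, mem_sdiff, mem_nb]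
      constructor
      · rintro ⟨h1, h2⟩ i
        exact ⟨h1 i, h2 i⟩
      · intro h
        exact ⟨fun i => (h i).1, fun i => (h i).2⟩
    rw [h1, Fintype.card_piFinset, hΩc]
    simp only [prod_const, card_univ, Fintype.card_fin, Nat.cast_pow]
    rw [← mul_pow]
    apply pow_le_pow_left₀ (by positivity)
    have h2 := hA.deg y hy
    have h3 : (nb D y ∩ A).card ≤ (nb D y ∩ R).card + m := by
      have h4 : nb D y ∩ A ⊆ (nb D y ∩ R) ∪ U := by
        intro z hz
        rw [mem_inter] at hz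
        rw [mem_union, mem_inter, hR, mem_sdiff]
        by_cases hzU : z ∈ U
        · exact Or.inr hzU
        · exact Or.inl ⟨hz.1, hz.2, hzU⟩
      have h5 := card_le_card h4
      have h6 := card_union_le (nb D y ∩ R) U
      omega
    have h4 : (R \ nb D y).card + (nb D y ∩ R).card = R.card := by
      rw [inter_comm]
      exact card_sdiff_add_card_inter R (nb D y)
    have h5 : R.card ≤ A.card := card_le_card sdiff_subset
    have h6 : 5 * (R \ nb D y).card ≤ 3 * R.card := by omega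
    have h7 : (5 : ℝ) * ((R \ nb D y).card : ℝ) ≤ 3 * (R.card : ℝ) := by exact_mod_cast h6
    linarith
  have hsum : ∑ f ∈ Ω, ((non D A (univ.image f)).card : ℝ) ≤ A.card * ((3 / 5) ^ w * Ω.card) := by
    have h1 : ∀ f : Fin w → V, ((non D A (univ.image f)).card : ℝ) =
        ∑ y ∈ A, if (∀ i, ¬ D.Adj y (f i)) then (1 : ℝ) else 0 := by
      intro f
      rw [non, card_filter]
      push_cast
      apply sum_congr rfl
      intro y _
      congr 1
      simp
    simp only [h1]
    rw [sum_comm]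
    calc ∑ y ∈ A, ∑ f ∈ Ω, (if (∀ i, ¬ D.Adj y (f i)) then (1 : ℝ) else 0)
        = ∑ y ∈ A, ((Ω.filter (fun f => ∀ i, ¬ D.Adj y (f i))).card : ℝ) := by
          apply sum_congr rfl
          intro y _
          rw [card_filter]
          push_cast
          rfl
      _ ≤ ∑ _y ∈ A, (3 / 5) ^ w * (Ω.card : ℝ) := sum_le_sum hmiss
      _ = _ := by rw [sum_const, nsmul_eq_mul]
  set Bad1 := Ω.filter (fun f => 2 * (3 / 5) ^ w * (A.card : ℝ) < (non D A (univ.image f)).card)
    with hBad1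
  have h1 : (Bad1.card : ℝ) * 2 ≤ Ω.card := by
    have h2 : (Bad1.card : ℝ) * (2 * (3 / 5) ^ w * A.card) ≤ A.card * ((3 / 5) ^ w * Ω.card) := by
      calc (Bad1.card : ℝ) * (2 * (3 / 5) ^ w * A.card)
          = ∑ _f ∈ Bad1, (2 * (3 / 5) ^ w * (A.card : ℝ)) := by rw [sum_const, nsmul_eq_mul]
        _ ≤ ∑ f ∈ Bad1, ((non D A (univ.image f)).card : ℝ) :=
            sum_le_sum (fun f hf => (mem_filter.1 hf).2.le)
        _ ≤ ∑ f ∈ Ω, ((non D A (univ.image f)).card : ℝ) :=
            sum_le_sum_of_subset_of_nonneg (filter_subset _ _) (fun _ _ _ => by positivity)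
        _ ≤ _ := hsum
    have h3 : (0 : ℝ) < (3 / 5) ^ w * A.card := by positivity
    have h4 : ((Bad1.card : ℝ) * 2) * ((3 / 5) ^ w * A.card) ≤ Ω.card * ((3 / 5) ^ w * A.card) := by
      calc ((Bad1.card : ℝ) * 2) * ((3 / 5) ^ w * A.card)
          = (Bad1.card : ℝ) * (2 * (3 / 5) ^ w * A.card) := by ring
        _ ≤ A.card * ((3 / 5) ^ w * Ω.card) := h2
        _ = _ := by ring
    exact le_of_mul_le_mul_right h4 h3
  set Bad2 := Ω.filter (fun f => ∃ j ∈ J, ∀ i, f i ∈ B j) with hBad2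
  have h2 : (Bad2.card : ℝ) ≤ 1 / 8 * Ω.card := bad_cores hRpos J B hB
  set Good := Ω.filter (fun f => ((non D A (univ.image f)).card : ℝ) ≤ 2 * (3 / 5) ^ w * A.card ∧
          ∀ j ∈ J, ∃ i, f i ∉ B j) with hGood
  have h3 : Ω ⊆ Good ∪ (Bad1 ∪ Bad2) := by
    intro f hf
    rw [mem_union, mem_union]
    by_cases hf1 : f ∈ Bad1
    · exact Or.inr (Or.inl hf1)
    by_cases hf2 : f ∈ Bad2
    · exact Or.inr (Or.inr hf2)
    left
    rw [hGood, mem_filter]
    refine ⟨hf, ?_, ?_⟩
    · by_contra hcon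
      exact hf1 (mem_filter.2 ⟨hf, not_le.1 hcon⟩)
    · intro j hj
      by_contra hcon
      push Not at hcon
      exact hf2 (mem_filter.2 ⟨hf, j, hj, hcon⟩)
  have h4 := card_le_card h3
  have h5 := card_union_le Good (Bad1 ∪ Bad2)
  have h6 := card_union_le Bad1 Bad2
  have h7 : (Ω.card : ℝ) ≤ Good.card + (Bad1.card + Bad2.card) := by
    exact_mod_cast (h4.trans (h5.trans (by omega)))
  rw [← hΩc]
  linarith

/-- choosing a core which meets the neighbourhoods of almost all the cores of a family -/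
lemma choose_core (hA : Host D A K m) (hK : 1 ≤ K) (hm : 50 * m ≤ K) {U : Finset V}
    (hU : U.card ≤ m) {w : ℕ} (hw : 3 ≤ w) {ι : Type} (J : Finset ι) (B : ι → Finset V)
    (hB : ∑ j ∈ J, (((B j).card : ℝ) / ((A \ U).card : ℝ)) ^ w ≤ 1 / 8)
    (X : Finset (Fin w → V)) (hX : X.Nonempty)
    (hXn : ∀ f ∈ X, ((non D A (univ.image f)).card : ℝ) ≤ 2 * (3 / 5) ^ w * A.card) :
    ∃ g : Fin w → V, (∀ i, g i ∈ A \ U) ∧ (∀ j ∈ J, ∃ i, g i ∉ B j) ∧
      ((X.filter (fun f => ∀ i, g i ∈ non D A (univ.image f))).card : ℝ) ≤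
        2 * (4 / 5) ^ (w * w) * X.card := by
  obtain ⟨hAc, hRpos, -, -, -⟩ := host_sizes hA hK hm hU
  set R := A \ U with hR
  have hRposR : (0 : ℝ) < R.card := by exact_mod_cast hRpos
  set Ω := Fintype.piFinset (fun _ : Fin w => R) with hΩ
  have hΩc : (Ω.card : ℝ) = (R.card : ℝ) ^ w := by
    rw [hΩ, Fintype.card_piFinset]
    simp
  have hΩpos : (0 : ℝ) < Ω.card := by rw [hΩc]; positivity
  have hXpos : (0 : ℝ) < X.card := by exact_mod_cast card_pos.2 hX
  by_contra hcon
  push Not at hcon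
  set Bad2 := Ω.filter (fun f => ∃ j ∈ J, ∀ i, f i ∈ B j) with hBad2
  have h2 : (Bad2.card : ℝ) ≤ 1 / 8 * Ω.card := bad_cores hRpos J B hB
  set δ : ℝ := (4 / 5) ^ (w * w) with hδ
  have hδ0 : 0 < δ := by positivity
  have h3 : ∑ g ∈ Ω, ((X.filter (fun f => ∀ i, g i ∈ non D A (univ.image f))).card : ℝ) ≤
      X.card * (δ * Ω.card) := by
    have e1 : ∀ g : Fin w → V,
        ((X.filter (fun f => ∀ i, g i ∈ non D A (univ.image f))).card : ℝ) =
        ∑ f ∈ X, if (∀ i, g i ∈ non D A (univ.image f)) then (1 : ℝ) else 0 := by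
      intro g
      rw [card_filter]
      push_cast
      rfl
    simp only [e1]
    rw [sum_comm]
    calc ∑ f ∈ X, ∑ g ∈ Ω, (if (∀ i, g i ∈ non D A (univ.image f)) then (1 : ℝ) else 0)
        = ∑ f ∈ X, ((Ω.filter (fun g => ∀ i, g i ∈ non D A (univ.image f))).card : ℝ) := by
          apply sum_congr rfl
          intro f _
          rw [card_filter]
          push_cast
          rfl
      _ ≤ ∑ _f ∈ X, δ * Ω.card := by
          apply sum_le_sum
          intro f hf
          have h5 : Ω.filter (fun g => ∀ i, g i ∈ non D A (univ.image f)) ⊆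
              Fintype.piFinset (fun _ : Fin w => non D A (univ.image f)) := by
            intro g hg
            rw [Fintype.mem_piFinset]
            exact (mem_filter.1 hg).2
          have h6 := card_le_card h5
          rw [Fintype.card_piFinset] at h6
          simp only [prod_const, card_univ, Fintype.card_fin] at h6
          have h7 := non_small hA hK hm hU hw (hXn f hf)
          rw [← hR] at h7
          calc ((Ω.filter (fun g => ∀ i, g i ∈ non D A (univ.image f))).card : ℝ)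
              ≤ ((non D A (univ.image f)).card : ℝ) ^ w := by exact_mod_cast h6
            _ ≤ ((4 / 5) ^ w * R.card) ^ w := pow_le_pow_left₀ (by positivity) h7 w
            _ = δ * Ω.card := by rw [mul_pow, hΩc, hδ, ← pow_mul]
      _ = _ := by rw [sum_const, nsmul_eq_mul]
  have h4 : ((Ω \ Bad2).card : ℝ) * (2 * δ * X.card) ≤
      ∑ g ∈ Ω, ((X.filter (fun f => ∀ i, g i ∈ non D A (univ.image f))).card : ℝ) := by
    calc ((Ω \ Bad2).card : ℝ) * (2 * δ * X.card) = ∑ _g ∈ Ω \ Bad2, (2 * δ * (X.card : ℝ)) := by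
          rw [sum_const, nsmul_eq_mul]
      _ ≤ ∑ g ∈ Ω \ Bad2,
          ((X.filter (fun f => ∀ i, g i ∈ non D A (univ.image f))).card : ℝ) := by
          apply sum_le_sum
          intro g hg
          rw [mem_sdiff] at hg
          refine (hcon g (fun i => (Fintype.mem_piFinset.1 hg.1) i) ?_).le
          intro j hj
          by_contra hc
          push Not at hc
          exact hg.2 (mem_filter.2 ⟨hg.1, j, hj, hc⟩)
      _ ≤ _ := sum_le_sum_of_subset_of_nonneg sdiff_subset (fun _ _ _ => by positivity)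
  have h5 : (Ω.card : ℝ) ≤ (Ω \ Bad2).card + Bad2.card := by
    exact_mod_cast card_le_card_sdiff_add_card
  have h6 : 7 / 8 * (Ω.card : ℝ) ≤ (Ω \ Bad2).card := by linarith
  have h7 : 7 / 8 * (Ω.card : ℝ) * (2 * δ * X.card) ≤ X.card * (δ * Ω.card) := by
    refine le_trans ?_ (h4.trans h3)
    apply mul_le_mul_of_nonneg_right h6 (by positivity)
  have h8 : (0 : ℝ) < X.card * (δ * Ω.card) := by positivity
  nlinarith

/-- choosing a core avoiding a small set -/
lemma avoid_core {w : ℕ} {R N : Finset V} (X : Finset (Fin w → V))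
    (hX : ∀ f ∈ X, ∀ i, f i ∈ R)
    (h : (w : ℝ) * N.card * (R.card : ℝ) ^ w < X.card * R.card) :
    ∃ f ∈ X, ∀ i, f i ∉ N := by
  by_contra hcon
  push Not at hcon
  have h1 : X ⊆ (univ : Finset (Fin w)).biUnion (fun i => Fintype.piFinset
      (fun i' : Fin w => if i' = i then N else R)) := by
    intro f hf
    obtain ⟨i, hi⟩ := hcon f hf
    refine mem_biUnion.2 ⟨i, mem_univ _, Fintype.mem_piFinset.2 (fun i' => ?_)⟩
    by_cases hii : i' = i
    · subst hii
      simpa using hi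
    · simp only [hii, if_false]
      exact hX f hf i'
  have h2 := (card_le_card h1).trans card_biUnion_le
  have h3 : ∀ i : Fin w, ((Fintype.piFinset
      (fun i' : Fin w => if i' = i then N else R)).card : ℝ) * R.card =
      N.card * (R.card : ℝ) ^ w := by
    intro i
    rw [Fintype.card_piFinset, ← mul_prod_erase univ _ (mem_univ i)]
    have h4 : ∏ x ∈ univ.erase i, (if x = i then N else R).card =
        ∏ _x ∈ univ.erase i, R.card := by
      apply prod_congr rfl
      intro x hx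
      rw [if_neg (mem_erase.1 hx).1]
    rw [h4, prod_const, card_erase_of_mem (mem_univ _), card_univ, Fintype.card_fin, if_pos rfl]
    push_cast
    have hw : w = (w - 1) + 1 := by
      have := i.2
      omega
    rw [mul_assoc, ← pow_succ, ← hw]
  have h5 : (X.card : ℝ) * R.card ≤ w * N.card * (R.card : ℝ) ^ w := by
    calc (X.card : ℝ) * R.card ≤ (∑ i : Fin w, ((Fintype.piFinset
          (fun i' : Fin w => if i' = i then N else R)).card : ℝ)) * R.card := by
          apply mul_le_mul_of_nonneg_right _ (by positivity)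
          exact_mod_cast h2
      _ = ∑ i : Fin w, (N.card : ℝ) * (R.card : ℝ) ^ w := by
          rw [sum_mul]
          exact sum_congr rfl (fun i _ => h3 i)
      _ = _ := by
          rw [sum_const, card_univ, Fintype.card_fin, nsmul_eq_mul]
          ring
  linarith

/-- the union of two adjacent connected sets -/
lemma conn_union {S T : Finset V} (hS : Conn D S) (hT : Conn D T) {x y : V} (hx : x ∈ S)
    (hy : y ∈ T) (hxy : D.Adj x y) : Conn D (S ∪ T) := by
  have key : ∀ u ∈ S ∪ T, ∃ p : D.Walk u x, ∀ z ∈ p.support, z ∈ S ∪ T := by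
    intro u hu
    rcases mem_union.1 hu with hu | hu
    · obtain ⟨p, hp⟩ := hS u hu x hx
      exact ⟨p, fun z hz => mem_union_left _ (hp z hz)⟩
    · obtain ⟨p, hp⟩ := hT u hu y hy
      refine ⟨p.append (Walk.cons hxy.symm Walk.nil), fun z hz => ?_⟩
      rw [Walk.mem_support_append_iff] at hz
      rcases hz with hz | hz
      · exact mem_union_right _ (hp z hz)
      · simp only [Walk.support_cons, Walk.support_nil, List.mem_cons, List.not_mem_nil,
          or_false] at hz
        rcases hz with rfl | rfl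
        · exact mem_union_right _ hy
        · exact mem_union_left _ hx
  intro u hu v hv
  obtain ⟨p, hp⟩ := key u hu
  obtain ⟨q, hq⟩ := key v hv
  refine ⟨p.append q.reverse, fun z hz => ?_⟩
  rw [Walk.mem_support_append_iff, Walk.support_reverse, List.mem_reverse] at hz
  exact hz.elim (hp z) (hq z)

/-- a nonempty connected set with at most `n` vertices joined to all the sets `T j` -/
def Br (D : SimpleGraph V) {ι : Type} (J : Finset ι) (T : ι → Finset V) (n : ℕ)
    (S : Finset V) : Prop :=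
  S.Nonempty ∧ S.card ≤ n ∧ Conn D S ∧ ∀ j ∈ J, ∃ x ∈ T j, ∃ y ∈ S, D.Adj x y

end Pool.Agent.KS6_25.MF
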