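import Mathlib
import Pool.Agent.KS6_25.MF.Comp

/-!
Embedding many small complete graphs: one component.
-/

set_option autoImplicit false
set_option linter.unusedSectionVars false

namespace Pool.Agent.KS6_25.MF

open SimpleGraph Finset Classical
open Pool.Agent.TH507.Host Pool.Agent.R34.Ident Pool.Agent.R34.FH Pool.Agent.W126.Split

variable {V : Type} [Fintype V] {D : SimpleGraph V} {A : Finset V} {K m : ℕ}

lemma card_fam {w k : ℕ} (Y : ℕ → Finset V) (hY : ∀ i < k, (Y i).card ≤ w) :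
    ((range k).biUnion Y).card ≤ w * k := by
  calc ((range k).biUnion Y).card ≤ ∑ i ∈ range k, (Y i).card := card_biUnion_le
    _ ≤ ∑ _i ∈ range k, w := sum_le_sum (fun i hi => hY i (mem_range.1 hi))
    _ = w * k := by rw [sum_const, card_range, smul_eq_mul, mul_comm]

/-- first side -/
lemma phaseY (hA : Host D A K m) (hK : 1 ≤ K) (hm : 50 * m ≤ K) {w : ℕ} (hw : 3 ≤ w)
    {ι : Type} (J : Finset ι) (T : ι → Finset V)
    (hT : ∀ U : Finset V, U.card ≤ m →
      ∑ j ∈ J, (((non D A (T j)).card : ℝ) / ((A \ U).card : ℝ)) ^ w ≤ 1 / 8)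
    (hδ : 2 * (4 / 5 : ℝ) ^ (w * w) < 1)
    (U : Finset V) (e : ℕ) (hU : U.card + 6 * w * e ≤ m) (X0 : Finset (Fin w → V))
    (hX0 : X0.Nonempty)
    (hXn : ∀ f ∈ X0, ((non D A (univ.image f)).card : ℝ) ≤ 2 * (3 / 5) ^ w * A.card) :
    ∀ k ≤ e, ∃ (Y : ℕ → Finset V) (X : Finset (Fin w → V)), X ⊆ X0 ∧
      (1 - 2 * (4 / 5 : ℝ) ^ (w * w)) ^ k * X0.card ≤ X.card ∧
      (∀ i < k, Br D J T (6 * w) (Y i) ∧ Disjoint (Y i) U ∧
        ∀ f ∈ X, ∃ x ∈ Y i, ∃ a, D.Adj x (f a)) ∧
      (∀ i < k, ∀ j < k, i ≠ j → Disjoint (Y i) (Y j)) := by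
  intro k
  induction k with
  | zero =>
    intro _
    exact ⟨fun _ => ∅, X0, Subset.refl _, by simp, fun i hi => absurd hi (by omega),
      fun i hi => absurd hi (by omega)⟩
  | succ k ih =>
    intro hk
    obtain ⟨Y, X, h1, h2, h3, h4⟩ := ih (by omega)
    have hXne : X.Nonempty := by
      rw [← card_pos]
      have h5 : (0 : ℝ) < (1 - 2 * (4 / 5 : ℝ) ^ (w * w)) ^ k * X0.card := by
        have h6 : (0 : ℝ) < X0.card := by exact_mod_cast card_pos.2 hX0
        have h7 : (0 : ℝ) < 1 - 2 * (4 / 5 : ℝ) ^ (w * w) := by linarith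
        positivity
      exact_mod_cast lt_of_lt_of_le h5 h2
    set U' := U ∪ (range k).biUnion Y with hU'
    have hU'c : U'.card ≤ m := by
      have h5 := card_union_le U ((range k).biUnion Y)
      have h6 := card_fam Y (fun i hi => (h3 i hi).1.2.1)
      have h7 : 6 * w * k ≤ 6 * w * e := Nat.mul_le_mul_left _ (by omega)
      rw [hU']
      omega
    obtain ⟨g, hg1, hg2, hg3⟩ := choose_core hA hK hm hU'c hw J (fun j => non D A (T j))
      (hT U' hU'c) X hXne (fun f hf => hXn f (h1 hf))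
    obtain ⟨S, s1, s2, s3, s4, s5, s6⟩ := connect hA hU'c (by omega) g hg1
    rw [hU', disjoint_union_right, disjoint_biUnion_right] at s3
    refine ⟨Function.update Y k S, X.filter (fun f => ¬ ∀ i, g i ∈ non D A (univ.image f)),
      (filter_subset _ _).trans h1, ?_, ?_, ?_⟩
    · have h5 : (X.card : ℝ) = (X.filter (fun f => ∀ i, g i ∈ non D A (univ.image f))).card +
          (X.filter (fun f => ¬ ∀ i, g i ∈ non D A (univ.image f))).card := by
        exact_mod_cast (card_filter_add_card_filter_not _).symm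
      have h6 : (1 - 2 * (4 / 5 : ℝ) ^ (w * w)) * X.card ≤
          (X.filter (fun f => ¬ ∀ i, g i ∈ non D A (univ.image f))).card := by linarith
      rw [pow_succ']
      have h7 : (0 : ℝ) ≤ 1 - 2 * (4 / 5 : ℝ) ^ (w * w) := by linarith
      calc (1 - 2 * (4 / 5 : ℝ) ^ (w * w)) * (1 - 2 * (4 / 5 : ℝ) ^ (w * w)) ^ k * X0.card
          = (1 - 2 * (4 / 5 : ℝ) ^ (w * w)) * ((1 - 2 * (4 / 5 : ℝ) ^ (w * w)) ^ k * X0.card) := by
            ring
        _ ≤ (1 - 2 * (4 / 5 : ℝ) ^ (w * w)) * X.card := mul_le_mul_of_nonneg_left h2 h7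
        _ ≤ _ := h6
    · intro i hi
      by_cases hik : i = k
      · subst hik
        rw [Function.update_self]
        refine ⟨⟨s1, s4, s5, ?_⟩, s3.1, ?_⟩
        · intro j hj
          obtain ⟨a, ha⟩ := hg2 j hj
          rw [non, mem_filter, not_and] at ha
          have h5 := ha (mem_sdiff.1 (hg1 a)).1
          push Not at h5
          obtain ⟨x, hx, hadj⟩ := h5
          exact ⟨x, hx, g a, s6 a, hadj.symm⟩
        · intro f hf
          have hf2 := (mem_filter.1 hf).2
          push Not at hf2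
          obtain ⟨a, ha⟩ := hf2
          rw [non, mem_filter, not_and] at ha
          have h5 := ha (mem_sdiff.1 (hg1 a)).1
          push Not at h5
          obtain ⟨x, hx, hadj⟩ := h5
          obtain ⟨b, -, rfl⟩ := mem_image.1 hx
          exact ⟨g a, s6 a, b, hadj⟩
      · rw [Function.update_of_ne hik]
        obtain ⟨h5, h6, h7⟩ := h3 i (by omega)
        exact ⟨h5, h6, fun f hf => h7 f (mem_filter.1 hf).1⟩
    · intro i hi j hj hij
      by_cases hik : i = k
      · subst hik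
        rw [Function.update_self, Function.update_of_ne (Ne.symm hij)]
        exact s3.2 j (mem_range.2 (by omega))
      · by_cases hjk : j = k
        · subst hjk
          rw [Function.update_self, Function.update_of_ne hik]
          exact (s3.2 i (mem_range.2 (by omega))).symm
        · rw [Function.update_of_ne hik, Function.update_of_ne hjk]
          exact h4 i (by omega) j (by omega) hij

/-- second side -/
lemma phaseX (hA : Host D A K m) {w : ℕ} (hw : 0 < w)
    {ι : Type} (J : Finset ι) (T : ι → Finset V) (U N : Finset V) (e : ℕ)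
    (hU : U.card + N.card + 6 * w * e ≤ m) (X : Finset (Fin w → V))
    (hX : ∀ f ∈ X, ∀ i, f i ∈ A \ U) (hXJ : ∀ f ∈ X, ∀ j ∈ J, ∃ i, f i ∉ non D A (T j))
    (hbig : (w : ℝ) * (N.card + 6 * w * e) * ((A \ U).card : ℝ) ^ w < X.card * (A \ U).card) :
    ∀ k ≤ e, ∃ (Z : ℕ → Finset V),
      (∀ i < k, Br D J T (6 * w) (Z i) ∧ Disjoint (Z i) U ∧ Disjoint (Z i) N ∧
        ∃ f ∈ X, ∀ a, f a ∈ Z i) ∧
      (∀ i < k, ∀ j < k, i ≠ j → Disjoint (Z i) (Z j)) := by
  intro k
  induction k with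
  | zero =>
    intro _
    exact ⟨fun _ => ∅, fun i hi => absurd hi (by omega), fun i hi => absurd hi (by omega)⟩
  | succ k ih =>
    intro hk
    obtain ⟨Z, h1, h2⟩ := ih (by omega)
    have h3 := card_fam Z (fun i hi => (h1 i hi).1.2.1)
    have h4 : 6 * w * k ≤ 6 * w * e := Nat.mul_le_mul_left _ (by omega)
    obtain ⟨f, hf, hfN⟩ := avoid_core (N := N ∪ (range k).biUnion Z) X hX (by
      refine lt_of_le_of_lt ?_ hbig
      apply mul_le_mul_of_nonneg_right _ (by positivity)
      apply mul_le_mul_of_nonneg_left _ (by positivity)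
      have h5 := card_union_le N ((range k).biUnion Z)
      have h6 : (N ∪ (range k).biUnion Z).card ≤ N.card + 6 * w * e := by omega
      exact_mod_cast h6)
    set U' := U ∪ (N ∪ (range k).biUnion Z) with hU'
    have hU'c : U'.card ≤ m := by
      have h5 := card_union_le U (N ∪ (range k).biUnion Z)
      have h6 := card_union_le N ((range k).biUnion Z)
      rw [hU']
      omega
    obtain ⟨S, s1, s2, s3, s4, s5, s6⟩ := connect hA hU'c hw f (by
      intro i
      have h5 := mem_sdiff.1 (hX f hf i)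
      rw [mem_sdiff, hU', mem_union, not_or]
      exact ⟨h5.1, h5.2, hfN i⟩)
    rw [hU', disjoint_union_right, disjoint_union_right, disjoint_biUnion_right] at s3
    refine ⟨Function.update Z k S, ?_, ?_⟩
    · intro i hi
      by_cases hik : i = k
      · subst hik
        rw [Function.update_self]
        refine ⟨⟨s1, s4, s5, ?_⟩, s3.1, s3.2.1, f, hf, s6⟩
        intro j hj
        obtain ⟨a, ha⟩ := hXJ f hf j hj
        rw [non, mem_filter, not_and] at ha
        have h5 := ha (mem_sdiff.1 (hX f hf a)).1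
        push Not at h5
        obtain ⟨x, hx, hadj⟩ := h5
        exact ⟨x, hx, f a, s6 a, hadj.symm⟩
      · rw [Function.update_of_ne hik]
        exact h1 i (by omega)
    · intro i hi j hj hij
      by_cases hik : i = k
      · subst hik
        rw [Function.update_self, Function.update_of_ne (Ne.symm hij)]
        exact s3.2.2 j (mem_range.2 (by omega))
      · by_cases hjk : j = k
        · subst hjk
          rw [Function.update_self, Function.update_of_ne hik]
          exact (s3.2.2 i (mem_range.2 (by omega))).symm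
        · rw [Function.update_of_ne hik, Function.update_of_ne hjk]
          exact h2 i (by omega) j (by omega) hij

/-- **one component**: a complete graph on `e` vertices, with branch sets of at most `12 w`
vertices joined to all the sets `T j` -/
theorem component (hA : Host D A K m) (hK : 1 ≤ K) (hm : 50 * m ≤ K) {w : ℕ} (hw : 3 ≤ w)
    {ι : Type} (J : Finset ι) (T : ι → Finset V)
    (hT : ∀ U : Finset V, U.card ≤ m →
      ∑ j ∈ J, (((non D A (T j)).card : ℝ) / ((A \ U).card : ℝ)) ^ w ≤ 1 / 8)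
    (hδ : 2 * (4 / 5 : ℝ) ^ (w * w) < 1)
    (U : Finset V) (e : ℕ) (hU : U.card + 12 * w * e ≤ m)
    (hbig : (100 : ℝ) * w ^ 2 * e ≤ (1 - 2 * (4 / 5 : ℝ) ^ (w * w)) ^ e * K) :
    ∃ Z : ℕ → Finset V, (∀ i < e, Br D J T (12 * w) (Z i) ∧ Disjoint (Z i) U) ∧
      (∀ i < e, ∀ j < e, i ≠ j → Disjoint (Z i) (Z j) ∧ ∃ x ∈ Z i, ∃ y ∈ Z j, D.Adj x y) := by
  rcases Nat.eq_zero_or_pos e with rfl | he
  · exact ⟨fun _ => ∅, fun i hi => absurd hi (by omega), fun i hi => absurd hi (by omega)⟩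
  have h12 : 12 * w * e = 6 * w * e + 6 * w * e := by ring
  have hUm : U.card ≤ m := by omega
  obtain ⟨hAc, hRpos, -, -, hKR⟩ := host_sizes hA hK hm hUm
  have hRposR : (0 : ℝ) < (A \ U).card := by exact_mod_cast hRpos
  have hKRR : (12 : ℝ) * K ≤ 25 * (A \ U).card := by exact_mod_cast hKR
  set X0 := (Fintype.piFinset (fun _ : Fin w => A \ U)).filter
        (fun f => ((non D A (univ.image f)).card : ℝ) ≤ 2 * (3 / 5) ^ w * A.card ∧
          ∀ j ∈ J, ∃ i, f i ∉ non D A (T j)) with hX0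
  have hX0c := many_cores hA hK hm hUm J (fun j => non D A (T j)) (hT U hUm) (w := w)
  rw [← hX0] at hX0c
  have hX0ne : X0.Nonempty := by
    rw [← card_pos]
    have h1 : (0 : ℝ) < 3 / 8 * ((A \ U).card : ℝ) ^ w := by positivity
    exact_mod_cast lt_of_lt_of_le h1 hX0c
  obtain ⟨Y, X, y1, y2, y3, y4⟩ := phaseY hA hK hm hw J T hT hδ U e (by omega) X0 hX0ne
    (fun f hf => (mem_filter.1 hf).2.1) e le_rfl
  set N := (range e).biUnion Y with hN
  have hNc : N.card ≤ 6 * w * e := card_fam Y (fun i hi => (y3 i hi).1.2.1)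
  have hNcR : (N.card : ℝ) ≤ 6 * w * e := by exact_mod_cast hNc
  set δ : ℝ := (4 / 5 : ℝ) ^ (w * w) with hδdef
  have hδ1 : (0 : ℝ) < 1 - 2 * δ := by linarith
  have heR : (1 : ℝ) ≤ e := by exact_mod_cast he
  have hwR : (3 : ℝ) ≤ w := by exact_mod_cast hw
  obtain ⟨Z, z1, z2⟩ := phaseX hA (by omega) J T U N e (by omega) X
    (fun f hf i => (Fintype.mem_piFinset.1 (mem_filter.1 (y1 hf)).1) i)
    (fun f hf => (mem_filter.1 (y1 hf)).2.2) (by
      have h1 : (w : ℝ) * (N.card + 6 * w * e) ≤ 12 * w ^ 2 * e := by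
        have : (w : ℝ) * (N.card + 6 * w * e) ≤ w * (6 * w * e + 6 * w * e) := by gcongr
        linarith [this, show (w : ℝ) * (6 * w * e + 6 * w * e) = 12 * w ^ 2 * e by ring]
      have h2 : (1 - 2 * δ) ^ e * (3 / 8 * ((A \ U).card : ℝ) ^ w) ≤ X.card :=
        le_trans (mul_le_mul_of_nonneg_left hX0c (by positivity)) y2
      have h3 : 12 * (w : ℝ) ^ 2 * e < (1 - 2 * δ) ^ e * (3 / 8) * (A \ U).card := by
        have h4 : (1 - 2 * δ) ^ e * (12 * K) ≤ (1 - 2 * δ) ^ e * (25 * (A \ U).card) :=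
          mul_le_mul_of_nonneg_left hKRR (by positivity)
        have h5 : (0 : ℝ) < w ^ 2 * e := by positivity
        nlinarith
      calc (w : ℝ) * (N.card + 6 * w * e) * ((A \ U).card : ℝ) ^ w
          ≤ 12 * w ^ 2 * e * ((A \ U).card : ℝ) ^ w :=
            mul_le_mul_of_nonneg_right h1 (by positivity)
        _ < (1 - 2 * δ) ^ e * (3 / 8) * (A \ U).card * ((A \ U).card : ℝ) ^ w :=
            mul_lt_mul_of_pos_right h3 (by positivity)
        _ = (1 - 2 * δ) ^ e * (3 / 8 * ((A \ U).card : ℝ) ^ w) * (A \ U).card := by ring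
        _ ≤ X.card * (A \ U).card := mul_le_mul_of_nonneg_right h2 (by positivity)) e le_rfl
  have hYN : ∀ i < e, Y i ⊆ N := fun i hi => subset_biUnion_of_mem Y (mem_range.2 hi)
  have hZY : ∀ i < e, ∀ j < e, ∃ x ∈ Z i, ∃ y ∈ Y j, D.Adj x y := by
    intro i hi j hj
    obtain ⟨-, -, -, f, hf, hfZ⟩ := z1 i hi
    obtain ⟨x, hx, a, hxa⟩ := (y3 j hj).2.2 f hf
    exact ⟨f a, hfZ a, x, hx, hxa.symm⟩
  have hZYd : ∀ i < e, ∀ j < e, Disjoint (Z i) (Y j) := fun i hi j hj =>
    disjoint_of_subset_right (hYN j hj) (z1 i hi).2.2.1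
  refine ⟨fun i => Z i ∪ Y i, ?_, ?_⟩
  · intro i hi
    obtain ⟨⟨a1, a2, a3, a4⟩, a5, a6, -⟩ := z1 i hi
    obtain ⟨⟨b1, b2, b3, b4⟩, b5, -⟩ := y3 i hi
    obtain ⟨x, hx, y, hy, hxy⟩ := hZY i hi i hi
    refine ⟨⟨a1.mono subset_union_left, ?_, conn_union a3 b3 hx hy hxy, ?_⟩, ?_⟩
    · change (Z i ∪ Y i).card ≤ 12 * w
      have := card_union_le (Z i) (Y i)
      omega
    · intro j hj
      obtain ⟨x', hx', y', hy', h⟩ := a4 j hj
      exact ⟨x', hx', y', mem_union_left _ hy', h⟩
    · rw [disjoint_union_left]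
      exact ⟨a5, b5⟩
  · intro i hi j hj hij
    refine ⟨?_, ?_⟩
    · rw [disjoint_union_left, disjoint_union_right, disjoint_union_right]
      exact ⟨⟨z2 i hi j hj hij, hZYd i hi j hj⟩, (hZYd j hj i hi).symm, y4 i hi j hj hij⟩
    · obtain ⟨x, hx, y, hy, hxy⟩ := hZY i hi j hj
      exact ⟨x, mem_union_left _ hx, y, mem_union_right _ hy, hxy⟩

end Pool.Agent.KS6_25.MF
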