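import Mathlib
import Pool.Agent.KS6_25.MF.Comp2

/-!
Embedding a graph with small components and dominant vertices into a dense host.
-/

set_option autoImplicit false
set_option linter.unusedSectionVars false

namespace Pool.Agent.KS6_25.MF

open SimpleGraph Finset Classical
open Pool.Agent.TH507.Host Pool.Agent.R34.Ident Pool.Agent.R34.FH Pool.Agent.W126.Split

variable {V : Type} [Fintype V] {D : SimpleGraph V} {A : Finset V} {K m : ℕ}

/-- the dominant sets -/
lemma dominant (hA : Host D A K m) (hK : 1 ≤ K) (hm : 50 * m ≤ K) {s W : ℕ} (hW : 3 ≤ W)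
    (hsm : 6 * (s * W) ≤ m) (hs : (s : ℝ) * (4 / 5) ^ (W * W) ≤ 1 / 8) :
    ∃ T : ℕ → Finset V,
      (∀ i < s, (T i).Nonempty ∧ (T i).card ≤ 6 * W ∧ Conn D (T i) ∧
        ((non D A (T i)).card : ℝ) ≤ 2 * (3 / 5) ^ W * A.card) ∧
      (∀ i < s, ∀ j < s, i ≠ j → Disjoint (T i) (T j) ∧ ∃ x ∈ T i, ∃ y ∈ T j, D.Adj x y) := by
  have main : ∀ k ≤ s, ∃ T : ℕ → Finset V,
      (∀ i < k, (T i).Nonempty ∧ (T i).card ≤ 6 * W ∧ Conn D (T i) ∧
        ((non D A (T i)).card : ℝ) ≤ 2 * (3 / 5) ^ W * A.card) ∧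
      (∀ i < k, ∀ j < k, i < j → Disjoint (T i) (T j) ∧ ∃ x ∈ T i, ∃ y ∈ T j, D.Adj x y) := by
    intro k
    induction k with
    | zero =>
      intro _
      exact ⟨fun _ => ∅, fun i hi => absurd hi (by omega), fun i hi => absurd hi (by omega)⟩
    | succ k ih =>
      intro hk
      obtain ⟨T, h1, h2⟩ := ih (by omega)
      set U := (range k).biUnion T with hU
      have hUc : U.card ≤ m := by
        have h3 := card_fam T (fun i hi => (h1 i hi).2.1)
        have h4 : 6 * W * k ≤ 6 * (s * W) := by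
          calc 6 * W * k ≤ 6 * W * s := Nat.mul_le_mul_left _ (by omega)
            _ = 6 * (s * W) := by ring
        rw [hU]
        omega
      obtain ⟨S, s1, s2, s3, s4, s5, s6, s7⟩ := exists_branch hA hK hm hUc
        (w := W) (by omega) (range k) T (fun _ => W)
        (fun j hj => (h1 j (mem_range.1 hj)).2.2.2) (fun j _ => hW) (by
          rw [sum_const, card_range, nsmul_eq_mul, ← pow_mul]
          have h3 : (k : ℝ) ≤ s := by exact_mod_cast (show k ≤ s by omega)
          have h4 : (k : ℝ) * (4 / 5) ^ (W * W) ≤ s * (4 / 5) ^ (W * W) := by gcongr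
          linarith)
      rw [hU, disjoint_biUnion_right] at s3
      refine ⟨Function.update T k S, ?_, ?_⟩
      · intro i hi
        by_cases hik : i = k
        · subst hik
          rw [Function.update_self]
          exact ⟨s1, s4, s5, s6⟩
        · rw [Function.update_of_ne hik]
          exact h1 i (by omega)
      · intro i hi j hj hij
        by_cases hjk : j = k
        · subst hjk
          rw [Function.update_self, Function.update_of_ne (by omega)]
          refine ⟨(s3 i (mem_range.2 hij)).symm, s7 i (mem_range.2 hij)⟩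
        · rw [Function.update_of_ne (by omega), Function.update_of_ne hjk]
          exact h2 i (by omega) j (by omega) hij
  obtain ⟨T, h1, h2⟩ := main s le_rfl
  refine ⟨T, h1, ?_⟩
  intro i hi j hj hij
  rcases lt_or_gt_of_ne hij with h | h
  · exact h2 i hi j hj h
  · obtain ⟨h3, x, hx, y, hy, hxy⟩ := h2 j hj i hi h
    exact ⟨h3.symm, y, hy, x, hx, hxy.symm⟩

/-- all the components -/
lemma components (hA : Host D A K m) (hK : 1 ≤ K) (hm : 50 * m ≤ K) {w : ℕ} (hw : 3 ≤ w)
    {ι : Type} (J : Finset ι) (T : ι → Finset V)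
    (hT : ∀ U : Finset V, U.card ≤ m →
      ∑ j ∈ J, (((non D A (T j)).card : ℝ) / ((A \ U).card : ℝ)) ^ w ≤ 1 / 8)
    (hδ : 2 * (4 / 5 : ℝ) ^ (w * w) < 1) {t : ℕ} (comp : Fin t → ℕ) (e0 : ℕ)
    (hcomp : ∀ i, (univ.filter (fun x => comp x = i)).card ≤ e0)
    (U0 : Finset V) (hU : U0.card + 12 * w * t ≤ m)
    (hbig : (100 : ℝ) * w ^ 2 * e0 ≤ (1 - 2 * (4 / 5 : ℝ) ^ (w * w)) ^ e0 * K) :
    ∃ B : Fin t → Finset V, (∀ x, Br D J T (12 * w) (B x) ∧ Disjoint (B x) U0) ∧
      (∀ x y, x ≠ y → Disjoint (B x) (B y)) ∧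
      (∀ x y, x ≠ y → comp x = comp y → ∃ u ∈ B x, ∃ v ∈ B y, D.Adj u v) := by
  have main : ∀ k : ℕ, ∃ B : Fin t → Finset V,
      (∀ x, comp x < k → Br D J T (12 * w) (B x) ∧ Disjoint (B x) U0) ∧
      (∀ x y, comp x < k → comp y < k → x ≠ y → Disjoint (B x) (B y)) ∧
      (∀ x y, comp x < k → comp y < k → x ≠ y → comp x = comp y →
        ∃ u ∈ B x, ∃ v ∈ B y, D.Adj u v) := by
    intro k
    induction k with
    | zero =>
      exact ⟨fun _ => ∅, fun x hx => absurd hx (by omega), fun x y hx => absurd hx (by omega),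
        fun x y hx => absurd hx (by omega)⟩
    | succ k ih =>
      obtain ⟨B, h1, h2, h3⟩ := ih
      set P := univ.filter (fun x : Fin t => comp x < k) with hP
      set F := univ.filter (fun x : Fin t => comp x = k) with hF
      have hPF : P.card + F.card ≤ t := by
        have h4 : Disjoint P F := by
          rw [Finset.disjoint_left]
          intro x hx hx'
          rw [hP, mem_filter] at hx
          rw [hF, mem_filter] at hx'
          omega
        rw [← card_union_of_disjoint h4]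
        exact (card_le_univ _).trans (by simp)
      set U := U0 ∪ P.biUnion B with hU'
      have hPc : (P.biUnion B).card ≤ 12 * w * P.card := by
        calc (P.biUnion B).card ≤ ∑ x ∈ P, (B x).card := card_biUnion_le
          _ ≤ ∑ _x ∈ P, 12 * w := sum_le_sum (fun x hx => (h1 x (mem_filter.1 hx).2).1.2.1)
          _ = 12 * w * P.card := by rw [sum_const, smul_eq_mul, mul_comm]
      have hUc : U.card + 12 * w * F.card ≤ m := by
        have h4 := card_union_le U0 (P.biUnion B)
        have h5 : 12 * w * P.card + 12 * w * F.card ≤ 12 * w * t := by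
          rw [← Nat.mul_add]
          exact Nat.mul_le_mul_left _ hPF
        rw [hU']
        omega
      have hbig' : (100 : ℝ) * w ^ 2 * F.card ≤ (1 - 2 * (4 / 5 : ℝ) ^ (w * w)) ^ F.card * K := by
        have h4 : F.card ≤ e0 := hcomp k
        have h5 : (F.card : ℝ) ≤ e0 := by exact_mod_cast h4
        have h6 : (1 - 2 * (4 / 5 : ℝ) ^ (w * w)) ^ e0 ≤ (1 - 2 * (4 / 5 : ℝ) ^ (w * w)) ^ F.card :=
          pow_le_pow_of_le_one (by linarith) (by
            have : (0 : ℝ) < (4 / 5 : ℝ) ^ (w * w) := by positivity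
            linarith) h4
        calc (100 : ℝ) * w ^ 2 * F.card ≤ 100 * w ^ 2 * e0 := by gcongr
          _ ≤ (1 - 2 * (4 / 5 : ℝ) ^ (w * w)) ^ e0 * K := hbig
          _ ≤ _ := by gcongr
      obtain ⟨Z, z1, z2⟩ := component hA hK hm hw J T hT hδ U F.card hUc hbig'
      have hidx : ∀ x, comp x = k → x ∈ F := fun x hx => by
        rw [hF, mem_filter]
        exact ⟨mem_univ _, hx⟩
      set idx : Fin t → ℕ := fun x => if hx : x ∈ F then (F.equivFin ⟨x, hx⟩).val else 0 with hidxd
      have idx_lt : ∀ x, comp x = k → idx x < F.card := by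
        intro x hx
        have h4 : idx x = (F.equivFin ⟨x, hidx x hx⟩).val := dif_pos (hidx x hx)
        rw [h4]
        exact (F.equivFin ⟨x, hidx x hx⟩).2
      have idx_inj : ∀ x y, comp x = k → comp y = k → x ≠ y → idx x ≠ idx y := by
        intro x y hx hy hxy heq
        have h4 : idx x = (F.equivFin ⟨x, hidx x hx⟩).val := dif_pos (hidx x hx)
        have h5 : idx y = (F.equivFin ⟨y, hidx y hy⟩).val := dif_pos (hidx y hy)
        rw [h4, h5] at heq
        have h6 := F.equivFin.injective (Fin.ext heq)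
        exact hxy (congrArg Subtype.val h6)
      set B' : Fin t → Finset V := fun x => if comp x = k then Z (idx x) else B x with hB'
      have hBk : ∀ x, comp x = k → B' x = Z (idx x) := fun x hx => if_pos hx
      have hBn : ∀ x, comp x ≠ k → B' x = B x := fun x hx => if_neg hx
      have hdis : ∀ x y, comp x = k → comp y < k → Disjoint (Z (idx x)) (B y) := by
        intro x y hx hy
        have h4 := (z1 (idx x) (idx_lt x hx)).2
        rw [hU', disjoint_union_right, disjoint_biUnion_right] at h4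
        exact h4.2 y (mem_filter.2 ⟨mem_univ _, hy⟩)
      refine ⟨B', ?_, ?_, ?_⟩
      · intro x hx
        by_cases hxk : comp x = k
        · rw [hBk x hxk]
          obtain ⟨h4, h5⟩ := z1 (idx x) (idx_lt x hxk)
          rw [hU', disjoint_union_right] at h5
          exact ⟨h4, h5.1⟩
        · rw [hBn x hxk]
          exact h1 x (by omega)
      · intro x y hx hy hxy
        by_cases hxk : comp x = k
        · by_cases hyk : comp y = k
          · rw [hBk x hxk, hBk y hyk]
            exact (z2 _ (idx_lt x hxk) _ (idx_lt y hyk) (idx_inj x y hxk hyk hxy)).1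
          · rw [hBk x hxk, hBn y hyk]
            exact hdis x y hxk (by omega)
        · by_cases hyk : comp y = k
          · rw [hBn x hxk, hBk y hyk]
            exact (hdis y x hyk (by omega)).symm
          · rw [hBn x hxk, hBn y hyk]
            exact h2 x y (by omega) (by omega) hxy
      · intro x y hx hy hxy hc
        by_cases hxk : comp x = k
        · rw [hBk x hxk, hBk y (hc ▸ hxk)]
          exact (z2 _ (idx_lt x hxk) _ (idx_lt y (hc ▸ hxk))
            (idx_inj x y hxk (hc ▸ hxk) hxy)).2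
        · rw [hBn x hxk, hBn y (fun h => hxk (hc.trans h))]
          exact h3 x y (by omega) (by omega) hxy hc
  obtain ⟨B, h1, h2, h3⟩ := main (univ.sup comp + 1)
  have hlt : ∀ x, comp x < univ.sup comp + 1 := fun x =>
    Nat.lt_succ_of_le (le_sup (f := comp) (mem_univ x))
  exact ⟨B, fun x => h1 x (hlt x), fun x y => h2 x y (hlt x) (hlt y),
    fun x y hxy hc => h3 x y (hlt x) (hlt y) hxy hc⟩

/-- **the embedding** -/
theorem embed_components (hA : Host D A K m) (hK : 1 ≤ K) (hm : 50 * m ≤ K) {s W w t : ℕ}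
    (hW : 3 ≤ W) (hw : 3 ≤ w) (hsize : 6 * (s * W) + 12 * w * t ≤ m)
    (hsW : (s : ℝ) * (4 / 5) ^ (W * W) ≤ 1 / 8) (hsw : (s : ℝ) * (4 / 5) ^ (W * w) ≤ 1 / 8)
    (H₀ : SimpleGraph (Fin t)) (comp : Fin t → ℕ) (hadj : ∀ x y, H₀.Adj x y → comp x = comp y)
    (e0 : ℕ) (hcomp : ∀ i, (univ.filter (fun x => comp x = i)).card ≤ e0)
    (hbig : (100 : ℝ) * w ^ 2 * e0 ≤ (1 - 2 * (4 / 5 : ℝ) ^ (w * w)) ^ e0 * K) :
    IsMinor (addDominant H₀ s) D := by
  obtain ⟨T, t1, t2⟩ := dominant hA hK hm hW (by omega) hsW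
  set U0 := (range s).biUnion T with hU0
  have hU0c : U0.card ≤ 6 * W * s := card_fam T (fun i hi => (t1 i hi).2.1)
  have h6 : 6 * (s * W) = 6 * W * s := by ring
  have hδ : 2 * (4 / 5 : ℝ) ^ (w * w) < 1 := by
    have h1 : (4 / 5 : ℝ) ^ (w * w) ≤ (4 / 5) ^ 9 :=
      pow_le_pow_of_le_one (by norm_num) (by norm_num) (by nlinarith)
    have h2 : 2 * (4 / 5 : ℝ) ^ 9 < 1 := by norm_num
    linarith
  have hT : ∀ U : Finset V, U.card ≤ m →
      ∑ j ∈ range s, (((non D A (T j)).card : ℝ) / ((A \ U).card : ℝ)) ^ w ≤ 1 / 8 := by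
    intro U hU
    obtain ⟨-, hR, -, -, -⟩ := host_sizes hA hK hm hU
    have hRR : (0 : ℝ) < (A \ U).card := by exact_mod_cast hR
    refine le_trans (sum_le_sum (g := fun _ => (4 / 5 : ℝ) ^ (W * w)) ?_) ?_
    · intro j hj
      rw [pow_mul]
      apply pow_le_pow_left₀ (by positivity)
      rw [div_le_iff₀ hRR]
      exact non_small hA hK hm hU hW (t1 j (mem_range.1 hj)).2.2.2
    · rw [sum_const, card_range, nsmul_eq_mul]
      exact hsw
  obtain ⟨B, b1, b2, b3⟩ := components hA hK hm hw (range s) T hT hδ comp e0 hcomp U0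
    (by omega) hbig
  have hTU : ∀ i < s, T i ⊆ U0 := fun i hi => subset_biUnion_of_mem T (mem_range.2 hi)
  have hTB : ∀ i < s, ∀ x, Disjoint (T i) (B x) := fun i hi x =>
    (disjoint_of_subset_right (hTU i hi) (b1 x).2).symm
  refine Pool.Agent.R34.minor_of (fun z => match z with
    | Sum.inl a => T a.val
    | Sum.inr b => B b) ?_ ?_ ?_ ?_
  · rintro (a | b)
    · exact (t1 a a.2).1
    · exact (b1 b).1.1
  · rintro (a | b)
    · exact (t1 a a.2).2.2.1
    · exact (b1 b).1.2.2.1
  · rintro (a | b) (a' | b') hne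
    · exact (t2 a a.2 a' a'.2 (fun h => hne (by rw [Fin.ext h]))).1
    · exact hTB a a.2 b'
    · exact (hTB a' a'.2 b).symm
    · exact b2 b b' (fun h => hne (by rw [h]))
  · rintro (a | b) (a' | b') h
    · have hne : a ≠ a' := h
      exact (t2 a a.2 a' a'.2 (fun h => hne (Fin.ext h))).2
    · exact (b1 b').1.2.2.2 a (mem_range.2 a.2)
    · obtain ⟨x, hx, y, hy, hxy⟩ := (b1 b).1.2.2.2 a' (mem_range.2 a'.2)
      exact ⟨y, hy, x, hx, hxy.symm⟩
    · have h' : H₀.Adj b b' := h
      exact b3 b b' h'.ne (hadj b b' h')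

/-- **forcing**: `m = 6 s W + 12 w t`, `K = 50 m` -/
theorem force_components {s W w t : ℕ} (hW : 3 ≤ W) (hw : 3 ≤ w) (ht : 0 < t)
    (hsW : (s : ℝ) * (4 / 5) ^ (W * W) ≤ 1 / 8) (hsw : (s : ℝ) * (4 / 5) ^ (W * w) ≤ 1 / 8)
    (H₀ : SimpleGraph (Fin t)) (comp : Fin t → ℕ) (hadj : ∀ x y, H₀.Adj x y → comp x = comp y)
    (e0 : ℕ) (hcomp : ∀ i, (univ.filter (fun x => comp x = i)).card ≤ e0)
    (hbig : (w : ℝ) * e0 ≤ (1 - 2 * (4 / 5 : ℝ) ^ (w * w)) ^ e0 * (6 * t))
    {V : Type} [Fintype V] (G : SimpleGraph V) (hV : 0 < Fintype.card V)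
    (hG : 1200 * (s * W + t * w) * Fintype.card V ≤ pr G) : IsMinor (addDominant H₀ s) G := by
  set m := 6 * (s * W) + 12 * w * t with hm
  set K := 50 * m with hK
  have hwt : 0 < w * t := Nat.mul_pos (by omega) ht
  have h12 : 12 * w * t = 12 * (w * t) := by ring
  have hK1 : 1 ≤ K := by omega
  obtain ⟨A, hA, D, h1, h2, h3, h4⟩ := mader K hK1 _ V G le_rfl hV (by
    have h5 : 2 * K ≤ 1200 * (s * W + t * w) := by
      rw [hK, hm]
      have : t * w = w * t := mul_comm _ _
      rw [this]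
      omega
    calc 2 * K * Fintype.card V ≤ 1200 * (s * W + t * w) * Fintype.card V :=
          Nat.mul_le_mul_right _ h5
      _ ≤ pr G := hG)
  obtain ⟨B, hB⟩ := exists_host (m := m) hK1 h2 h3 h4 (by omega)
  refine minor_trans (embed_components hB hK1 (by omega) hW hw le_rfl hsW hsw H₀ comp hadj e0
    hcomp ?_) h1
  have h5 : (600 : ℝ) * (w * t) ≤ K := by
    have : 600 * (w * t) ≤ K := by omega
    exact_mod_cast this
  have hδ : (0 : ℝ) ≤ 1 - 2 * (4 / 5 : ℝ) ^ (w * w) := by
    have h1 : (4 / 5 : ℝ) ^ (w * w) ≤ (4 / 5) ^ 9 :=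
      pow_le_pow_of_le_one (by norm_num) (by norm_num) (by nlinarith)
    have h2 : 2 * (4 / 5 : ℝ) ^ 9 < 1 := by norm_num
    linarith
  calc (100 : ℝ) * w ^ 2 * e0 = 100 * w * (w * e0) := by ring
    _ ≤ 100 * w * ((1 - 2 * (4 / 5 : ℝ) ^ (w * w)) ^ e0 * (6 * t)) :=
        mul_le_mul_of_nonneg_left hbig (by positivity)
    _ = (1 - 2 * (4 / 5 : ℝ) ^ (w * w)) ^ e0 * (600 * (w * t)) := by ring
    _ ≤ (1 - 2 * (4 / 5 : ℝ) ^ (w * w)) ^ e0 * K := mul_le_mul_of_nonneg_left h5 (by positivity)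

end Pool.Agent.KS6_25.MF
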