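import Mathlib
import Pool.Agent.KS6_25.MF.Comp3
import Pool.Agent.KS6_25.MF.LowerAll

/-!
The upper bound `O(t √(1 + log⁺ (D / log t)) + √(s t log s))` for all graphs `H₀` with components of
at most `D` vertices.
-/

set_option autoImplicit false
set_option linter.unusedSectionVars false

namespace Pool.Agent.KS6_25.MF

open SimpleGraph Finset Classical
open Pool.Agent.TH507.Host Pool.Agent.R34.Ident Pool.Agent.R34.FH Pool.Agent.W126.Split

lemma auxU1 {y t D : ℝ} (h : y ^ 2 = t) (h32 : 32 ≤ y) (hD : D ≤ y) : D ≤ t := by nlinarith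

lemma auxU2 {D L t : ℝ} (h : D ≤ t) (hL : 1 ≤ L) (ht : 0 ≤ t) : D ≤ t * L := by nlinarith

lemma auxU3 {a x : ℝ} (h : a ^ 2 ≤ x) : a ≤ x / 6 + 3 / 2 := by nlinarith [sq_nonneg (a - 3)]

lemma auxU4 {a w : ℝ} (h : 5 * a ≤ w) (ha : 0 ≤ a) : 25 * a ^ 2 ≤ w * w := by nlinarith

lemma auxU5 {x : ℝ} (h0 : 0 ≤ x) (h1 : x ≤ 1 / 2) : 1 ≤ (1 - x) * (1 + 2 * x) := by nlinarith

lemma auxU6 {t b w : ℝ} (h : 5 * b ≤ w) (h0 : 0 ≤ t * b) : 20 * (t * b ^ 2) ≤ 4 * (t * b) * w := by
  nlinarith

/-- the case of small components -/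
lemma upper_small {D s t : ℕ} (hs : 2 ≤ s) (hst : s ≤ t) (ht : 1024 ≤ t) (hD : D ^ 2 ≤ t)
    (H₀ : SimpleGraph (Fin t)) (comp : Fin t → ℕ) (hadj : ∀ x y, H₀.Adj x y → comp x = comp y)
    (hcomp : ∀ i, (univ.filter (fun x => comp x = i)).card ≤ D) :
    Forces (addDominant H₀ s) (36000 * (t * √(gain D t) + √(s * t * Real.log s))) := by
  intro V _ _ G hG
  have hV : 0 < Fintype.card V := Fintype.card_pos
  have hVR : (0 : ℝ) < Fintype.card V := by exact_mod_cast hV
  have hsR : (2 : ℝ) ≤ s := by exact_mod_cast hs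
  have hstR : (s : ℝ) ≤ t := by exact_mod_cast hst
  have htR : (1024 : ℝ) ≤ t := by exact_mod_cast ht
  have ht0 : (0 : ℝ) < t := by linarith
  have hlogs : 0 < Real.log s := Real.log_pos (by linarith)
  have hlogt : 0 < Real.log t := Real.log_pos (by linarith)
  have hlog2 := Real.log_two_gt_d9
  have hlog2' := Real.log_two_lt_d9
  have hlogt6 : 6 ≤ Real.log t := by
    have h1 : Real.log 1024 ≤ Real.log t := Real.log_le_log (by norm_num) htR
    have h2 : Real.log 1024 = 10 * Real.log 2 := by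
      rw [show (1024 : ℝ) = 2 ^ 10 by norm_num, Real.log_pow]
      norm_num
    linarith
  have hg1 := one_le_gain D t
  set a := √(gain D t) with ha
  set b := √(s * Real.log s / t) with hb
  have ha1 : 1 ≤ a := by
    rw [ha]
    apply Real.le_sqrt_of_sq_le
    linarith
  have ha0 : 0 < a := by linarith
  have hb0 : 0 < b := Real.sqrt_pos.2 (by positivity)
  have ha2 : a ^ 2 = gain D t := Real.sq_sqrt (by linarith)
  have hb2 : b ^ 2 = s * Real.log s / t := Real.sq_sqrt (by positivity)
  have hY : √(s * t * Real.log s) = t * b := by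
    rw [Real.sqrt_eq_iff_mul_self_eq (by positivity) (by positivity)]
    have : t * b * (t * b) = t ^ 2 * b ^ 2 := by ring
    rw [this, hb2]
    field_simp
  set w := ⌈5 * a + 5 * b⌉₊ + 3 with hw
  set W := ⌈20 * Real.log s / w⌉₊ + w with hW
  have hwR : (w : ℝ) = ⌈5 * a + 5 * b⌉₊ + 3 := by rw [hw]; push_cast; ring
  have hw1 : 5 * a + 5 * b ≤ w := by
    have := Nat.le_ceil (5 * a + 5 * b)
    linarith
  have hw2 : (w : ℝ) ≤ 5 * a + 5 * b + 4 := by
    have := Nat.ceil_lt_add_one (show 0 ≤ 5 * a + 5 * b by positivity)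
    linarith
  have hwpos : (0 : ℝ) < w := by linarith
  have hWR : (W : ℝ) = ⌈20 * Real.log s / w⌉₊ + w := by rw [hW]; push_cast; ring
  have hW1 : 20 * Real.log s / w ≤ W := by
    have := Nat.le_ceil (20 * Real.log s / w)
    linarith
  have hW2 : (W : ℝ) ≤ 20 * Real.log s / w + 1 + w := by
    have := Nat.ceil_lt_add_one (show 0 ≤ 20 * Real.log s / w by positivity)
    linarith
  have hWw : 20 * Real.log s ≤ (W * w : ℕ) := by
    push_cast
    rw [div_le_iff₀ hwpos] at hW1
    exact hW1
  have hWW : 20 * Real.log s ≤ (W * W : ℕ) := by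
    refine hWw.trans ?_
    have : w ≤ W := by omega
    exact_mod_cast Nat.mul_le_mul_left W this
  -- the fourth root of `t`
  set y := √(t : ℝ) with hy
  have hy2 : y ^ 2 = t := Real.sq_sqrt ht0.le
  have hy32 : 32 ≤ y := Real.le_sqrt_of_sq_le (by linarith)
  set x := √y with hx
  have hx2 : x ^ 2 = y := Real.sq_sqrt (by linarith)
  have hx5 : 28 / 5 ≤ x := Real.le_sqrt_of_sq_le (by linarith)
  have hx0 : 0 < x := by linarith
  have hx4 : x ^ 4 = t := by rw [← hy2, ← hx2]; ring
  have hlogx : Real.log t = 4 * Real.log x := by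
    rw [← hx4, Real.log_pow]
    norm_num
  have hlogx0 : 0 < Real.log x := by linarith
  have hlogx1 : Real.log x ≤ x / 4 + 39 / 100 := by
    have h1 : Real.log (x / 4) ≤ x / 4 - 1 := Real.log_le_sub_one_of_pos (by positivity)
    rw [Real.log_div (by positivity) (by norm_num)] at h1
    have h2 : Real.log 4 = 2 * Real.log 2 := by
      rw [show (4 : ℝ) = 2 ^ 2 by norm_num, Real.log_pow]
      norm_num
    linarith
  have hDy : (D : ℝ) ≤ y := by
    apply Real.le_sqrt_of_sq_le
    exact_mod_cast hD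
  have hDt : (D : ℝ) ≤ t := auxU1 hy2 hy32 hDy
  -- the gain
  have hgain : gain D t ≤ 1 + Real.log t := by
    unfold gain
    have h1 : max 0 (Real.log (D / Real.log t)) ≤ Real.log t := by
      apply max_le hlogt.le
      rcases Nat.eq_zero_or_pos D with h0 | h0
      · rw [h0]
        simp
        exact hlogt.le
      · have h0R : (0 : ℝ) < D := by exact_mod_cast h0
        apply Real.log_le_log (by positivity)
        rw [div_le_iff₀ hlogt]
        exact auxU2 hDt (by linarith) ht0.le
    linarith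
  have ha3 : a ≤ (1 + 4 * Real.log x) / 6 + 3 / 2 := by
    have h1 : a ^ 2 ≤ 1 + 4 * Real.log x := by rw [ha2, ← hlogx]; exact hgain
    exact auxU3 h1
  have hb3 : b ≤ (4 * Real.log x) / 6 + 3 / 2 := by
    have h1 : b ^ 2 ≤ 4 * Real.log x := by
      rw [hb2, ← hlogx, div_le_iff₀ ht0]
      have h2 : Real.log s ≤ Real.log t := Real.log_le_log (by linarith) hstR
      calc (s : ℝ) * Real.log s ≤ t * Real.log t := by gcongr
        _ = _ := by ring
    exact auxU3 h1
  have hwx : (w : ℝ) ≤ 6 * x := by linarith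
  -- the power
  set δ : ℝ := (4 / 5 : ℝ) ^ (w * w) with hδ
  have hδ0 : 0 < δ := by positivity
  have h45 : (4 / 5 : ℝ) ≤ Real.exp (-(1 / 5)) := by
    have := Real.add_one_le_exp (-(1 / 5 : ℝ))
    linarith
  have hδ1 : δ ≤ Real.exp (-(5 * gain D t)) := by
    calc δ ≤ (Real.exp (-(1 / 5))) ^ (w * w) := pow_le_pow_left₀ (by norm_num) h45 _
      _ = Real.exp ((w * w : ℕ) * (-(1 / 5))) := by rw [← Real.exp_nat_mul]
      _ ≤ Real.exp (-(5 * gain D t)) := by
          apply Real.exp_le_exp.2
          have h1 : 5 * a ≤ w := by linarith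
          have h2 : 25 * a ^ 2 ≤ (w : ℝ) * w := auxU4 h1 ha0.le
          rw [ha2] at h2
          push_cast
          linarith
  have hDg : (D : ℝ) ≤ Real.log t * Real.exp (gain D t - 1) := by
    rcases Nat.eq_zero_or_pos D with h0 | h0
    · rw [h0]
      push_cast
      positivity
    · have h0R : (0 : ℝ) < D := by exact_mod_cast h0
      have h1 : Real.log (D / Real.log t) ≤ gain D t - 1 := by
        unfold gain
        have := le_max_right 0 (Real.log (D / Real.log t))
        linarith
      have h2 : (D : ℝ) / Real.log t ≤ Real.exp (gain D t - 1) := by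
        rw [← Real.log_le_iff_le_exp (by positivity)]
        exact h1
      rw [div_le_iff₀ hlogt] at h2
      linarith
  have he5 : Real.exp (-5) ≤ 1 / 16 := by
    have h1 : Real.exp (-5) = (Real.exp 1 ^ 5)⁻¹ := by
      rw [← Real.exp_nat_mul, ← Real.exp_neg]
      norm_num
    rw [h1, one_div]
    apply inv_anti₀ (by norm_num)
    have h2 : (2 : ℝ) ≤ Real.exp 1 := by
      have := Real.exp_one_gt_d9
      linarith
    calc (16 : ℝ) ≤ 2 ^ 5 := by norm_num
      _ ≤ Real.exp 1 ^ 5 := pow_le_pow_left₀ (by norm_num) h2 5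
  have hδD : 16 * (δ * D) ≤ Real.log t := by
    have h1 : δ * D ≤ Real.exp (-(5 * gain D t)) * (Real.log t * Real.exp (gain D t - 1)) :=
      mul_le_mul hδ1 hDg (by positivity) (by positivity)
    have h2 : Real.exp (-(5 * gain D t)) * (Real.log t * Real.exp (gain D t - 1)) =
        Real.log t * Real.exp (-1 - 4 * gain D t) := by
      rw [mul_left_comm, ← Real.exp_add]
      ring_nf
    have h3 : Real.exp (-1 - 4 * gain D t) ≤ 1 / 16 := by
      refine le_trans (Real.exp_le_exp.2 ?_) he5
      linarith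
    have h4 : Real.log t * Real.exp (-1 - 4 * gain D t) ≤ Real.log t * (1 / 16) :=
      mul_le_mul_of_nonneg_left h3 hlogt.le
    linarith
  have hpow : 1 / x ≤ (1 - 2 * δ) ^ D := by
    have hδs : 2 * δ ≤ 1 / 2 := by
      have h1 : δ ≤ Real.exp (-5) := by
        refine hδ1.trans (Real.exp_le_exp.2 ?_)
        linarith
      linarith
    have h1 : Real.exp (-(2 * (2 * δ))) ≤ 1 - 2 * δ := by
      -- `exp (-2u) ≤ 1 - u` for `0 ≤ u ≤ 1/2`
      have h4 : Real.exp (-(2 * (2 * δ))) * (1 + 2 * (2 * δ)) ≤ 1 := by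
        have h5 : 1 + 2 * (2 * δ) ≤ Real.exp (2 * (2 * δ)) := by
          have := Real.add_one_le_exp (2 * (2 * δ))
          linarith
        calc Real.exp (-(2 * (2 * δ))) * (1 + 2 * (2 * δ)) ≤
            Real.exp (-(2 * (2 * δ))) * Real.exp (2 * (2 * δ)) := by gcongr
          _ = 1 := by rw [← Real.exp_add]; simp
      have h5 : 1 ≤ (1 - 2 * δ) * (1 + 2 * (2 * δ)) := auxU5 (by positivity) hδs
      have h6 : (0 : ℝ) < 1 + 2 * (2 * δ) := by positivity
      exact le_of_mul_le_mul_right (h4.trans h5) h6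
    have h2 : Real.exp (-(Real.log x)) = 1 / x := by
      rw [Real.exp_neg, Real.exp_log hx0, one_div]
    rw [← h2]
    calc Real.exp (-(Real.log x)) ≤ Real.exp (D * (-(2 * (2 * δ)))) := by
          apply Real.exp_le_exp.2
          have h3 : 16 * (δ * D) ≤ 4 * Real.log x := by rw [← hlogx]; exact hδD
          linarith
      _ = (Real.exp (-(2 * (2 * δ)))) ^ D := by rw [Real.exp_nat_mul]
      _ ≤ (1 - 2 * δ) ^ D := pow_le_pow_left₀ (Real.exp_pos _).le h1 D
  have hbig : (w : ℝ) * D ≤ (1 - 2 * δ) ^ D * (6 * t) := by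
    calc (w : ℝ) * D ≤ (6 * x) * x ^ 2 := by
          apply mul_le_mul hwx (by rw [hx2]; exact hDy) (by positivity) (by positivity)
      _ = 1 / x * (6 * x ^ 4) := by field_simp
      _ = 1 / x * (6 * t) := by rw [hx4]
      _ ≤ _ := mul_le_mul_of_nonneg_right hpow (by positivity)
  refine force_components (W := W) (w := w) (by omega) (by omega) (by omega)
    (pow_small hsR hWW) (pow_small hsR hWw) H₀ comp hadj D hcomp hbig G hV ?_
  -- the total weight
  have hs1 : s * (20 * Real.log s / w) ≤ 4 * (t * b) := by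
    have h1 : s * Real.log s = t * b ^ 2 := by
      rw [hb2]
      field_simp
    have h2 : 5 * b ≤ w := by linarith
    have h3 : s * (20 * Real.log s / w) = 20 * (t * b ^ 2) / w := by
      rw [← h1]
      ring
    rw [h3, div_le_iff₀ hwpos]
    have h4 : (0 : ℝ) < t * b := by positivity
    exact auxU6 h2 h4.le
  have htot : (s : ℝ) * W + t * w ≤ 30 * (t * a + t * b) := by
    have h1 : (s : ℝ) * W ≤ s * (20 * Real.log s / w) + s + s * w := by
      have : (s : ℝ) * W ≤ s * (20 * Real.log s / w + 1 + w) := by gcongr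
      linarith
    have h2 : (s : ℝ) * w ≤ t * w := by gcongr
    have h3 : (t : ℝ) * w ≤ t * (5 * a + 5 * b + 4) := by gcongr
    have h3' : (t : ℝ) * (5 * a + 5 * b + 4) = 5 * (t * a) + 5 * (t * b) + 4 * t := by ring
    have h4 : (t : ℝ) * 1 ≤ t * a := by gcongr
    have h5 : (0 : ℝ) < t * b := by positivity
    linarith
  have hGR : 36000 * (t * a + t * b) * Fintype.card V ≤ pr G := by
    rw [avgDeg_eq, le_div_iff₀ hVR, hY] at hG
    exact hG
  have h5 : ((1200 * (s * W + t * w) * Fintype.card V : ℕ) : ℝ) ≤ pr G := by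
    push_cast
    refine le_trans ?_ hGR
    apply mul_le_mul_of_nonneg_right _ hVR.le
    linarith
  exact_mod_cast h5

/-- **the upper bound for small components** -/
theorem upper_comp {D s t : ℕ} (hs : 2 ≤ s) (hst : s ≤ t) (ht : 1024 ≤ t)
    (H₀ : SimpleGraph (Fin t)) (comp : Fin t → ℕ) (hadj : ∀ x y, H₀.Adj x y → comp x = comp y)
    (hcomp : ∀ i, (univ.filter (fun x => comp x = i)).card ≤ D) :
    Forces (addDominant H₀ s) (36000 * (t * √(gain D t) + √(s * t * Real.log s))) := by
  by_cases hD : D ^ 2 ≤ t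
  · exact upper_small hs hst ht hD H₀ comp hadj hcomp
  push Not at hD
  have htR : (1024 : ℝ) ≤ t := by exact_mod_cast ht
  have hD2 : 2 ≤ D := by
    by_contra hcon
    have : D ≤ 1 := by omega
    have : D ^ 2 ≤ 1 ^ 2 := Nat.pow_le_pow_left this 2
    omega
  have hDR : (2 : ℝ) ≤ D := by exact_mod_cast hD2
  have hlogt : 0 < Real.log t := Real.log_pos (by linarith)
  have hlogD : 0 < Real.log D := Real.log_pos (by linarith)
  have hlog2' := Real.log_two_lt_d9
  have h1 := upper hD2 hs hst H₀ (fun x => by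
    have h2 : (H₀.neighborSet x) ⊆ ((univ.filter (fun y => comp y = comp x) : Finset (Fin t)) :
        Set (Fin t)) := by
      intro y hy
      rw [mem_coe, mem_filter]
      exact ⟨mem_univ _, (hadj x y hy).symm⟩
    have h3 := Set.ncard_le_ncard h2 (Finset.finite_toSet _)
    rw [Set.ncard_coe_finset] at h3
    exact h3.trans (hcomp _))
  have h2 : Real.log D ≤ 2 ^ 2 * gain D t := by
    have h3 : Real.log t ≤ 2 * Real.log D := by
      have h4 : (t : ℝ) ≤ D ^ 2 := by exact_mod_cast hD.le
      calc Real.log t ≤ Real.log ((D : ℝ) ^ 2) := Real.log_le_log (by linarith) h4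
        _ = _ := by rw [Real.log_pow]; norm_num
    have h4 : Real.log (Real.log t) ≤ Real.log D / 2 + 2 / 5 := by
      have h5 : Real.log (Real.log t / 4) ≤ Real.log t / 4 - 1 :=
        Real.log_le_sub_one_of_pos (by positivity)
      rw [Real.log_div (by positivity) (by norm_num)] at h5
      have h6 : Real.log 4 = 2 * Real.log 2 := by
        rw [show (4 : ℝ) = 2 ^ 2 by norm_num, Real.log_pow]
        norm_num
      linarith
    have h5 : Real.log D - Real.log (Real.log t) ≤ gain D t - 1 := by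
      unfold gain
      rw [← Real.log_div (by positivity) (by positivity)]
      have := le_max_right 0 (Real.log (D / Real.log t))
      linarith
    linarith
  have h3 : √(Real.log D) ≤ 2 * √(gain D t) := by
    calc √(Real.log D) ≤ √(2 ^ 2 * gain D t) := Real.sqrt_le_sqrt h2
      _ = 2 * √(gain D t) := by
        rw [Real.sqrt_mul (by norm_num), Real.sqrt_sq (by norm_num)]
  intro V _ _ G hG
  refine h1 V G (le_trans ?_ hG)
  unfold size
  have h4 : (t : ℝ) * √(Real.log D) ≤ t * (2 * √(gain D t)) :=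
    mul_le_mul_of_nonneg_left h3 (by positivity)
  have h5 : 0 ≤ √(s * t * Real.log s) := Real.sqrt_nonneg _
  linarith

end Pool.Agent.KS6_25.MF
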