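import Mathlib
import Pool.Agent.KS6_25.MF.Large
import Pool.Agent.KS6_25.MF.Reg
import Pool.Agent.KS6_25.MF.UpperComp

/-!
Both bounds are attained, for all `d` and `t`.
-/

set_option autoImplicit false
set_option linter.unusedSectionVars false

namespace Pool.Agent.KS6_25.MF

open SimpleGraph Finset Classical
open Pool.Agent.TH507.Host Pool.Agent.R34.Ident Pool.Agent.R34.FH

/-- the division of `t` -/
lemma split_t {d t : ℕ} (hd : 2 ≤ d) (hdt : 4 * d ≤ t) (he : Even (d * t)) :
    ∃ N n : ℕ, 0 < N ∧ 2 * d * N + n = t ∧ 2 * d ≤ n ∧ n ≤ 4 * d ∧ t ≤ 3 * (2 * d * N) ∧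
      Even (d * n) := by
  set M := t / (2 * d) with hM
  have h1 : 2 * d * M ≤ t := Nat.mul_div_le _ _
  have h2 : t < 2 * d * (M + 1) := Nat.lt_mul_div_succ _ (by omega)
  have hM2 : 2 ≤ M := by
    rw [hM, Nat.le_div_iff_mul_le (by omega)]
    omega
  obtain ⟨N, hN⟩ : ∃ N, M = N + 1 := ⟨M - 1, by omega⟩
  rw [hN] at h1 h2
  have h3 : 2 * d * (N + 1) = 2 * d * N + 2 * d := by ring
  have h4 : 2 * d * (N + 1 + 1) = 2 * d * N + 4 * d := by ring
  have h5 : 1 ≤ N := by omega
  have h6 : 2 * d * 1 ≤ 2 * d * N := Nat.mul_le_mul_left _ h5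
  refine ⟨N, t - 2 * d * N, h5, by omega, by omega, by omega, by omega, ?_⟩
  have h7 : d * (t - 2 * d * N) + d * (2 * d * N) = d * t := by
    rw [← Nat.mul_add]
    congr 1
    omega
  have h8 : Even (d * (2 * d * N)) := by
    rw [show d * (2 * d * N) = 2 * (d * d * N) by ring]
    exact even_two_mul _
  rw [← h7] at he
  exact (Nat.even_add.1 he).2 h8

/-- **the bound `t √(log d)` is attained** -/
theorem attained_upper {d t : ℕ} (hd : 2 ≤ d) (ht : 4096 ≤ t) (hdt : 4 * d ≤ t)
    (he : Even (d * t)) :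
    ∃ H₀ : SimpleGraph (Fin t), Regular H₀ d ∧
      ∀ c : ℝ, Forces H₀ c → 1 / 12288 * (t * √(Real.log d)) ≤ c := by
  obtain ⟨N, n, hN, h1, h2, h3, h4, h5⟩ := split_t hd hdt he
  obtain ⟨H₁, hr1, hf1⟩ := exists_large (d := d) (N := N) hd (by omega)
  obtain ⟨H₂, hr2⟩ := exists_regular (n := n) (d := d) (by omega) h2 h5
  have hc : Fintype.card (Fin (2 * d * N) ⊕ Fin n) = t := by
    rw [Fintype.card_sum, Fintype.card_fin, Fintype.card_fin, h1]
  let e : Fin (2 * d * N) ⊕ Fin n ≃ Fin t := Fintype.equivFinOfCardEq hc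
  refine ⟨(H₁ ⊕g H₂).comap e.symm, regular_comap _ (regular_sum H₁ H₂ hr1 hr2) e, ?_⟩
  intro c hc
  have h6 : Forces H₁ c := by
    intro V _ _ G hG
    refine minor_trans (minor_sub (fun x => e (Sum.inl x))
      (fun a b hab => Sum.inl_injective (e.injective hab)) ?_) (hc V G hG)
    intro u v huv
    rw [comap_adj, Equiv.symm_apply_apply, Equiv.symm_apply_apply]
    simpa using huv
  refine le_trans ?_ (hf1 c h6)
  have h7 : (t : ℝ) ≤ 3 * ((2 * d * N : ℕ) : ℝ) := by exact_mod_cast h4
  have h8 : (t : ℝ) * √(Real.log d) ≤ 3 * ((2 * d * N : ℕ) : ℝ) * √(Real.log d) := by gcongr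
  linarith

/-- the numbers of the components -/
def cmp {d N n : ℕ} : Vx d N ⊕ Fin n → ℕ
  | Sum.inl (Sum.inl z) => z.2.val
  | Sum.inl (Sum.inr z) => z.2.val
  | Sum.inr _ => N

/-- the numbers in the components -/
def pos {d N n : ℕ} : Vx d N ⊕ Fin n → ℕ
  | Sum.inl (Sum.inl z) => z.1.val
  | Sum.inl (Sum.inr z) => d + z.1.val
  | Sum.inr w => w.val

lemma pos_lt {d N n : ℕ} (hn : n ≤ 4 * d) : ∀ x : Vx d N ⊕ Fin n, pos x < 4 * d := by
  rintro ((z | z) | w)
  · have := z.1.2
    simp only [pos]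
    omega
  · have := z.1.2
    simp only [pos]
    omega
  · have := w.2
    simp only [pos]
    omega

lemma pos_inj {d N n : ℕ} (x y : Vx d N ⊕ Fin n) (h1 : cmp x = cmp y) (h2 : pos x = pos y) :
    x = y := by
  rcases x with (x | x) | x <;> rcases y with (y | y) | y <;> simp only [cmp, pos] at h1 h2
  · rw [Prod.ext (Fin.ext h2) (Fin.ext h1)]
  · have := x.1.2
    omega
  · have := x.2.2
    omega
  · have := y.1.2
    omega
  · rw [Prod.ext (Fin.ext (by omega)) (Fin.ext h1)]
  · have := x.2.2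
    omega
  · have := y.2.2
    omega
  · have := y.2.2
    omega
  · rw [Fin.ext h2]

/-- **a regular graph with small components** -/
theorem exists_comp {d t : ℕ} (hd : 2 ≤ d) (hdt : 4 * d ≤ t) (he : Even (d * t)) :
    ∃ H₀ : SimpleGraph (Fin t), Regular H₀ d ∧ ∃ comp : Fin t → ℕ,
      (∀ x y, H₀.Adj x y → comp x = comp y) ∧
      ∀ i, (univ.filter (fun x => comp x = i)).card ≤ 4 * d := by
  obtain ⟨N, n, hN, h1, h2, h3, h4, h5⟩ := split_t hd hdt he
  obtain ⟨H₂, hr2⟩ := exists_regular (n := n) (d := d) (by omega) h2 h5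
  have hc : Fintype.card (Vx d N ⊕ Fin n) = t := by
    rw [← h1]
    simp [Fintype.card_sum]
    ring
  let e : Vx d N ⊕ Fin n ≃ Fin t := Fintype.equivFinOfCardEq hc
  let H₁ : SimpleGraph (Vx d N) := bipGraph (fun _ : Fin d × Fin d => (1 : Equiv.Perm (Fin N)))
  refine ⟨(H₁ ⊕g H₂).comap e.symm, regular_comap _ (regular_sum H₁ H₂ (ncard_bip _) hr2) e,
    fun x => cmp (e.symm x), ?_, ?_⟩
  · intro x y hxy
    rw [comap_adj] at hxy
    show cmp (e.symm x) = cmp (e.symm y)
    generalize e.symm x = u at hxy ⊢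
    generalize e.symm y = v at hxy ⊢
    rcases u with (u | u) | u <;> rcases v with (v | v) | v
    · exact (show False from hxy).elim
    · have : u.2 = v.2 := hxy
      show u.2.val = v.2.val
      rw [this]
    · exact absurd hxy (by simp)
    · have : v.2 = u.2 := hxy
      show u.2.val = v.2.val
      rw [this]
    · exact (show False from hxy).elim
    · exact absurd hxy (by simp)
    · exact absurd hxy (by simp)
    · exact absurd hxy (by simp)
    · rfl
  · intro i
    have h6 : (univ.filter (fun x => cmp (e.symm x) = i)).card ≤ (range (4 * d)).card := by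
      refine card_le_card_of_injOn (fun x => pos (e.symm x)) ?_ ?_
      · intro x _
        rw [mem_coe, mem_range]
        exact pos_lt h3 _
      · intro x hx y hy hxy
        have h7 := (mem_filter.1 (mem_coe.1 hx)).2
        have h8 := (mem_filter.1 (mem_coe.1 hy)).2
        exact e.symm.injective (pos_inj _ _ (h7.trans h8.symm) hxy)
    rwa [card_range] at h6

/-- the gain of `4 d` -/
lemma gain_four {d t : ℕ} (hd : 2 ≤ d) (ht : 1024 ≤ t) : gain (4 * d) t ≤ 25 / 9 * gain d t := by
  unfold gain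
  have htR : (1024 : ℝ) ≤ t := by exact_mod_cast ht
  have hlogt : 0 < Real.log t := Real.log_pos (by linarith)
  have hdR : (2 : ℝ) ≤ d := by exact_mod_cast hd
  have h1 : Real.log (((4 * d : ℕ) : ℝ) / Real.log t) = Real.log 4 + Real.log (d / Real.log t) := by
    rw [← Real.log_mul (by norm_num) (by positivity)]
    push_cast
    congr 1
    ring
  have h2 : Real.log 4 ≤ 3 / 2 := by
    have h3 : Real.log 4 = 2 * Real.log 2 := by
      rw [show (4 : ℝ) = 2 ^ 2 by norm_num, Real.log_pow]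
      norm_num
    have := Real.log_two_lt_d9
    linarith
  have h3 : 0 ≤ Real.log 4 := Real.log_nonneg (by norm_num)
  have h4 : max 0 (Real.log (((4 * d : ℕ) : ℝ) / Real.log t)) ≤
      Real.log 4 + max 0 (Real.log (d / Real.log t)) := by
    rw [h1]
    apply max_le
    · have := le_max_left 0 (Real.log (d / Real.log t))
      linarith
    · have := le_max_right 0 (Real.log (d / Real.log t))
      linarith
  have h5 := le_max_left 0 (Real.log (d / Real.log t))
  linarith

/-- **the bound `t √(1 + log⁺ (d / log t))` is attained** -/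
theorem attained_lower {d t : ℕ} (hd : 2 ≤ d) (ht : 1024 ≤ t) (hdt : 4 * d ≤ t)
    (he : Even (d * t)) :
    ∃ H₀ : SimpleGraph (Fin t), Regular H₀ d ∧ ∀ s, 2 ≤ s → s ≤ t →
      Forces (addDominant H₀ s) (60000 * (t * √(gain d t) + √(s * t * Real.log s))) := by
  obtain ⟨H₀, hreg, comp, h1, h2⟩ := exists_comp hd hdt he
  refine ⟨H₀, hreg, fun s hs hst => ?_⟩
  have h3 := upper_comp hs hst ht H₀ comp h1 h2
  intro V _ _ G hG
  apply h3 V G
  refine le_trans ?_ hG
  have h4 : √(gain (4 * d) t) ≤ 5 / 3 * √(gain d t) := by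
    rw [Real.sqrt_le_left (by positivity), mul_pow, Real.sq_sqrt (by
      have := one_le_gain d t
      linarith)]
    have := gain_four hd ht
    linarith
  have h5 : (t : ℝ) * √(gain (4 * d) t) ≤ t * (5 / 3 * √(gain d t)) := by gcongr
  have h6 : 0 ≤ √(s * t * Real.log s) := Real.sqrt_nonneg _
  linarith

end Pool.Agent.KS6_25.MF
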